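import Mathlib

/-!
# Boolean circuits over and, or, not (fan-in at most two)

The vertices of a circuit with `n` inputs and `s` gates are `Fin n ⊕ Fin s`.
-/

namespace Pool.Agent.Lib_MP_22d2c8_lc

/-- Flip the `i`-th bit. -/
def flipBit {n : ℕ} (x : Fin n → Bool) (i : Fin n) : Fin n → Bool :=
  Function.update x i (!(x i))

/-- The label of a gate, together with its predecessors (a gate `and u u` or `or u u` has a
single predecessor). -/
inductive Op (V : Type) where
  | and (u v : V) : Op V
  | or (u v : V) : Op V
  | not (u : V) : Op V

/-- The set of predecessors of a gate. -/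
def Op.preds {V : Type} [DecidableEq V] : Op V → Finset V
  | .and u v => {u, v}
  | .or u v => {u, v}
  | .not u => {u}

/-- The value of a gate from the values of its predecessors. -/
def Op.eval {V : Type} (a : V → Bool) : Op V → Bool
  | .and u v => a u && a v
  | .or u v => a u || a v
  | .not u => !(a u)

/-- A Boolean circuit with `n` inputs, `s` gates and one output vertex: every gate has a label
and one or two predecessors, and the graph has no directed cycle (there is a numbering of the
vertices which increases along every wire). -/
structure Circuit (n s : ℕ) where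
  /-- the gates -/
  op : Fin s → Op (Fin n ⊕ Fin s)
  /-- the output vertex -/
  out : Fin n ⊕ Fin s
  /-- there is no directed cycle -/
  acyclic : ∃ rank : Fin n ⊕ Fin s → ℕ, ∀ g, ∀ u ∈ (op g).preds, rank u < rank (Sum.inr g)

namespace Circuit

variable {n s : ℕ}

/-- The number of vertices. -/
def size (_ : Circuit n s) : ℕ := n + s

/-- The circuit computes `f`: for every input `x` there is an assignment of values to the
vertices which agrees with `x` on the inputs, satisfies every gate and gives `f x` at the
output. -/
def Computes (C : Circuit n s) (f : (Fin n → Bool) → Bool) : Prop :=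
  ∀ x : Fin n → Bool, ∃ a : Fin n ⊕ Fin s → Bool,
    (∀ j, a (Sum.inl j) = x j) ∧ (∀ g, a (Sum.inr g) = (C.op g).eval a) ∧ a C.out = f x

/-- The number of wires leaving a vertex. -/
def outdeg (C : Circuit n s) (u : Fin n ⊕ Fin s) : ℕ :=
  (Finset.univ.filter (fun g : Fin s => u ∈ (C.op g).preds)).card

/-- The gates with at least two outgoing wires. -/
def reused (C : Circuit n s) : Finset (Fin s) :=
  Finset.univ.filter (fun g => 2 ≤ C.outdeg (Sum.inr g))

open Classical in
/-- The inputs on which the value of the gate `g` depends: flipping the input `i` changes the value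
of the gate, for some values of the inputs (`a` and `b` are the values of all vertices before and
after the flip). -/
noncomputable def dependsOn (C : Circuit n s) (g : Fin s) : Finset (Fin n) :=
  Finset.univ.filter (fun i => ∃ (x : Fin n → Bool) (a b : Fin n ⊕ Fin s → Bool),
    (∀ j, a (Sum.inl j) = x j) ∧ (∀ h, a (Sum.inr h) = (C.op h).eval a) ∧
    (∀ j, b (Sum.inl j) = flipBit x i j) ∧ (∀ h, b (Sum.inr h) = (C.op h).eval b) ∧
    a (Sum.inr g) ≠ b (Sum.inr g))

/-- Every path that ends in the output vertex has, strictly before the output vertex, at most `k`
reused gates that are not in `Z` and whose value depends on more than `q` inputs: there is a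
labelling of the vertices by natural numbers which does not decrease along wires, increases by at
least one along every wire leaving such a gate, and is at most `k` at the output vertex. -/
def ReuseDepthLE (C : Circuit n s) (Z : Finset (Fin s)) (q k : ℕ) : Prop :=
  ∃ lev : Fin n ⊕ Fin s → ℕ,
    (∀ g, ∀ u ∈ (C.op g).preds, lev u ≤ lev (Sum.inr g)) ∧
    (∀ g, ∀ h ∈ C.reused, h ∉ Z → q < (C.dependsOn h).card → Sum.inr h ∈ (C.op g).preds →
      lev (Sum.inr h) + 1 ≤ lev (Sum.inr g)) ∧
    lev C.out ≤ k

end Circuit

/-- The number of ordered pairs `(x, y)` of points of `X` that differ in exactly one bit and have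
`f x ≠ f y`. -/
def sensPairs {n : ℕ} (f : (Fin n → Bool) → Bool) (X : Finset (Fin n → Bool)) : ℕ :=
  ∑ x ∈ X, (Finset.univ.filter (fun i : Fin n => flipBit x i ∈ X ∧ f (flipBit x i) ≠ f x)).card

/-- The parity function: is the number of ones odd? -/
def parity {n : ℕ} (x : Fin n → Bool) : Bool :=
  decide (Odd (Finset.univ.filter (fun i : Fin n => x i = true)).card)

end Pool.Agent.Lib_MP_22d2c8_lc
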