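import Pool.Agent.Lib_MP_22d2c8_lc.Khrapchenko

/-!
# Independent sets and thinning
-/

namespace Pool.Agent.Lib_MP_22d2c8_lc

open Finset

theorem indep_arith {n' t Q Q' δ : ℕ} (hJ : n' ^ 2 ≤ t * (n' + Q')) (hQ : Q' + (δ + 1) * δ ≤ Q) :
    (n' + (δ + 1)) ^ 2 ≤ (t + 1) * ((n' + (δ + 1)) + Q) := by
  have h1 : (n' : ℝ) ^ 2 ≤ t * (n' + Q') := by exact_mod_cast hJ
  have h2 : (Q' : ℝ) + (δ + 1) * δ ≤ Q := by exact_mod_cast hQ
  have h3 : ((n' : ℝ) + (δ + 1)) ^ 2 ≤ (t + 1) * ((n' + (δ + 1)) + Q) := by
    have hn : (0 : ℝ) ≤ n' := Nat.cast_nonneg _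
    have hQ' : (0 : ℝ) ≤ Q' := Nat.cast_nonneg _
    have ht : (0 : ℝ) ≤ t := Nat.cast_nonneg _
    have hd : (0 : ℝ) ≤ δ := Nat.cast_nonneg _
    generalize (n' : ℝ) = a at *
    generalize (Q' : ℝ) = q at *
    generalize (Q : ℝ) = r at *
    generalize (t : ℝ) = u at *
    generalize (δ : ℝ) = d at *
    have key : 2 * a * (d + 1) ≤ (a + q) + u * (d + 1) ^ 2 := by
      refine le_trans (le_abs_self _) (abs_le_of_sq_le_sq ?_ (by positivity))
      have h4 : a ^ 2 * (d + 1) ^ 2 ≤ u * (a + q) * (d + 1) ^ 2 :=
        mul_le_mul_of_nonneg_right h1 (by positivity)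
      nlinarith [sq_nonneg ((a + q) - u * (d + 1) ^ 2)]
    have h5 : (a + q) + (d + 1) ^ 2 ≤ (a + (d + 1)) + r := by nlinarith
    have h6 : (u + 1) * ((a + q) + (d + 1) ^ 2) ≤ (u + 1) * ((a + (d + 1)) + r) :=
      mul_le_mul_of_nonneg_left h5 (by positivity)
    nlinarith
  exact_mod_cast h3

/-- Turan's bound: a finite symmetric irreflexive relation with `Q` ordered related pairs on a set
of `N` elements has an independent set of size at least `N ^ 2 / (N + Q)`. -/
theorem exists_indep {ι : Type} [DecidableEq ι] (R : ι → ι → Prop) [DecidableRel R]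
    (hsymm : ∀ a b, R a b → R b a) (hirr : ∀ a, ¬ R a a) :
    ∀ (m : ℕ) (I : Finset ι), I.card = m →
      ∃ J ⊆ I, (∀ a ∈ J, ∀ b ∈ J, ¬ R a b) ∧
        I.card ^ 2 ≤ J.card * (I.card + ∑ a ∈ I, (I.filter (R a)).card) := by
  intro m
  induction m using Nat.strong_induction_on with
  | _ m ih =>
    intro I hI
    rcases I.eq_empty_or_nonempty with rfl | hne
    · exact ⟨∅, Finset.Subset.refl _, by simp, by simp⟩
    · obtain ⟨a, ha, hmin⟩ := Finset.exists_min_image I (fun a => (I.filter (R a)).card) hne
      set δ := (I.filter (R a)).card with hδ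
      set N := insert a (I.filter (R a)) with hN
      have hNI : N ⊆ I := by
        rw [hN]
        intro b hb
        rcases Finset.mem_insert.mp hb with rfl | hb
        · exact ha
        · exact (Finset.mem_filter.mp hb).1
      have haN : a ∉ I.filter (R a) := by
        simp [hirr]
      have hNcard : N.card = δ + 1 := by
        rw [hN, Finset.card_insert_of_notMem haN]
      set I' := I \ N with hI'
      have hcard : I'.card + (δ + 1) = I.card := by
        rw [hI', Finset.card_sdiff_of_subset hNI, hNcard]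
        have := Finset.card_le_card hNI
        omega
      obtain ⟨J', hJ'I', hJ', hJ'card⟩ := ih I'.card (by omega) I' rfl
      refine ⟨insert a J', ?_, ?_, ?_⟩
      · intro b hb
        rcases Finset.mem_insert.mp hb with rfl | hb
        · exact ha
        · exact (Finset.mem_sdiff.mp (hJ'I' hb)).1
      · have hab : ∀ b ∈ J', ¬ R a b := by
          intro b hb hR
          have h1 := Finset.mem_sdiff.mp (hJ'I' hb)
          apply h1.2
          rw [hN]
          exact Finset.mem_insert_of_mem (Finset.mem_filter.mpr ⟨h1.1, hR⟩)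
        intro b hb c hc
        rcases Finset.mem_insert.mp hb with hb1 | hb1
        · rcases Finset.mem_insert.mp hc with hc1 | hc1
          · rw [hb1, hc1]
            exact hirr _
          · rw [hb1]
            exact hab c hc1
        · rcases Finset.mem_insert.mp hc with hc1 | hc1
          · rw [hc1]
            intro h
            exact hab b hb1 (hsymm _ _ h)
          · exact hJ' b hb1 c hc1
      · have haJ' : a ∉ J' := by
          intro h
          have := (Finset.mem_sdiff.mp (hJ'I' h)).2
          exact this (by rw [hN]; exact Finset.mem_insert_self _ _)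
        rw [Finset.card_insert_of_notMem haJ']
        have hQ : (∑ b ∈ I', (I'.filter (R b)).card) + (δ + 1) * δ ≤
            ∑ b ∈ I, (I.filter (R b)).card := by
          rw [← Finset.sum_sdiff hNI]
          apply add_le_add
          · apply Finset.sum_le_sum
            intro b _
            apply Finset.card_le_card
            intro c hc
            have := Finset.mem_filter.mp hc
            exact Finset.mem_filter.mpr ⟨(Finset.mem_sdiff.mp this.1).1, this.2⟩
          · rw [← hNcard, ← smul_eq_mul]
            apply Finset.card_nsmul_le_sum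
            intro b hb
            exact hmin b (hNI hb)
        set t := J'.card
        set n' := I'.card
        set Q' := ∑ b ∈ I', (I'.filter (R b)).card
        set Q := ∑ b ∈ I, (I.filter (R b)).card
        rw [← hcard]
        exact indep_arith hJ'card hQ

variable {P : Type} [DecidableEq P]

theorem sum_fiber_sq {X : Finset P} (F : Finset (P × P)) (π : P × P → P)
    (hF : ∀ e ∈ F, π e ∈ X) :
    ∑ e ∈ F, (F.filter (fun e' => π e' = π e)).card =
      ∑ x ∈ X, ((F.filter (fun e => π e = x)).card) ^ 2 := by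
  rw [← Finset.sum_fiberwise_of_maps_to hF]
  apply Finset.sum_congr rfl
  intro x _
  have : ∀ e ∈ F.filter (fun e => π e = x), (F.filter (fun e' => π e' = π e)).card =
      (F.filter (fun e' => π e' = x)).card := by
    intro e he
    rw [(Finset.mem_filter.mp he).2]
  rw [Finset.sum_congr rfl this, Finset.sum_const, smul_eq_mul, sq]

/-- Thinning: if every `h i`, `i ∈ H`, satisfies the spectral bound with constant `c i` then there
is a large subset of `E` with at most one sensitive pair at every point, for every `h i`. -/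
theorem exists_thinning {κ : Type} {X : Finset P} {E : Finset (P × P)}
    (hE : ∀ e ∈ E, e.1 ∈ X ∧ e.2 ∈ X) (H : Finset κ) (h : κ → P → Bool) (c : κ → ℝ)
    (hc : ∀ i ∈ H, 0 ≤ c i) (hSB : ∀ i ∈ H, SB X E (h i) (c i)) :
    ∃ E' ⊆ E, (∀ i ∈ H, Matching E' (h i)) ∧
      (E.card : ℝ) ^ 2 ≤ E'.card * (E.card + 2 * (∑ i ∈ H, c i) * X.card) := by
  classical
  let R : P × P → P × P → Prop := fun e e' => e ≠ e' ∧
    ∃ i ∈ H, h i e.1 ≠ h i e.2 ∧ h i e'.1 ≠ h i e'.2 ∧ (e'.1 = e.1 ∨ e'.2 = e.2)
  obtain ⟨E', hE'E, hind, hcard⟩ := exists_indep R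
    (by
      rintro a b ⟨h1, i, hi, h2, h3, h4⟩
      exact ⟨h1.symm, i, hi, h3, h2, h4.imp Eq.symm Eq.symm⟩)
    (by rintro a ⟨h1, _⟩; exact h1 rfl) E.card E rfl
  refine ⟨E', hE'E, ?_, ?_⟩
  · intro i hi
    constructor
    · intro e he e' he' h1 h2 h3
      by_contra hne
      exact hind e he e' he' ⟨hne, i, hi, h1, h2, Or.inl h3.symm⟩
    · intro e he e' he' h1 h2 h3
      by_contra hne
      exact hind e he e' he' ⟨hne, i, hi, h1, h2, Or.inr h3.symm⟩
  · have hQ : ((∑ e ∈ E, (E.filter (R e)).card : ℕ) : ℝ) ≤ 2 * (∑ i ∈ H, c i) * X.card := by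
      have h1 : ∑ e ∈ E, (E.filter (R e)).card ≤
          ∑ i ∈ H, (∑ x ∈ X, (dL E (h i) x) ^ 2 + ∑ x ∈ X, (dR E (h i) x) ^ 2) := by
        have hstep : ∀ e ∈ E, (E.filter (R e)).card ≤
            ∑ i ∈ H, (if h i e.1 ≠ h i e.2 then
              ((sens E (h i)).filter (fun e' => e'.1 = e.1)).card +
              ((sens E (h i)).filter (fun e' => e'.2 = e.2)).card else 0) := by
          intro e he
          have hsub : E.filter (R e) ⊆ H.biUnion (fun i =>
              if h i e.1 ≠ h i e.2 then
                (sens E (h i)).filter (fun e' => e'.1 = e.1) ∪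
                (sens E (h i)).filter (fun e' => e'.2 = e.2) else ∅) := by
            intro e' he'
            obtain ⟨he'E, _, i, hi, h2, h3, h4⟩ := Finset.mem_filter.mp he'
            rw [Finset.mem_biUnion]
            refine ⟨i, hi, ?_⟩
            rw [if_pos h2, Finset.mem_union, Finset.mem_filter, Finset.mem_filter]
            have hs : e' ∈ sens E (h i) := Finset.mem_filter.mpr ⟨he'E, h3⟩
            exact h4.imp (fun h => ⟨hs, h⟩) (fun h => ⟨hs, h⟩)
          refine (Finset.card_le_card hsub).trans (Finset.card_biUnion_le.trans ?_)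
          apply Finset.sum_le_sum
          intro i _
          by_cases hi : h i e.1 ≠ h i e.2
          · rw [if_pos hi, if_pos hi]
            exact Finset.card_union_le _ _
          · rw [if_neg hi, if_neg hi]
            simp
        refine (Finset.sum_le_sum hstep).trans (le_of_eq ?_)
        rw [Finset.sum_comm]
        apply Finset.sum_congr rfl
        intro i _
        rw [← Finset.sum_filter, Finset.sum_add_distrib]
        congr 1
        · exact sum_fiber_sq (sens E (h i)) (fun e => e.1)
            (fun e he => (hE e (Finset.mem_filter.mp he).1).1)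
        · exact sum_fiber_sq (sens E (h i)) (fun e => e.2)
            (fun e he => (hE e (Finset.mem_filter.mp he).1).2)
      have h2 : ((∑ i ∈ H, (∑ x ∈ X, (dL E (h i) x) ^ 2 + ∑ x ∈ X, (dR E (h i) x) ^ 2) : ℕ) : ℝ) ≤
          ∑ i ∈ H, 2 * c i * X.card := by
        push_cast
        apply Finset.sum_le_sum
        intro i hi
        have e1 := sum_dL_sq hE (hc i hi) (hSB i hi)
        have e2 := sum_dR_sq hE (hc i hi) (hSB i hi)
        linarith
      have h3 : ∑ i ∈ H, 2 * c i * (X.card : ℝ) = 2 * (∑ i ∈ H, c i) * X.card := by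
        rw [Finset.mul_sum, Finset.sum_mul]
      rw [← h3]
      refine le_trans ?_ h2
      exact_mod_cast h1
    have hcard' : (E.card : ℝ) ^ 2 ≤
        E'.card * (E.card + ((∑ e ∈ E, (E.filter (R e)).card : ℕ) : ℝ)) := by
      exact_mod_cast hcard
    refine hcard'.trans ?_
    apply mul_le_mul_of_nonneg_left _ (by positivity)
    linarith

end Pool.Agent.Lib_MP_22d2c8_lc
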