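import Pool.Agent.Lib_MP_22d2c8_lc.Circuit
import Pool.Agent.Lib_MP_22d2c8_lc.Thinning

/-!
# The main argument
-/

namespace Pool.Agent.Lib_MP_22d2c8_lc

open Finset

/-- Inputs and the gates in `cut` are the leaves. -/
def leafV {n s : ℕ} (cut : Finset (Fin s)) : Fin n ⊕ Fin s → Bool
  | Sum.inl _ => true
  | Sum.inr g => decide (g ∈ cut)

theorem exists_cost {n s : ℕ} (op : Fin s → Op (Fin n ⊕ Fin s)) (rank : Fin n ⊕ Fin s → ℕ)
    (hrank : ∀ g, ∀ u ∈ (op g).preds, rank u < rank (Sum.inr g)) (cut : Finset (Fin s)) :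
    ∃ c : Fin n ⊕ Fin s → ℕ, ∀ g, c (Sum.inr g) =
      ∑ u ∈ (op g).preds, if leafV cut u = true then 1 else c u := by
  classical
  let F : (v : Fin n ⊕ Fin s) → ((u : Fin n ⊕ Fin s) → rank u < rank v → ℕ) → ℕ :=
    fun v ih => match v, ih with
      | Sum.inl _, _ => 0
      | Sum.inr g, ih => ∑ u ∈ (op g).preds.attach,
          if leafV cut u.1 = true then 1 else ih u.1 (hrank g u.1 u.2)
  let c := WellFounded.fix (measure rank).wf F
  refine ⟨c, ?_⟩
  intro g
  have h1 : c (Sum.inr g) = ∑ u ∈ (op g).preds.attach,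
      if leafV cut u.1 = true then 1 else c u.1 := by
    show WellFounded.fix (measure rank).wf F (Sum.inr g) = _
    rw [WellFounded.fix_eq]
  rw [h1]
  exact Finset.sum_attach (op g).preds (fun u => if leafV cut u = true then 1 else c u)

theorem card_preds_le {V : Type} [DecidableEq V] (o : Op V) : o.preds.card ≤ 2 := by
  cases o with
  | and u v => exact Finset.card_le_two
  | or u v => exact Finset.card_le_two
  | not u => simp [Op.preds]

theorem sum_cost_le {n s : ℕ} (C : Circuit n s) (cut : Finset (Fin s))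
    (hcut : ∀ g, g ∉ cut → C.outdeg (Sum.inr g) ≤ 1) (c : Fin n ⊕ Fin s → ℕ)
    (hc : ∀ g, c (Sum.inr g) =
      ∑ u ∈ (C.op g).preds, if leafV cut u = true then 1 else c u) :
    ∑ g ∈ cut, c (Sum.inr g) ≤ 2 * s := by
  classical
  set F : Fin n ⊕ Fin s → ℕ := fun u => if leafV cut u = true then 0 else c u with hF
  have h1 : ∑ g, c (Sum.inr g) ≤ 2 * s + ∑ g, ∑ u ∈ (C.op g).preds, F u := by
    have : ∀ g : Fin s, c (Sum.inr g) ≤ 2 + ∑ u ∈ (C.op g).preds, F u := by
      intro g
      rw [hc g]
      have h2 : ∀ u ∈ (C.op g).preds, (if leafV cut u = true then 1 else c u) ≤ 1 + F u := by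
        intro u _
        simp only [hF]
        split_ifs <;> omega
      refine (Finset.sum_le_sum h2).trans ?_
      rw [Finset.sum_add_distrib]
      apply Nat.add_le_add_right
      simpa using card_preds_le (C.op g)
    refine (Finset.sum_le_sum (fun g _ => this g)).trans ?_
    rw [Finset.sum_add_distrib]
    simp [mul_comm]
  have h2 : ∑ g, ∑ u ∈ (C.op g).preds, F u ≤ ∑ g, F (Sum.inr g) := by
    have h3 : ∑ g, ∑ u ∈ (C.op g).preds, F u = ∑ u, C.outdeg u * F u := by
      have : ∀ g : Fin s, ∑ u ∈ (C.op g).preds, F u =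
          ∑ u, if u ∈ (C.op g).preds then F u else 0 := by
        intro g
        rw [← Finset.sum_filter]
        congr 1
        ext u
        simp
      rw [Finset.sum_congr rfl (fun g _ => this g), Finset.sum_comm]
      apply Finset.sum_congr rfl
      intro u _
      rw [← Finset.sum_filter, Finset.sum_const, smul_eq_mul]
      rfl
    rw [h3, Fintype.sum_sum_type]
    have h4 : ∑ a : Fin n, C.outdeg (Sum.inl a) * F (Sum.inl a) = 0 := by
      apply Finset.sum_eq_zero
      intro a _
      simp [hF, leafV]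
    rw [h4, zero_add]
    apply Finset.sum_le_sum
    intro g _
    by_cases hg : g ∈ cut
    · simp [hF, leafV, hg]
    · have := hcut g hg
      calc C.outdeg (Sum.inr g) * F (Sum.inr g) ≤ 1 * F (Sum.inr g) :=
            Nat.mul_le_mul_right _ this
        _ = F (Sum.inr g) := one_mul _
  have h5 : ∑ g, c (Sum.inr g) = ∑ g ∈ cut, c (Sum.inr g) + ∑ g, F (Sum.inr g) := by
    rw [← Finset.sum_filter_add_sum_filter_not Finset.univ (fun g => g ∈ cut)]
    congr 1
    · congr 1
      ext g; simp
    · rw [Finset.sum_filter]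
      apply Finset.sum_congr rfl
      intro g _
      simp only [hF, leafV]
      by_cases hg : g ∈ cut <;> simp [hg]
  omega

section tree

variable {n s : ℕ} (C : Circuit n s) (val : (Fin n → Bool) → Fin n ⊕ Fin s → Bool)
  (rank lev : Fin n ⊕ Fin s → ℕ) (cut reg : Finset (Fin s)) (c : Fin n ⊕ Fin s → ℕ)

theorem tree_SB
    (hval : ∀ x g, val x (Sum.inr g) = (C.op g).eval (val x))
    (hrank : ∀ g, ∀ u ∈ (C.op g).preds, rank u < rank (Sum.inr g))
    (hlev : ∀ g, ∀ u ∈ (C.op g).preds, lev u ≤ lev (Sum.inr g))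
    (hreg : ∀ g, ∀ h ∈ reg, Sum.inr h ∈ (C.op g).preds → lev (Sum.inr h) + 1 ≤ lev (Sum.inr g))
    (hc : ∀ g, c (Sum.inr g) =
      ∑ u ∈ (C.op g).preds, if leafV cut u = true then 1 else c u)
    {X : Finset (Fin n → Bool)} {E : Finset ((Fin n → Bool) × (Fin n → Bool))}
    (Q : ℝ) (hQ : 0 ≤ Q) (j r : ℕ)
    (ready : ∀ u, leafV cut u = true → rank u < r → lev u ≤ j →
      (∀ h ∈ reg, u = Sum.inr h → lev u < j) → SB X E (fun x => val x u) Q) :
    ∀ (m : ℕ) (g : Fin s), rank (Sum.inr g) = m → m ≤ r → lev (Sum.inr g) ≤ j →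
      SB X E (fun x => val x (Sum.inr g)) (Q * c (Sum.inr g)) := by
  intro m
  induction m using Nat.strong_induction_on with
  | _ m ih =>
    intro g hgm hmr hgj
    have hpred : ∀ u ∈ (C.op g).preds, SB X E (fun x => val x u)
        (Q * (((if leafV cut u = true then 1 else c u) : ℕ) : ℝ)) := by
      intro u hu
      by_cases hl : leafV cut u = true
      · rw [if_pos hl, Nat.cast_one, mul_one]
        apply ready u hl
        · have := hrank g u hu; omega
        · have := hlev g u hu; omega
        · rintro h hh rfl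
          have := hreg g h hh hu
          omega
      · rw [if_neg hl]
        rcases u with a | h
        · simp [leafV] at hl
        · have h1 := hrank g _ hu
          have h2 := hlev g _ hu
          exact ih (rank (Sum.inr h)) (by omega) h rfl (by omega) (by omega)
    have hg := hc g
    have hv := fun x => hval x g
    cases hop : C.op g with
    | and u v =>
      rw [hop] at hpred hg
      simp only [hop, Op.eval] at hv
      simp only [Op.preds] at hpred hg
      have hu := hpred u (by simp)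
      have hv' := hpred v (by simp)
      have hfun : (fun x => val x (Sum.inr g)) = (fun x => val x u && val x v) := by
        funext x; exact hv x
      rw [hfun]
      by_cases huv : u = v
      · subst huv
        simp only [Finset.mem_singleton, Finset.insert_eq_of_mem, Finset.sum_singleton] at hg
        have : (fun x => val x u && val x u) = (fun x => val x u) := by
          funext x; simp
        rw [this, hg]
        exact hu
      · rw [Finset.sum_pair huv] at hg
        rw [hg, Nat.cast_add, mul_add]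
        exact SB_and (by positivity) (by positivity) hu hv'
    | or u v =>
      rw [hop] at hpred hg
      simp only [hop, Op.eval] at hv
      simp only [Op.preds] at hpred hg
      have hu := hpred u (by simp)
      have hv' := hpred v (by simp)
      have hfun : (fun x => val x (Sum.inr g)) = (fun x => val x u || val x v) := by
        funext x; exact hv x
      rw [hfun]
      by_cases huv : u = v
      · subst huv
        simp only [Finset.mem_singleton, Finset.insert_eq_of_mem, Finset.sum_singleton] at hg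
        have : (fun x => val x u || val x u) = (fun x => val x u) := by
          funext x; simp
        rw [this, hg]
        exact hu
      · rw [Finset.sum_pair huv] at hg
        rw [hg, Nat.cast_add, mul_add]
        exact SB_or (by positivity) (by positivity) hu hv'
    | not u =>
      rw [hop] at hpred hg
      simp only [hop, Op.eval] at hv
      simp only [Op.preds] at hpred hg
      have hu := hpred u (by simp)
      have hfun : (fun x => val x (Sum.inr g)) = (fun x => !(val x u)) := by
        funext x; exact hv x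
      rw [hfun]
      rw [Finset.sum_singleton] at hg
      rw [hg]
      exact SB_not hu

end tree

/-- Removing the pairs that are sensitive for some function of a finite family, in an order given
by `rank`. -/
theorem removal {P κ : Type} [DecidableEq P] {X : Finset P} {E : Finset (P × P)}
    (hE : ∀ e ∈ E, e.1 ∈ X ∧ e.2 ∈ X) (H : Finset κ) (h : κ → P → Bool) (rk : κ → ℕ) (c : κ → ℝ)
    (hc : ∀ i ∈ H, 0 ≤ c i) (E' : Finset (P × P))
    (hE' : ∀ e ∈ E, (∀ i ∈ H, h i e.1 = h i e.2) → e ∈ E') (Ez : κ → Finset (P × P))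
    (hEz1 : ∀ i ∈ H, Ez i ⊆ E)
    (hEz2 : ∀ i ∈ H, ∀ e ∈ E, (∀ i' ∈ H, rk i' < rk i → h i' e.1 = h i' e.2) → e ∈ Ez i)
    (hSB : ∀ i ∈ H, SB X (Ez i) (h i) (c i)) :
    (E.card : ℝ) ≤ E'.card + (∑ i ∈ H, Real.sqrt (c i)) * X.card := by
  classical
  have hsub : E ⊆ E' ∪ H.biUnion (fun i => sens (Ez i) (h i)) := by
    intro e he
    by_cases hall : ∀ i ∈ H, h i e.1 = h i e.2
    · exact Finset.mem_union_left _ (hE' e he hall)
    · push Not at hall
      apply Finset.mem_union_right
      have hne : (H.filter (fun i => h i e.1 ≠ h i e.2)).Nonempty := by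
        obtain ⟨i, hi, hi'⟩ := hall
        exact ⟨i, Finset.mem_filter.mpr ⟨hi, hi'⟩⟩
      obtain ⟨i, hi, hmin⟩ := Finset.exists_min_image _ rk hne
      rw [Finset.mem_biUnion]
      refine ⟨i, (Finset.mem_filter.mp hi).1, ?_⟩
      refine Finset.mem_filter.mpr ⟨hEz2 i (Finset.mem_filter.mp hi).1 e he ?_,
        (Finset.mem_filter.mp hi).2⟩
      intro i' hi' hlt
      by_contra hcon
      have := hmin i' (Finset.mem_filter.mpr ⟨hi', hcon⟩)
      omega
  have h1 : E.card ≤ E'.card + ∑ i ∈ H, (sens (Ez i) (h i)).card :=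
    (Finset.card_le_card hsub).trans ((Finset.card_union_le _ _).trans
      (Nat.add_le_add_left Finset.card_biUnion_le _))
  have h2 : ((∑ i ∈ H, (sens (Ez i) (h i)).card : ℕ) : ℝ) ≤
      (∑ i ∈ H, Real.sqrt (c i)) * X.card := by
    push_cast
    rw [Finset.sum_mul]
    apply Finset.sum_le_sum
    intro i hi
    have hEz : ∀ e ∈ Ez i, e.1 ∈ X ∧ e.2 ∈ X := fun e he => hE e (hEz1 i hi he)
    have h3 := card_sens_sq hEz (hc i hi) (hSB i hi)
    have h4 : (0 : ℝ) ≤ Real.sqrt (c i) * X.card := by positivity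
    refine le_trans (le_abs_self _) (abs_le_of_sq_le_sq ?_ h4)
    rw [mul_pow, Real.sq_sqrt (hc i hi)]
    exact h3
  have h3 : (E.card : ℝ) ≤ E'.card + ((∑ i ∈ H, (sens (Ez i) (h i)).card : ℕ) : ℝ) := by
    exact_mod_cast h1
  linarith

theorem Matching.mono {P : Type} [DecidableEq P] {E E' : Finset (P × P)} {h : P → Bool}
    (hM : Matching E h) (hsub : E' ⊆ E) : Matching E' h :=
  ⟨fun e he e' he' => hM.1 e (hsub he) e' (hsub he'),
    fun e he e' he' => hM.2 e (hsub he) e' (hsub he')⟩

theorem matching_of_insens {P : Type} [DecidableEq P] {E : Finset (P × P)} {h : P → Bool}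
    (hI : ∀ e ∈ E, h e.1 = h e.2) : Matching E h :=
  ⟨fun e he _ _ h1 => absurd (hI e he) h1, fun e he _ _ h1 => absurd (hI e he) h1⟩

theorem numeric_final {κ : Type} (H : Finset κ) (c : κ → ℝ) (hc : ∀ i ∈ H, 0 ≤ c i) (o M K e : ℝ)
    (ho : 0 ≤ o) (he0 : 0 ≤ e) (he : e ≤ (∑ i ∈ H, Real.sqrt (c i)) + Real.sqrt o)
    (hM : (H.card : ℝ) ≤ M) (hK : (∑ i ∈ H, c i) + o ≤ K) : e ^ 2 ≤ (M + 1) * K := by
  have h1 : (∑ i ∈ H, Real.sqrt (c i)) ^ 2 ≤ H.card * ∑ i ∈ H, c i := by
    refine (sq_sum_le_card_mul_sum_sq (s := H) (f := fun i => Real.sqrt (c i))).trans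
      (le_of_eq ?_)
    congr 1
    apply Finset.sum_congr rfl
    intro i hi
    exact Real.sq_sqrt (hc i hi)
  have hσ0 : 0 ≤ ∑ i ∈ H, Real.sqrt (c i) := Finset.sum_nonneg (fun i _ => Real.sqrt_nonneg _)
  have hC0 : 0 ≤ ∑ i ∈ H, c i := Finset.sum_nonneg hc
  have ho2 : Real.sqrt o ^ 2 = o := Real.sq_sqrt ho
  have ho1 : 0 ≤ Real.sqrt o := Real.sqrt_nonneg _
  have hH0 : (0 : ℝ) ≤ H.card := Nat.cast_nonneg _
  generalize (∑ i ∈ H, Real.sqrt (c i)) = σ at *
  generalize (∑ i ∈ H, c i) = T at *
  generalize Real.sqrt o = q at *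
  generalize (H.card : ℝ) = m at *
  -- (σ + q)^2 ≤ (m + 1) (T + q^2)
  have h2 : (σ + q) ^ 2 ≤ (m + 1) * (T + q ^ 2) := by
    have h3 : 2 * σ * q ≤ T + m * q ^ 2 := by
      refine le_trans (le_abs_self _) (abs_le_of_sq_le_sq ?_ (by positivity))
      have h4 : σ ^ 2 * q ^ 2 ≤ m * T * q ^ 2 := mul_le_mul_of_nonneg_right h1 (by positivity)
      nlinarith [sq_nonneg (T - m * q ^ 2)]
    nlinarith
  have h5 : e ^ 2 ≤ (σ + q) ^ 2 := by
    apply pow_le_pow_left₀ he0 he
  have h6 : (m + 1) * (T + q ^ 2) ≤ (M + 1) * K := by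
    apply mul_le_mul (by linarith) (by rw [ho2]; exact hK) (by positivity) (by linarith)
  linarith

theorem numeric_step (t : ℕ) (e e' e'' σ M S : ℝ) (hS : 0 ≤ S) (hM : 0 ≤ M) (he0 : 0 ≤ e)
    (heS : e ≤ S) (hσ0 : 0 ≤ σ) (hσ : σ ^ 2 ≤ M * (2 * S)) (he' : e ≤ e' + σ)
    (he''0 : 0 ≤ e'') (hthin : e' ^ 2 ≤ e'' * (e' + 4 * S))
    (ih : e'' ^ (2 ^ (t + 1)) ≤ (M + 1) * (18 * S) ^ (2 ^ (t + 1) - 1)) :
    e ^ (2 ^ (t + 2)) ≤ (M + 1) * (18 * S) ^ (2 ^ (t + 2) - 1) := by
  have hpow : 2 ^ (t + 2) = 2 + (2 ^ (t + 2) - 2) := by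
    have : 2 ≤ 2 ^ (t + 2) := by
      calc 2 = 2 ^ 1 := rfl
        _ ≤ 2 ^ (t + 2) := Nat.pow_le_pow_right (by norm_num) (by omega)
    omega
  have hpow2 : 2 ^ (t + 2) - 1 = 1 + (2 ^ (t + 2) - 2) := by
    have : 2 ≤ 2 ^ (t + 2) := by
      calc 2 = 2 ^ 1 := rfl
        _ ≤ 2 ^ (t + 2) := Nat.pow_le_pow_right (by norm_num) (by omega)
    omega
  by_cases hcase : e ≤ 2 * σ
  · have h1 : e ^ 2 ≤ 8 * (M * S) := by nlinarith
    have h2 : e ^ (2 ^ (t + 2) - 2) ≤ (18 * S) ^ (2 ^ (t + 2) - 2) :=
      pow_le_pow_left₀ he0 (by linarith) _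
    rw [hpow2]
    calc e ^ (2 ^ (t + 2)) = e ^ 2 * e ^ (2 ^ (t + 2) - 2) := by
          rw [← pow_add, ← hpow]
      _ ≤ (8 * (M * S)) * (18 * S) ^ (2 ^ (t + 2) - 2) := by
          apply mul_le_mul h1 h2 (by positivity) (by positivity)
      _ ≤ ((M + 1) * (18 * S)) * (18 * S) ^ (2 ^ (t + 2) - 2) := by
          apply mul_le_mul_of_nonneg_right _ (by positivity)
          nlinarith
      _ = (M + 1) * (18 * S) ^ (1 + (2 ^ (t + 2) - 2)) := by
          rw [pow_add (18 * S) 1, pow_one]; ring
  · push Not at hcase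
    have he'2 : e / 2 ≤ e' := by linarith
    have he'0 : 0 ≤ e' := by linarith
    have hkey : e ^ 2 ≤ 18 * S * e'' := by
      rcases hS.eq_or_lt with hS0 | hSpos
      · have : e = 0 := by linarith
        rw [this, ← hS0]; simp
      · -- e'' (e' + 4S) ≥ e'^2
        have hepos : 0 < e := by linarith
        have he'pos : 0 < e' := by linarith
        have h1 : e ^ 2 / 4 * (e' + 4 * S) ≤ e' ^ 2 * (e / 2 + 4 * S) := by
          have a1 : e ^ 2 / 4 ≤ e' ^ 2 := by nlinarith
          have a2 : e ^ 2 / 4 * e' ≤ e' ^ 2 * (e / 2) := by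
            have : e ^ 2 / 4 ≤ e' * (e / 2) := by nlinarith
            nlinarith
          nlinarith
        have h2 : e' ^ 2 * (e / 2 + 4 * S) ≤ e'' * (e' + 4 * S) * (e / 2 + 4 * S) :=
          mul_le_mul_of_nonneg_right hthin (by positivity)
        have h3 : (e' + 4 * S) * (e ^ 2 / 4) ≤ (e' + 4 * S) * (e'' * (e / 2 + 4 * S)) := by
          nlinarith
        have h4 : e ^ 2 / 4 ≤ e'' * (e / 2 + 4 * S) := le_of_mul_le_mul_left h3 (by positivity)
        have h5 : e'' * (e / 2 + 4 * S) ≤ e'' * (9 / 2 * S) := by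
          apply mul_le_mul_of_nonneg_left _ he''0
          linarith
        nlinarith
    have hp : 2 ^ (t + 2) = 2 * 2 ^ (t + 1) := by rw [pow_succ]; ring
    have hp1 : 1 ≤ 2 ^ (t + 1) := Nat.one_le_two_pow
    have hp2 : 2 ^ (t + 2) - 1 = 2 ^ (t + 1) + (2 ^ (t + 1) - 1) := by omega
    calc e ^ (2 ^ (t + 2)) = (e ^ 2) ^ (2 ^ (t + 1)) := by rw [← pow_mul, hp]
      _ ≤ (18 * S * e'') ^ (2 ^ (t + 1)) := pow_le_pow_left₀ (by positivity) hkey _
      _ = (18 * S) ^ (2 ^ (t + 1)) * e'' ^ (2 ^ (t + 1)) := mul_pow _ _ _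
      _ ≤ (18 * S) ^ (2 ^ (t + 1)) * ((M + 1) * (18 * S) ^ (2 ^ (t + 1) - 1)) :=
          mul_le_mul_of_nonneg_left ih (by positivity)
      _ = (M + 1) * (18 * S) ^ (2 ^ (t + 2) - 1) := by
          rw [hp2, pow_add]; ring

section main

variable {n s : ℕ}

/-- The cut gates: the reused gates, the exceptional gates and the output gate. -/
def cutG (C : Circuit n s) (Z : Finset (Fin s)) : Finset (Fin s) :=
  Finset.univ.filter (fun g => g ∈ C.reused ∨ g ∈ Z ∨ C.out = Sum.inr g)

theorem main_rec (C : Circuit n s) (val : (Fin n → Bool) → Fin n ⊕ Fin s → Bool)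
    (hval : ∀ x g, val x (Sum.inr g) = (C.op g).eval (val x))
    (rank lev : Fin n ⊕ Fin s → ℕ)
    (hrank : ∀ g, ∀ u ∈ (C.op g).preds, rank u < rank (Sum.inr g))
    (hlev : ∀ g, ∀ u ∈ (C.op g).preds, lev u ≤ lev (Sum.inr g))
    (Z loc : Finset (Fin s)) (Q : ℝ) (hQ : 1 ≤ Q)
    (hreg : ∀ g, ∀ h ∈ C.reused, h ∉ Z → h ∉ loc → Sum.inr h ∈ (C.op g).preds →
      lev (Sum.inr h) + 1 ≤ lev (Sum.inr g))
    (X : Finset (Fin n → Bool)) (hX : X.Nonempty)
    (E₀ : Finset ((Fin n → Bool) × (Fin n → Bool)))
    (hloc : ∀ h ∈ loc, ∀ E ⊆ E₀, SB X E (fun x => val x (Sum.inr h)) Q)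
    (S : ℝ) (hS : S = Q * ((n : ℝ) + s)) :
    ∀ (t j : ℕ) (E : Finset ((Fin n → Bool) × (Fin n → Bool))), E ⊆ E₀ → lev C.out = j + t →
      (∀ e ∈ E, e.1 ∈ X ∧ e.2 ∈ X) → (∀ e ∈ E, val e.1 C.out ≠ val e.2 C.out) →
      (∀ i : Fin n, Matching E (fun x => val x (Sum.inl i))) →
      (∀ h ∈ cutG C Z, h ∉ loc → rank (Sum.inr h) < rank C.out → lev (Sum.inr h) < j →
        Matching E (fun x => val x (Sum.inr h))) →
      (E.card : ℝ) ≤ S * X.card →
      ((E.card : ℝ) / X.card) ^ (2 ^ (t + 1)) ≤
        ((Z.card : ℝ) + 1) * (18 * S) ^ (2 ^ (t + 1) - 1) := by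
  classical
  obtain ⟨c, hc⟩ := exists_cost C.op rank hrank (cutG C Z)
  have hcut : ∀ g, g ∉ cutG C Z → C.outdeg (Sum.inr g) ≤ 1 := by
    intro g hg
    by_contra hcon
    apply hg
    simp only [cutG, Finset.mem_filter, Finset.mem_univ, true_and]
    left
    simp only [Circuit.reused, Finset.mem_filter, Finset.mem_univ, true_and]
    omega
  have hsum := sum_cost_le C (cutG C Z) hcut c hc
  have hQ0 : 0 ≤ Q := by linarith
  set reg : Finset (Fin s) := (C.reused \ Z) \ loc with hregdef
  have hreg' : ∀ g, ∀ h ∈ reg, Sum.inr h ∈ (C.op g).preds →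
      lev (Sum.inr h) + 1 ≤ lev (Sum.inr g) := by
    intro g h hh hp
    rw [hregdef, Finset.mem_sdiff, Finset.mem_sdiff] at hh
    exact hreg g h hh.1.1 hh.1.2 hh.2 hp
  have hXpos : (0 : ℝ) < X.card := by
    exact_mod_cast Finset.card_pos.mpr hX
  have hS0 : 0 ≤ S := by rw [hS]; positivity
  have hsumR : ∀ H : Finset (Fin s), H ⊆ cutG C Z →
      ∑ g ∈ H, (Q * (c (Sum.inr g) : ℝ)) ≤ Q * (2 * s) := by
    intro H hH
    have h1 : ∑ g ∈ H, c (Sum.inr g) ≤ 2 * s :=
      (Finset.sum_le_sum_of_subset hH).trans hsum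
    rw [← Finset.mul_sum]
    apply mul_le_mul_of_nonneg_left _ hQ0
    exact_mod_cast h1
  have hQsS : Q * (2 * (s : ℝ)) ≤ 2 * S := by
    rw [hS]
    have : (0 : ℝ) ≤ Q * n := by positivity
    linarith
  -- the basic facts about one level
  have level : ∀ (j : ℕ) (E : Finset ((Fin n → Bool) × (Fin n → Bool))), E ⊆ E₀ →
      (∀ e ∈ E, e.1 ∈ X ∧ e.2 ∈ X) →
      (∀ i : Fin n, Matching E (fun x => val x (Sum.inl i))) →
      (∀ h ∈ cutG C Z, h ∉ loc → rank (Sum.inr h) < rank C.out → lev (Sum.inr h) < j →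
        Matching E (fun x => val x (Sum.inr h))) →
      ∃ E' ⊆ E, ∃ H ⊆ Z, (∀ h ∈ H, Sum.inr h ≠ C.out) ∧
        (E.card : ℝ) ≤ E'.card + (∑ z ∈ H, Real.sqrt (Q * c (Sum.inr z))) * X.card ∧
        (∀ h ∈ Z, rank (Sum.inr h) < rank C.out → lev (Sum.inr h) = j →
          Matching E' (fun x => val x (Sum.inr h))) ∧
        (∀ g : Fin s, rank (Sum.inr g) ≤ rank C.out → lev (Sum.inr g) ≤ j →
          SB X E' (fun x => val x (Sum.inr g)) (Q * c (Sum.inr g))) := by
    intro j E hEE₀ hE hin hinv
    set H := Z.filter (fun z => lev (Sum.inr z) = j ∧ rank (Sum.inr z) < rank C.out) with hH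
    have ready : ∀ (E1 : Finset ((Fin n → Bool) × (Fin n → Bool))) (r : ℕ), E1 ⊆ E →
        r ≤ rank C.out →
        (∀ z ∈ H, rank (Sum.inr z) < r → ∀ e ∈ E1, val e.1 (Sum.inr z) = val e.2 (Sum.inr z)) →
        ∀ u, leafV (cutG C Z) u = true → rank u < r → lev u ≤ j →
          (∀ h ∈ reg, u = Sum.inr h → lev u < j) → SB X E1 (fun x => val x u) Q := by
      intro E1 r hE1 hr hins u hleaf hur huj hureg
      have hE1X : ∀ e ∈ E1, e.1 ∈ X ∧ e.2 ∈ X := fun e he => hE e (hE1 he)
      rcases u with i | h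
      · exact SB_mono hQ (SB_of_matching hE1X ((hin i).mono hE1))
      · have hhcut : h ∈ cutG C Z := by simpa [leafV] using hleaf
        by_cases hhloc : h ∈ loc
        · exact hloc h hhloc E1 (hE1.trans hEE₀)
        apply SB_mono hQ
        apply SB_of_matching hE1X
        rcases huj.lt_or_eq with hlt | heq
        · exact (hinv h hhcut hhloc (by omega) hlt).mono hE1
        · have hnreg : h ∉ reg := by
            intro hh
            have := hureg h hh rfl
            omega
          have hhZ : h ∈ Z := by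
            simp only [cutG, Finset.mem_filter, Finset.mem_univ, true_and] at hhcut
            rcases hhcut with h1 | h1 | h1
            · by_contra hZ
              exact hnreg (by
                rw [hregdef]
                exact Finset.mem_sdiff.mpr ⟨Finset.mem_sdiff.mpr ⟨h1, hZ⟩, hhloc⟩)
            · exact h1
            · rw [h1] at hr
              omega
          apply matching_of_insens
          exact hins h (Finset.mem_filter.mpr ⟨hhZ, heq, by omega⟩) hur
    refine ⟨E.filter (fun e => ∀ z ∈ H, val e.1 (Sum.inr z) = val e.2 (Sum.inr z)),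
      Finset.filter_subset _ _, H, Finset.filter_subset _ _, ?_, ?_, ?_, ?_⟩
    · intro h hh heq
      have := (Finset.mem_filter.mp hh).2.2
      rw [heq] at this
      omega
    · apply removal hE H (fun z x => val x (Sum.inr z)) (fun z => rank (Sum.inr z))
        (fun z => (Q * c (Sum.inr z) : ℝ)) (fun _ _ => by positivity) _
        (fun e he h => Finset.mem_filter.mpr ⟨he, h⟩)
        (fun z => E.filter (fun e => ∀ i' ∈ H, rank (Sum.inr i') < rank (Sum.inr z) →
          val e.1 (Sum.inr i') = val e.2 (Sum.inr i')))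
        (fun _ _ => Finset.filter_subset _ _)
        (fun _ _ e he h => Finset.mem_filter.mpr ⟨he, h⟩)
      intro z hz
      have hz' := (Finset.mem_filter.mp hz).2
      apply tree_SB C val rank lev (cutG C Z) reg c hval hrank hlev hreg' hc
        Q hQ0 j (rank (Sum.inr z))
        (ready _ _ (Finset.filter_subset _ _) (by omega) _) (rank (Sum.inr z)) z rfl le_rfl
        (by omega)
      intro z' hz' hlt e he
      exact (Finset.mem_filter.mp he).2 z' hz' hlt
    · intro h hh hr hl
      apply matching_of_insens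
      intro e he
      exact (Finset.mem_filter.mp he).2 h (Finset.mem_filter.mpr ⟨hh, hl, hr⟩)
    · intro g hg1 hg2
      apply tree_SB C val rank lev (cutG C Z) reg c hval hrank hlev hreg' hc
        Q hQ0 j (rank C.out)
        (ready _ _ (Finset.filter_subset _ _) le_rfl _) (rank (Sum.inr g)) g rfl hg1 hg2
      intro z' hz' _ e he
      exact (Finset.mem_filter.mp he).2 z' hz'
  intro t
  induction t with
  | zero =>
    intro j E hEE₀ hjt hE hsens hin hinv hES
    obtain ⟨E', hE'E, H, hHZ, hHout, hcard, _, hSB⟩ := level j E hEE₀ hE hin hinv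
    have hE' : ∀ e ∈ E', e.1 ∈ X ∧ e.2 ∈ X := fun e he => hE e (hE'E he)
    obtain ⟨o, ho, hSBo, hoK⟩ : ∃ o : ℝ, 0 ≤ o ∧ SB X E' (fun x => val x C.out) o ∧
        (∑ z ∈ H, (Q * (c (Sum.inr z) : ℝ))) + o ≤ 2 * S := by
      rcases hout : C.out with i | g
      · refine ⟨1, zero_le_one, ?_, ?_⟩
        · exact SB_of_matching hE' ((hin i).mono hE'E)
        · have h1 := hsumR H (fun z hz => by
            simp only [cutG, Finset.mem_filter, Finset.mem_univ, true_and]
            exact Or.inr (Or.inl (hHZ hz)))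
          have hn : (1 : ℝ) ≤ n := by
            have : 0 < n := i.pos
            exact_mod_cast this
          have h2 : 1 ≤ Q * n := by nlinarith
          have h3 : 2 * S = Q * (2 * s) + 2 * (Q * n) := by rw [hS]; ring
          linarith
      · refine ⟨Q * c (Sum.inr g), by positivity, ?_, ?_⟩
        · apply hSB g
          · rw [hout]
          · rw [← hout, hjt]; simp
        · have hgH : g ∉ H := by
            intro hg
            exact hHout g hg hout.symm
          have h1 := hsumR (insert g H) (by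
            intro z hz
            simp only [cutG, Finset.mem_filter, Finset.mem_univ, true_and]
            rcases Finset.mem_insert.mp hz with rfl | hz
            · exact Or.inr (Or.inr hout)
            · exact Or.inr (Or.inl (hHZ hz)))
          rw [Finset.sum_insert hgH] at h1
          linarith
    have hall : sens E' (fun x => val x C.out) = E' := by
      apply Finset.filter_true_of_mem
      intro e he
      exact hsens e (hE'E he)
    have h2 := card_sens_sq hE' ho hSBo
    rw [hall] at h2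
    have h3 : (E'.card : ℝ) ≤ Real.sqrt o * X.card := by
      refine le_trans (le_abs_self _) (abs_le_of_sq_le_sq ?_ (by positivity))
      rw [mul_pow, Real.sq_sqrt ho]
      exact h2
    have h4 : (E.card : ℝ) / X.card ≤
        (∑ z ∈ H, Real.sqrt (Q * c (Sum.inr z))) + Real.sqrt o := by
      rw [div_le_iff₀ hXpos, add_mul]
      linarith
    have h5 := numeric_final H (fun z => (Q * c (Sum.inr z) : ℝ)) (fun _ _ => by positivity) o
      (Z.card : ℝ) (2 * S) ((E.card : ℝ) / X.card) ho (by positivity) h4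
      (by exact_mod_cast Finset.card_le_card hHZ) hoK
    have h6 : 2 ^ (0 + 1) = 2 := rfl
    rw [h6]
    calc ((E.card : ℝ) / X.card) ^ 2 ≤ ((Z.card : ℝ) + 1) * (2 * S) := h5
      _ ≤ ((Z.card : ℝ) + 1) * (18 * S) ^ (2 - 1) := by
          apply mul_le_mul_of_nonneg_left _ (by positivity)
          norm_num
          linarith
  | succ t ih =>
    intro j E hEE₀ hjt hE hsens hin hinv hES
    obtain ⟨E', hE'E, H, hHZ, hHout, hcard, hZj, hSB⟩ := level j E hEE₀ hE hin hinv
    have hE' : ∀ e ∈ E', e.1 ∈ X ∧ e.2 ∈ X := fun e he => hE e (hE'E he)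
    set R := reg.filter (fun g => rank (Sum.inr g) < rank C.out ∧ lev (Sum.inr g) = j) with hR
    obtain ⟨E'', hE''E', hmatch, hthin⟩ := exists_thinning hE' R
      (fun g x => val x (Sum.inr g)) (fun g => (Q * c (Sum.inr g) : ℝ))
      (fun _ _ => by positivity)
      (by
        intro g hg
        obtain ⟨_, h1, h2⟩ := Finset.mem_filter.mp hg
        exact hSB g (le_of_lt h1) (le_of_eq h2))
    have hE''card : (E''.card : ℝ) ≤ S * X.card := by
      refine le_trans ?_ hES
      exact_mod_cast Finset.card_le_card (hE''E'.trans hE'E)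
    have hIH := ih (j + 1) E'' ((hE''E'.trans hE'E).trans hEE₀) (by omega)
      (fun e he => hE' e (hE''E' he))
      (fun e he => hsens e (hE'E (hE''E' he))) (fun i => (hin i).mono (hE''E'.trans hE'E))
      (by
        intro h hh hhloc hr hl
        rcases (Nat.lt_succ_iff.mp hl).lt_or_eq with hlt | heq
        · exact (hinv h hh hhloc hr hlt).mono (hE''E'.trans hE'E)
        · by_cases hhreg : h ∈ reg
          · exact hmatch h (Finset.mem_filter.mpr ⟨hhreg, hr, heq⟩)
          · have hhZ : h ∈ Z := by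
              simp only [cutG, Finset.mem_filter, Finset.mem_univ, true_and] at hh
              rcases hh with h1 | h1 | h1
              · by_contra hZ
                exact hhreg (by
                  rw [hregdef]
                  exact Finset.mem_sdiff.mpr ⟨Finset.mem_sdiff.mpr ⟨h1, hZ⟩, hhloc⟩)
              · exact h1
              · rw [h1] at hr
                omega
            exact (hZj h hhZ hr heq).mono hE''E')
      hE''card
    set σ : ℝ := ∑ z ∈ H, Real.sqrt (Q * c (Sum.inr z)) with hσ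
    have hσ0 : 0 ≤ σ := Finset.sum_nonneg (fun _ _ => Real.sqrt_nonneg _)
    have hσ2 : σ ^ 2 ≤ (Z.card : ℝ) * (2 * S) := by
      have h1 : σ ^ 2 ≤ H.card * ∑ i ∈ H, (Q * c (Sum.inr i) : ℝ) := by
        refine (sq_sum_le_card_mul_sum_sq (s := H)
          (f := fun i => Real.sqrt (Q * c (Sum.inr i)))).trans (le_of_eq ?_)
        congr 1
        apply Finset.sum_congr rfl
        intro i _
        exact Real.sq_sqrt (by positivity)
      refine h1.trans ?_
      apply mul_le_mul
      · exact_mod_cast Finset.card_le_card hHZ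
      · have h1 := hsumR H (fun z hz => by
            simp only [cutG, Finset.mem_filter, Finset.mem_univ, true_and]
            exact Or.inr (Or.inl (hHZ hz)))
        linarith
      · exact Finset.sum_nonneg (fun _ _ => by positivity)
      · positivity
    apply numeric_step t ((E.card : ℝ) / X.card) ((E'.card : ℝ) / X.card)
      ((E''.card : ℝ) / X.card) σ (Z.card : ℝ) S hS0 (by positivity) (by positivity)
      (by rw [div_le_iff₀ hXpos]; exact hES) hσ0 hσ2
    · rw [div_le_iff₀ hXpos, add_mul, div_mul_cancel₀ _ hXpos.ne']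
      exact hcard
    · positivity
    · have hRc : ∑ g ∈ R, (Q * c (Sum.inr g) : ℝ) ≤ Q * (2 * s) := by
        apply hsumR
        intro g hg
        simp only [cutG, Finset.mem_filter, Finset.mem_univ, true_and]
        left
        have := (Finset.mem_filter.mp hg).1
        rw [hregdef, Finset.mem_sdiff, Finset.mem_sdiff] at this
        exact this.1.1
      have h1 : (E'.card : ℝ) ^ 2 ≤ E''.card * (E'.card + 4 * S * X.card) := by
        refine hthin.trans ?_
        apply mul_le_mul_of_nonneg_left _ (by positivity)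
        have h2 : 2 * (∑ g ∈ R, (Q * c (Sum.inr g) : ℝ)) * X.card ≤ 4 * S * X.card := by
          apply mul_le_mul_of_nonneg_right _ hXpos.le
          linarith
        linarith
      rw [div_pow, div_le_iff₀ (by positivity)]
      have h2 : (E''.card : ℝ) / X.card * ((E'.card : ℝ) / X.card + 4 * S) * (X.card : ℝ) ^ 2 =
          E''.card * (E'.card + 4 * S * X.card) := by
        field_simp
      rw [h2]
      exact h1
    · exact hIH

theorem flipBit_ne_iff (x : Fin n → Bool) (i j : Fin n) : x j ≠ flipBit x i j ↔ j = i := by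
  unfold flipBit
  by_cases h : j = i
  · subst h; simp
  · simp [h]

theorem flipBit_injective (x : Fin n → Bool) : Function.Injective (flipBit x) := by
  intro i j hij
  by_contra hne
  have h1 : x i ≠ flipBit x i i := (flipBit_ne_iff x i i).mpr rfl
  rw [hij] at h1
  exact hne ((flipBit_ne_iff x j i).mp h1)

theorem flipBit_flipBit (x : Fin n → Bool) (i : Fin n) : flipBit (flipBit x i) i = x := by
  unfold flipBit
  simp

/-- The main theorem. -/
theorem reuse_bound (C : Circuit n s) (f : (Fin n → Bool) → Bool) (hf : C.Computes f)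
    (Z : Finset (Fin s)) (q k : ℕ) (hq : 1 ≤ q) (hk : C.ReuseDepthLE Z q k)
    (X : Finset (Fin n → Bool)) (hX : X.Nonempty) (d : ℝ) (hd0 : 0 ≤ d)
    (hd : d * X.card ≤ (sensPairs f X : ℝ)) :
    d ^ (2 ^ (k + 1)) ≤
      ((Z.card : ℝ) + 1) * (18 * ((q : ℝ) ^ 2 * ((n : ℝ) + s))) ^ (2 ^ (k + 1) - 1) := by
  classical
  unfold sensPairs at hd
  choose val hval using hf
  obtain ⟨rank, hrank⟩ := C.acyclic
  obtain ⟨lev, hlev, hreg, hout⟩ := hk
  set E : Finset ((Fin n → Bool) × (Fin n → Bool)) :=
    X.biUnion (fun x => (Finset.univ.filter (fun i : Fin n =>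
      flipBit x i ∈ X ∧ f (flipBit x i) ≠ f x)).image (fun i => (x, flipBit x i))) with hE
  have hmem : ∀ e ∈ E, ∃ x ∈ X, ∃ i : Fin n, flipBit x i ∈ X ∧ f (flipBit x i) ≠ f x ∧
      e = (x, flipBit x i) := by
    intro e he
    rw [hE, Finset.mem_biUnion] at he
    obtain ⟨x, hx, he⟩ := he
    rw [Finset.mem_image] at he
    obtain ⟨i, hi, rfl⟩ := he
    have := (Finset.mem_filter.mp hi).2
    exact ⟨x, hx, i, this.1, this.2, rfl⟩
  have hcard : E.card = ∑ x ∈ X, (Finset.univ.filter (fun i : Fin n =>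
      flipBit x i ∈ X ∧ f (flipBit x i) ≠ f x)).card := by
    rw [hE, Finset.card_biUnion]
    · apply Finset.sum_congr rfl
      intro x _
      apply Finset.card_image_of_injective
      intro i j hij
      exact flipBit_injective x (Prod.ext_iff.mp hij).2
    · intro x _ y _ hxy
      rw [Function.onFun, Finset.disjoint_left]
      intro e he he'
      rw [Finset.mem_image] at he he'
      obtain ⟨i, _, rfl⟩ := he
      obtain ⟨j, _, h2⟩ := he'
      exact hxy (Prod.ext_iff.mp h2).1.symm
  have hXpos : (0 : ℝ) < X.card := by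
    exact_mod_cast Finset.card_pos.mpr hX
  have hq1 : (1 : ℝ) ≤ q := by exact_mod_cast hq
  have hQ1 : (1 : ℝ) ≤ (q : ℝ) ^ 2 := by nlinarith
  have hnS : (n : ℝ) ≤ (q : ℝ) ^ 2 * ((n : ℝ) + s) := by
    have h1 : (0 : ℝ) ≤ n := Nat.cast_nonneg _
    have h2 : (0 : ℝ) ≤ s := Nat.cast_nonneg _
    nlinarith
  have hcardle : (E.card : ℝ) ≤ ((q : ℝ) ^ 2 * ((n : ℝ) + s)) * X.card := by
    have h1 : E.card ≤ ∑ _x ∈ X, n := by
      rw [hcard]
      apply Finset.sum_le_sum
      intro x _
      refine (Finset.card_filter_le _ _).trans ?_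
      simp
    rw [Finset.sum_const, smul_eq_mul] at h1
    have h2 : (E.card : ℝ) ≤ X.card * n := by exact_mod_cast h1
    nlinarith
  have hEX : ∀ e ∈ E, e.1 ∈ X ∧ e.2 ∈ X := by
    intro e he
    obtain ⟨x, hx, i, h1, _, rfl⟩ := hmem e he
    exact ⟨hx, h1⟩
  -- local gates
  have hlocal : ∀ h : Fin s, (C.dependsOn h).card ≤ q → ∀ E' ⊆ E,
      SB X E' (fun x => val x (Sum.inr h)) ((q : ℝ) ^ 2) := by
    intro h hh E' hE'
    have hdep : ∀ x i, val x (Sum.inr h) ≠ val (flipBit x i) (Sum.inr h) →
        i ∈ C.dependsOn h := by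
      intro x i hne
      unfold Circuit.dependsOn
      rw [Finset.mem_filter]
      exact ⟨Finset.mem_univ _, x, val x, val (flipBit x i), (hval x).1, (hval x).2.1,
        (hval (flipBit x i)).1, (hval (flipBit x i)).2.1, hne⟩
    apply SB_of_degree q (fun e he => hEX e (hE' he))
    · intro x
      unfold dL
      refine le_trans ?_ hh
      have hsub : (sens E' (fun x => val x (Sum.inr h))).filter (fun e => e.1 = x) ⊆
          (C.dependsOn h).image (fun i => (x, flipBit x i)) := by
        intro e he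
        obtain ⟨he1, he2⟩ := Finset.mem_filter.mp he
        obtain ⟨he3, he4⟩ := Finset.mem_filter.mp he1
        obtain ⟨y, _, i, _, _, rfl⟩ := hmem e (hE' he3)
        simp only at he2
        subst he2
        rw [Finset.mem_image]
        exact ⟨i, hdep y i he4, rfl⟩
      exact (Finset.card_le_card hsub).trans Finset.card_image_le
    · intro x
      unfold dR
      refine le_trans ?_ hh
      have hsub : (sens E' (fun x => val x (Sum.inr h))).filter (fun e => e.2 = x) ⊆
          (C.dependsOn h).image (fun i => (flipBit x i, x)) := by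
        intro e he
        obtain ⟨he1, he2⟩ := Finset.mem_filter.mp he
        obtain ⟨he3, he4⟩ := Finset.mem_filter.mp he1
        obtain ⟨y, _, i, _, _, rfl⟩ := hmem e (hE' he3)
        simp only at he2 he4
        rw [Finset.mem_image]
        refine ⟨i, hdep y i he4, ?_⟩
        rw [← he2, flipBit_flipBit]
      exact (Finset.card_le_card hsub).trans Finset.card_image_le
  have hfin := main_rec C val (fun x => (hval x).2.1) rank lev hrank hlev Z
    (Finset.univ.filter (fun h => (C.dependsOn h).card ≤ q)) ((q : ℝ) ^ 2) hQ1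
    (by
      intro g h hh hhZ hhl hp
      apply hreg g h hh hhZ _ hp
      by_contra hcon
      exact hhl (Finset.mem_filter.mpr ⟨Finset.mem_univ _, by omega⟩))
    X hX E (fun h hh E' hE' => hlocal h (Finset.mem_filter.mp hh).2 E' hE')
    ((q : ℝ) ^ 2 * ((n : ℝ) + s)) rfl (lev C.out) 0 E (Finset.Subset.refl _) (by omega) hEX
    (by
      intro e he
      obtain ⟨x, hx, i, h1, h2, rfl⟩ := hmem e he
      simp only
      rw [(hval x).2.2, (hval (flipBit x i)).2.2]
      exact h2.symm)
    (by
      intro i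
      constructor
      · intro e he e' he' h1 h2 h3
        obtain ⟨x, hx, a, _, _, rfl⟩ := hmem e he
        obtain ⟨y, hy, b, _, _, rfl⟩ := hmem e' he'
        simp only at h1 h2 h3
        rw [(hval x).1, (hval (flipBit x a)).1] at h1
        rw [(hval y).1, (hval (flipBit y b)).1] at h2
        have ha := (flipBit_ne_iff x a i).mp h1
        have hb := (flipBit_ne_iff y b i).mp h2
        rw [← ha, ← hb, h3]
      · intro e he e' he' h1 h2 h3
        obtain ⟨x, hx, a, _, _, rfl⟩ := hmem e he
        obtain ⟨y, hy, b, _, _, rfl⟩ := hmem e' he'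
        simp only at h1 h2 h3
        rw [(hval x).1, (hval (flipBit x a)).1] at h1
        rw [(hval y).1, (hval (flipBit y b)).1] at h2
        have ha := (flipBit_ne_iff x a i).mp h1
        have hb := (flipBit_ne_iff y b i).mp h2
        rw [← ha, ← hb] at h3
        have hxy : x = y := by
          rw [← flipBit_flipBit x i, h3, flipBit_flipBit]
        rw [← ha, ← hb, hxy])
    (by intro h _ _ _ hl; omega) hcardle
  -- from `lev C.out` to `k`
  set k' := lev C.out with hk'
  set e : ℝ := (E.card : ℝ) / X.card with he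
  set SS : ℝ := (q : ℝ) ^ 2 * ((n : ℝ) + s) with hSS
  have hSS0 : 0 ≤ SS := by positivity
  have hde : d ≤ e := by
    rw [he, le_div_iff₀ hXpos, hcard]
    exact hd
  have he0 : 0 ≤ e := by positivity
  have heS : e ≤ 18 * SS := by
    have h1 : e ≤ SS := by
      rw [he, div_le_iff₀ hXpos]; exact hcardle
    linarith
  have hpow : 2 ^ (k' + 1) ≤ 2 ^ (k + 1) := Nat.pow_le_pow_right (by norm_num) (by omega)
  have hone : 1 ≤ 2 ^ (k' + 1) := Nat.one_le_two_pow
  calc d ^ (2 ^ (k + 1)) ≤ e ^ (2 ^ (k + 1)) := pow_le_pow_left₀ hd0 hde _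
    _ = e ^ (2 ^ (k' + 1)) * e ^ (2 ^ (k + 1) - 2 ^ (k' + 1)) := by
        rw [← pow_add]; congr 1; omega
    _ ≤ (((Z.card : ℝ) + 1) * (18 * SS) ^ (2 ^ (k' + 1) - 1)) *
          (18 * SS) ^ (2 ^ (k + 1) - 2 ^ (k' + 1)) := by
        apply mul_le_mul hfin (pow_le_pow_left₀ he0 heS _) (by positivity) (by positivity)
    _ = ((Z.card : ℝ) + 1) * (18 * SS) ^ (2 ^ (k + 1) - 1) := by
        rw [mul_assoc, ← pow_add]; congr 2; omega

theorem parity_flipBit (x : Fin n → Bool) (i : Fin n) : parity (flipBit x i) ≠ parity x := by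
  classical
  have key : ∀ y : Fin n → Bool, y i = false → parity (flipBit y i) ≠ parity y := by
    intro y hy
    have h1 : Finset.univ.filter (fun j : Fin n => flipBit y i j = true) =
        insert i (Finset.univ.filter (fun j : Fin n => y j = true)) := by
      ext j
      simp only [Finset.mem_filter, Finset.mem_univ, true_and, Finset.mem_insert]
      by_cases hj : j = i
      · subst hj
        simp [flipBit, hy]
      · simp [flipBit, hj]
    have h2 : i ∉ Finset.univ.filter (fun j : Fin n => y j = true) := by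
      simp [hy]
    unfold parity
    rw [h1, Finset.card_insert_of_notMem h2]
    simp only [ne_eq, decide_eq_decide]
    rw [Nat.odd_add_one]
    tauto
  rcases hx : x i with _ | _
  · exact key x hx
  · have h3 := key (flipBit x i) (by simp [flipBit, hx])
    rw [flipBit_flipBit] at h3
    exact h3.symm

theorem sensPairs_parity : (sensPairs (parity (n := n)) Finset.univ) =
    n * (Finset.univ : Finset (Fin n → Bool)).card := by
  unfold sensPairs
  have : ∀ x ∈ (Finset.univ : Finset (Fin n → Bool)),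
      (Finset.univ.filter (fun i : Fin n => flipBit x i ∈ (Finset.univ : Finset (Fin n → Bool)) ∧
        parity (flipBit x i) ≠ parity x)).card = n := by
    intro x _
    rw [Finset.filter_true_of_mem]
    · simp
    · intro i _
      exact ⟨Finset.mem_univ _, parity_flipBit x i⟩
  rw [Finset.sum_congr rfl this, Finset.sum_const, smul_eq_mul, mul_comm]

end main

end Pool.Agent.Lib_MP_22d2c8_lc
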