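import Pool.Agent.Lib_MP_22d2c8_lc.Circuit
import Pool.Agent.Lib_MP_22d2c8_lc.Reuse

/-!
# Counting restricted functions in a circuit with reused gates
-/

namespace Pool.Agent.Lib_MP_22d2c8_lc

open Finset

theorem exists_wcost {n s : ℕ} (op : Fin s → Op (Fin n ⊕ Fin s)) (rank : Fin n ⊕ Fin s → ℕ)
    (hrank : ∀ g, ∀ u ∈ (op g).preds, rank u < rank (Sum.inr g)) (cut : Finset (Fin s))
    (w : Fin n ⊕ Fin s → ℕ) :
    ∃ c : Fin n ⊕ Fin s → ℕ, ∀ g, c (Sum.inr g) =
      ∑ u ∈ (op g).preds, if leafV cut u = true then w u else c u := by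
  classical
  let F : (v : Fin n ⊕ Fin s) → ((u : Fin n ⊕ Fin s) → rank u < rank v → ℕ) → ℕ :=
    fun v ih => match v, ih with
      | Sum.inl _, _ => 0
      | Sum.inr g, ih => ∑ u ∈ (op g).preds.attach,
          if leafV cut u.1 = true then w u.1 else ih u.1 (hrank g u.1 u.2)
  let c := WellFounded.fix (measure rank).wf F
  refine ⟨c, ?_⟩
  intro g
  have h1 : c (Sum.inr g) = ∑ u ∈ (op g).preds.attach,
      if leafV cut u.1 = true then w u.1 else c u.1 := by
    show WellFounded.fix (measure rank).wf F (Sum.inr g) = _
    rw [WellFounded.fix_eq]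
  rw [h1]
  exact Finset.sum_attach (op g).preds (fun u => if leafV cut u = true then w u else c u)

theorem sum_wcost_le {n s : ℕ} (C : Circuit n s) (cut : Finset (Fin s))
    (hcut : ∀ g, g ∉ cut → C.outdeg (Sum.inr g) ≤ 1) (w c : Fin n ⊕ Fin s → ℕ)
    (hc : ∀ g, c (Sum.inr g) =
      ∑ u ∈ (C.op g).preds, if leafV cut u = true then w u else c u) :
    ∑ g ∈ cut, c (Sum.inr g) ≤ ∑ u, C.outdeg u * (if leafV cut u = true then w u else 0) := by
  classical
  set F : Fin n ⊕ Fin s → ℕ := fun u => if leafV cut u = true then 0 else c u with hF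
  set W : Fin n ⊕ Fin s → ℕ := fun u => if leafV cut u = true then w u else 0 with hW
  have swap : ∀ K : Fin n ⊕ Fin s → ℕ, ∑ g, ∑ u ∈ (C.op g).preds, K u = ∑ u, C.outdeg u * K u := by
    intro K
    have : ∀ g : Fin s, ∑ u ∈ (C.op g).preds, K u =
        ∑ u, if u ∈ (C.op g).preds then K u else 0 := by
      intro g
      rw [← Finset.sum_filter]
      congr 1
      ext u
      simp
    rw [Finset.sum_congr rfl (fun g _ => this g), Finset.sum_comm]
    apply Finset.sum_congr rfl
    intro u _
    rw [← Finset.sum_filter, Finset.sum_const, smul_eq_mul]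
    rfl
  have h1 : ∑ g, c (Sum.inr g) = ∑ u, C.outdeg u * W u + ∑ u, C.outdeg u * F u := by
    rw [← swap W, ← swap F, ← Finset.sum_add_distrib]
    apply Finset.sum_congr rfl
    intro g _
    rw [hc g, ← Finset.sum_add_distrib]
    apply Finset.sum_congr rfl
    intro u _
    simp only [hF, hW]
    split_ifs <;> omega
  have h2 : ∑ u, C.outdeg u * F u ≤ ∑ g, F (Sum.inr g) := by
    rw [Fintype.sum_sum_type]
    have h4 : ∑ a : Fin n, C.outdeg (Sum.inl a) * F (Sum.inl a) = 0 := by
      apply Finset.sum_eq_zero
      intro a _
      simp [hF, leafV]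
    rw [h4, zero_add]
    apply Finset.sum_le_sum
    intro g _
    by_cases hg : g ∈ cut
    · simp [hF, leafV, hg]
    · have := hcut g hg
      calc C.outdeg (Sum.inr g) * F (Sum.inr g) ≤ 1 * F (Sum.inr g) :=
            Nat.mul_le_mul_right _ this
        _ = F (Sum.inr g) := one_mul _
  have h5 : ∑ g, c (Sum.inr g) = ∑ g ∈ cut, c (Sum.inr g) + ∑ g, F (Sum.inr g) := by
    rw [← Finset.sum_filter_add_sum_filter_not Finset.univ (fun g => g ∈ cut)]
    congr 1
    · congr 1
      ext g; simp
    · rw [Finset.sum_filter]
      apply Finset.sum_congr rfl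
      intro g _
      simp only [hF, leafV]
      by_cases hg : g ∈ cut <;> simp [hg]
  show ∑ g ∈ cut, c (Sum.inr g) ≤ ∑ u, C.outdeg u * W u
  omega

/-- A constant function. -/
def IsConst {Y : Type} (φ : Y → Bool) : Prop := ∃ b, ∀ y, φ y = b

section tree

variable {n s : ℕ} {Y ρ : Type} (C : Circuit n s) (rank : Fin n ⊕ Fin s → ℕ)
  (cut A : Finset (Fin s)) (reach : Fin n ⊕ Fin s → Prop) (F : ρ → Fin n ⊕ Fin s → Y → Bool)

/-- The function obtained at gate `g` from the functions at its predecessors. -/
def opFun (r : ρ) (g : Fin s) : Y → Bool := fun y => (C.op g).eval (fun u => F r u y)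

open Classical in
/-- The non-constant functions among `φ r`, `r ∈ R`. -/
noncomputable def ncSet (R : Finset ρ) (φ : ρ → Y → Bool) : Finset (Y → Bool) :=
  (R.image φ).filter (fun ψ => ¬ IsConst ψ)

theorem ncSet_and {R : Finset ρ} {φ ψ : ρ → Y → Bool} :
    (ncSet R (fun r y => φ r y && ψ r y)).card + 1 ≤
      ((ncSet R φ).card + 1) * ((ncSet R ψ).card + 1) := by
  classical
  set T : Y → Bool := fun _ => true with hT
  have hTc : IsConst T := ⟨true, fun _ => rfl⟩
  have hT1 : T ∉ ncSet R φ := by
    intro h; exact (Finset.mem_filter.mp h).2 hTc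
  have hT2 : T ∉ ncSet R ψ := by
    intro h; exact (Finset.mem_filter.mp h).2 hTc
  have hsub : insert T (ncSet R (fun r y => φ r y && ψ r y)) ⊆
      ((insert T (ncSet R φ)) ×ˢ (insert T (ncSet R ψ))).image
        (fun p => fun y => p.1 y && p.2 y) := by
    intro χ hχ
    rcases Finset.mem_insert.mp hχ with rfl | hχ
    · rw [Finset.mem_image]
      exact ⟨(T, T), Finset.mem_product.mpr ⟨Finset.mem_insert_self _ _,
        Finset.mem_insert_self _ _⟩, by simp [hT]⟩
    · obtain ⟨h1, h2⟩ := Finset.mem_filter.mp hχ
      obtain ⟨r, hr, rfl⟩ := Finset.mem_image.mp h1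
      have hA : φ r ∈ insert T (ncSet R φ) := by
        by_cases hc : IsConst (φ r)
        · obtain ⟨b, hb⟩ := hc
          cases b with
          | true =>
            have : φ r = T := by funext y; exact hb y
            rw [this]; exact Finset.mem_insert_self _ _
          | false =>
            exfalso
            exact h2 ⟨false, fun y => by simp [hb y]⟩
        · exact Finset.mem_insert_of_mem (Finset.mem_filter.mpr
            ⟨Finset.mem_image_of_mem _ hr, hc⟩)
      have hB : ψ r ∈ insert T (ncSet R ψ) := by
        by_cases hc : IsConst (ψ r)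
        · obtain ⟨b, hb⟩ := hc
          cases b with
          | true =>
            have : ψ r = T := by funext y; exact hb y
            rw [this]; exact Finset.mem_insert_self _ _
          | false =>
            exfalso
            exact h2 ⟨false, fun y => by simp [hb y]⟩
        · exact Finset.mem_insert_of_mem (Finset.mem_filter.mpr
            ⟨Finset.mem_image_of_mem _ hr, hc⟩)
      rw [Finset.mem_image]
      exact ⟨(φ r, ψ r), Finset.mem_product.mpr ⟨hA, hB⟩, rfl⟩
  have h3 := (Finset.card_le_card hsub).trans Finset.card_image_le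
  rw [Finset.card_product, Finset.card_insert_of_notMem hT1, Finset.card_insert_of_notMem hT2,
    Finset.card_insert_of_notMem] at h3
  · exact h3
  · intro h; exact (Finset.mem_filter.mp h).2 hTc

theorem isConst_not {φ : Y → Bool} : IsConst (fun y => !(φ y)) ↔ IsConst φ := by
  constructor
  · rintro ⟨b, hb⟩
    exact ⟨!b, fun y => by rw [← hb y]; simp⟩
  · rintro ⟨b, hb⟩
    exact ⟨!b, fun y => by simp [hb y]⟩

theorem ncSet_not {R : Finset ρ} {φ : ρ → Y → Bool} :
    (ncSet R (fun r y => !(φ r y))).card = (ncSet R φ).card := by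
  classical
  have hinj : Function.Injective (fun (ψ : Y → Bool) => fun y => !(ψ y)) := by
    intro a b hab
    funext y
    have := congrFun hab y
    simpa using this
  rw [← Finset.card_image_of_injective (ncSet R φ) hinj]
  congr 1
  ext χ
  simp only [ncSet, Finset.mem_filter, Finset.mem_image]
  constructor
  · rintro ⟨⟨r, hr, rfl⟩, h⟩
    exact ⟨φ r, ⟨⟨r, hr, rfl⟩, fun hc => h (isConst_not.mpr hc)⟩, rfl⟩
  · rintro ⟨ψ, ⟨⟨r, hr, rfl⟩, h⟩, rfl⟩
    exact ⟨⟨r, hr, rfl⟩, fun hc => h (isConst_not.mp hc)⟩

theorem ncSet_or {R : Finset ρ} {φ ψ : ρ → Y → Bool} :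
    (ncSet R (fun r y => φ r y || ψ r y)).card + 1 ≤
      ((ncSet R φ).card + 1) * ((ncSet R ψ).card + 1) := by
  have h := ncSet_and (R := R) (φ := fun r y => !(φ r y)) (ψ := fun r y => !(ψ r y))
  rw [ncSet_not, ncSet_not] at h
  have h2 := ncSet_not (R := R) (φ := fun r y => (!(φ r y) && !(ψ r y)))
  have h3 : (fun r y => !(!(φ r y) && !(ψ r y))) = (fun (r : ρ) (y : Y) => φ r y || ψ r y) := by
    funext r y
    cases φ r y <;> cases ψ r y <;> rfl
  rw [h3] at h2
  omega

theorem tree_count
    (hrank : ∀ g, ∀ u ∈ (C.op g).preds, rank u < rank (Sum.inr g))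
    (hAcut : A ⊆ cut)
    (hunreach : ∀ r v, ¬ reach v → IsConst (F r v))
    (hgate : ∀ r, ∀ g ∉ A, F r (Sum.inr g) = opFun C F r g)
    (R : Finset ρ) (r0 : ρ) (κ : Fin n ⊕ Fin s → ℕ) (w : Fin n ⊕ Fin s → ℕ)
    (hw : ∀ u, ¬ IsConst (F r0 u) → w u = 1)
    (hκ : ∀ g, κ (Sum.inr g) = ∑ u ∈ (C.op g).preds, if leafV cut u = true then w u else κ u) :
    ∀ (m : ℕ) (g : Fin s), rank (Sum.inr g) = m →
      (∀ u, leafV cut u = true → rank u < m → reach u → ∀ r ∈ R, F r u = F r0 u) →
      (ncSet R (fun r => opFun C F r g)).card + 1 ≤ 2 ^ κ (Sum.inr g) := by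
  classical
  intro m
  induction m using Nat.strong_induction_on with
  | _ m ih =>
    intro g hgm hleaf
    have hpred : ∀ u ∈ (C.op g).preds, (ncSet R (fun r => F r u)).card + 1 ≤
        2 ^ (if leafV cut u = true then w u else κ u) := by
      intro u hu
      have hru := hrank g u hu
      by_cases hl : leafV cut u = true
      · rw [if_pos hl]
        by_cases hr : reach u
        · have hall := hleaf u hl (by omega) hr
          by_cases hc : IsConst (F r0 u)
          · have : ncSet R (fun r => F r u) = ∅ := by
              rw [Finset.eq_empty_iff_forall_notMem]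
              intro χ hχ
              obtain ⟨h1, h2⟩ := Finset.mem_filter.mp hχ
              obtain ⟨r, hr, rfl⟩ := Finset.mem_image.mp h1
              rw [hall r hr] at h2
              exact h2 hc
            rw [this]
            simpa using Nat.one_le_two_pow
          · rw [hw u hc]
            have : ncSet R (fun r => F r u) ⊆ {F r0 u} := by
              intro χ hχ
              obtain ⟨h1, h2⟩ := Finset.mem_filter.mp hχ
              obtain ⟨r, hr, rfl⟩ := Finset.mem_image.mp h1
              rw [hall r hr]
              exact Finset.mem_singleton_self _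
            have := Finset.card_le_card this
            simp only [Finset.card_singleton] at this
            omega
        · have : ncSet R (fun r => F r u) = ∅ := by
            rw [Finset.eq_empty_iff_forall_notMem]
            intro χ hχ
            obtain ⟨h1, h2⟩ := Finset.mem_filter.mp hχ
            obtain ⟨r, _, rfl⟩ := Finset.mem_image.mp h1
            exact h2 (hunreach r u hr)
          rw [this]
          simpa using Nat.one_le_two_pow
      · rw [if_neg hl]
        rcases u with a | h
        · simp [leafV] at hl
        · have hhA : h ∉ A := by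
            intro hA
            apply hl
            simp [leafV, hAcut hA]
          have hfun : (fun r => F r (Sum.inr h)) = (fun r => opFun C F r h) := by
            funext r
            exact hgate r h hhA
          rw [hfun]
          exact ih (rank (Sum.inr h)) (by omega) h rfl
            (fun u hu hlt => hleaf u hu (by omega))
    have hg := hκ g
    cases hop : C.op g with
    | and u v =>
      rw [hop] at hpred hg
      simp only [Op.preds] at hpred hg
      have hu := hpred u (by simp)
      have hv := hpred v (by simp)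
      have hfun : (fun r => opFun C F r g) = (fun r y => F r u y && F r v y) := by
        funext r y
        simp [opFun, hop, Op.eval]
      rw [hfun]
      by_cases huv : u = v
      · subst huv
        simp only [Finset.mem_singleton, Finset.insert_eq_of_mem, Finset.sum_singleton] at hg
        have : (fun (r : ρ) (y : Y) => F r u y && F r u y) = (fun r => F r u) := by
          funext r y; simp
        rw [this, hg]
        exact hu
      · rw [Finset.sum_pair huv] at hg
        rw [hg, pow_add]
        exact ncSet_and.trans (Nat.mul_le_mul hu hv)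
    | or u v =>
      rw [hop] at hpred hg
      simp only [Op.preds] at hpred hg
      have hu := hpred u (by simp)
      have hv := hpred v (by simp)
      have hfun : (fun r => opFun C F r g) = (fun r y => F r u y || F r v y) := by
        funext r y
        simp [opFun, hop, Op.eval]
      rw [hfun]
      by_cases huv : u = v
      · subst huv
        simp only [Finset.mem_singleton, Finset.insert_eq_of_mem, Finset.sum_singleton] at hg
        have : (fun (r : ρ) (y : Y) => F r u y || F r u y) = (fun r => F r u) := by
          funext r y; simp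
        rw [this, hg]
        exact hu
      · rw [Finset.sum_pair huv] at hg
        rw [hg, pow_add]
        exact ncSet_or.trans (Nat.mul_le_mul hu hv)
    | not u =>
      rw [hop] at hpred hg
      simp only [Op.preds] at hpred hg
      have hu := hpred u (by simp)
      have hfun : (fun r => opFun C F r g) = (fun r y => !(F r u y)) := by
        funext r y
        simp [opFun, hop, Op.eval]
      rw [hfun, ncSet_not]
      rw [Finset.sum_singleton] at hg
      rw [hg]
      exact hu

end tree

end Pool.Agent.Lib_MP_22d2c8_lc
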