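import Mathlib

/-!
# A spectral form of Khrapchenko's inequality, and thinning of edge sets
-/

namespace Pool.Agent.Lib_MP_22d2c8_lc

open Finset

variable {P : Type} [DecidableEq P]

/-- Spectral bound for the pairs of `E` from the ones of `h` to the zeros of `h`. -/
def SB1 (X : Finset P) (E : Finset (P × P)) (h : P → Bool) (c : ℝ) : Prop :=
  ∀ α β : P → ℝ,
    (∑ e ∈ E, (if h e.1 = true ∧ h e.2 = false then α e.1 * β e.2 else 0)) ^ 2 ≤
      c * ((∑ x ∈ X, if h x = true then α x ^ 2 else 0) *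
        (∑ y ∈ X, if h y = false then β y ^ 2 else 0))

/-- Spectral bound in both directions. -/
def SB (X : Finset P) (E : Finset (P × P)) (h : P → Bool) (c : ℝ) : Prop :=
  SB1 X E h c ∧ SB1 X (E.image Prod.swap) h c

/-- At every point at most one pair of `E` is sensitive for `h`. -/
def Matching (E : Finset (P × P)) (h : P → Bool) : Prop :=
  (∀ e ∈ E, ∀ e' ∈ E, h e.1 ≠ h e.2 → h e'.1 ≠ h e'.2 → e.1 = e'.1 → e = e') ∧
  (∀ e ∈ E, ∀ e' ∈ E, h e.1 ≠ h e.2 → h e'.1 ≠ h e'.2 → e.2 = e'.2 → e = e')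

theorem two_term {T1 T2 s1 s2 A B1 B2 : ℝ} (hs1 : 0 ≤ s1) (hs2 : 0 ≤ s2) (hA : 0 ≤ A)
    (hB1 : 0 ≤ B1) (hB2 : 0 ≤ B2) (h1 : T1 ^ 2 ≤ s1 * (A * B1)) (h2 : T2 ^ 2 ≤ s2 * (A * B2)) :
    (T1 + T2) ^ 2 ≤ (s1 + s2) * (A * (B1 + B2)) := by
  have hu : 0 ≤ s1 * (A * B2) := by positivity
  have hv : 0 ≤ s2 * (A * B1) := by positivity
  have key : 2 * T1 * T2 ≤ s1 * (A * B2) + s2 * (A * B1) := by
    refine le_trans (le_abs_self _) (abs_le_of_sq_le_sq ?_ (by positivity))
    have hT1 := sq_nonneg T1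
    have hT2 := sq_nonneg T2
    have hmul : T1 ^ 2 * T2 ^ 2 ≤ (s1 * (A * B1)) * (s2 * (A * B2)) :=
      mul_le_mul h1 h2 hT2 (by positivity)
    nlinarith [sq_nonneg (s1 * (A * B2) - s2 * (A * B1))]
  nlinarith

omit [DecidableEq P] in
theorem SB1_and {X : Finset P} {E : Finset (P × P)} {h1 h2 : P → Bool} {c1 c2 : ℝ}
    (hc1 : 0 ≤ c1) (hc2 : 0 ≤ c2) (H1 : SB1 X E h1 c1) (H2 : SB1 X E h2 c2) :
    SB1 X E (fun x => h1 x && h2 x) (c1 + c2) := by
  intro α β
  have e1 := H1 (fun x => if h2 x = true then α x else 0) β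
  have e2 := H2 (fun x => if h1 x = true then α x else 0) (fun y => if h1 y = true then β y else 0)
  set AA : ℝ := ∑ x ∈ X, if (h1 x && h2 x) = true then α x ^ 2 else 0 with hAA
  have hA1 : (∑ x ∈ X, if h1 x = true then (if h2 x = true then α x else 0) ^ 2 else 0) = AA := by
    apply Finset.sum_congr rfl
    intro x _
    cases h1 x <;> cases h2 x <;> simp
  have hA2 : (∑ x ∈ X, if h2 x = true then (if h1 x = true then α x else 0) ^ 2 else 0) = AA := by
    apply Finset.sum_congr rfl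
    intro x _
    cases h1 x <;> cases h2 x <;> simp
  rw [hA1] at e1
  rw [hA2] at e2
  have hB : (∑ y ∈ X, if (h1 y && h2 y) = false then β y ^ 2 else 0) =
      (∑ y ∈ X, if h1 y = false then β y ^ 2 else 0) +
        (∑ y ∈ X, if h2 y = false then (if h1 y = true then β y else 0) ^ 2 else 0) := by
    rw [← Finset.sum_add_distrib]
    apply Finset.sum_congr rfl
    intro x _
    cases h1 x <;> cases h2 x <;> simp
  have hT : (∑ e ∈ E, (if (h1 e.1 && h2 e.1) = true ∧ (h1 e.2 && h2 e.2) = false then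
        α e.1 * β e.2 else 0)) =
      (∑ e ∈ E, (if h1 e.1 = true ∧ h1 e.2 = false then
        (if h2 e.1 = true then α e.1 else 0) * β e.2 else 0)) +
      (∑ e ∈ E, (if h2 e.1 = true ∧ h2 e.2 = false then
        (if h1 e.1 = true then α e.1 else 0) * (if h1 e.2 = true then β e.2 else 0) else 0)) := by
    rw [← Finset.sum_add_distrib]
    apply Finset.sum_congr rfl
    intro e _
    cases h1 e.1 <;> cases h2 e.1 <;> cases h1 e.2 <;> cases h2 e.2 <;> simp
  rw [hT, hB]
  apply two_term hc1 hc2 _ _ _ e1 e2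
  · apply Finset.sum_nonneg; intro x _; split_ifs <;> positivity
  · apply Finset.sum_nonneg; intro x _; split_ifs <;> positivity
  · apply Finset.sum_nonneg; intro x _; split_ifs <;> positivity

theorem SB1_not {X : Finset P} {E : Finset (P × P)} {h : P → Bool} {c : ℝ}
    (H : SB1 X (E.image Prod.swap) h c) : SB1 X E (fun x => !(h x)) c := by
  intro α β
  have e1 := H β α
  rw [Finset.sum_image (by intro a _ b _ hab; exact Prod.swap_injective hab)] at e1
  have hT : (∑ e ∈ E, (if (!(h e.1)) = true ∧ (!(h e.2)) = false then α e.1 * β e.2 else 0)) =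
      ∑ x ∈ E, if h x.swap.1 = true ∧ h x.swap.2 = false then β x.swap.1 * α x.swap.2 else 0 := by
    apply Finset.sum_congr rfl
    intro e _
    simp only [Prod.fst_swap, Prod.snd_swap]
    cases h e.1 <;> cases h e.2 <;> simp [mul_comm]
  rw [hT]
  refine e1.trans (le_of_eq ?_)
  have hL : (∑ x ∈ X, if h x = true then β x ^ 2 else 0) =
      ∑ y ∈ X, if (!(h y)) = false then β y ^ 2 else 0 := by
    apply Finset.sum_congr rfl
    intro x _
    cases h x <;> simp
  have hR : (∑ x ∈ X, if h x = false then α x ^ 2 else 0) =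
      ∑ y ∈ X, if (!(h y)) = true then α y ^ 2 else 0 := by
    apply Finset.sum_congr rfl
    intro x _
    cases h x <;> simp
  rw [hL, hR, mul_comm (∑ y ∈ X, if (!(h y)) = false then β y ^ 2 else 0)]

theorem swap_swap (E : Finset (P × P)) : (E.image Prod.swap).image Prod.swap = E := by
  rw [Finset.image_image]
  simp

theorem SB_not {X : Finset P} {E : Finset (P × P)} {h : P → Bool} {c : ℝ}
    (H : SB X E h c) : SB X E (fun x => !(h x)) c := by
  refine ⟨SB1_not H.2, SB1_not ?_⟩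
  rw [swap_swap]
  exact H.1

theorem SB_and {X : Finset P} {E : Finset (P × P)} {h1 h2 : P → Bool} {c1 c2 : ℝ}
    (hc1 : 0 ≤ c1) (hc2 : 0 ≤ c2) (H1 : SB X E h1 c1) (H2 : SB X E h2 c2) :
    SB X E (fun x => h1 x && h2 x) (c1 + c2) :=
  ⟨SB1_and hc1 hc2 H1.1 H2.1, SB1_and hc1 hc2 H1.2 H2.2⟩

theorem SB_or {X : Finset P} {E : Finset (P × P)} {h1 h2 : P → Bool} {c1 c2 : ℝ}
    (hc1 : 0 ≤ c1) (hc2 : 0 ≤ c2) (H1 : SB X E h1 c1) (H2 : SB X E h2 c2) :
    SB X E (fun x => h1 x || h2 x) (c1 + c2) := by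
  have := SB_not (SB_and hc1 hc2 (SB_not H1) (SB_not H2))
  have heq : (fun x => !(!(h1 x) && !(h2 x))) = (fun x => h1 x || h2 x) := by
    funext x
    cases h1 x <;> cases h2 x <;> rfl
  rw [heq] at this
  exact this

theorem SB_mono {X : Finset P} {E : Finset (P × P)} {h : P → Bool} {c c' : ℝ} (hcc : c ≤ c')
    (H : SB X E h c) : SB X E h c' := by
  constructor
  · intro α β
    refine (H.1 α β).trans ?_
    apply mul_le_mul_of_nonneg_right hcc
    apply mul_nonneg
    · apply Finset.sum_nonneg; intro x _; split_ifs <;> positivity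
    · apply Finset.sum_nonneg; intro x _; split_ifs <;> positivity
  · intro α β
    refine (H.2 α β).trans ?_
    apply mul_le_mul_of_nonneg_right hcc
    apply mul_nonneg
    · apply Finset.sum_nonneg; intro x _; split_ifs <;> positivity
    · apply Finset.sum_nonneg; intro x _; split_ifs <;> positivity

theorem SB1_of_matching {X : Finset P} {E : Finset (P × P)} {h : P → Bool}
    (hE : ∀ e ∈ E, e.1 ∈ X ∧ e.2 ∈ X) (hM : Matching E h) : SB1 X E h 1 := by
  intro α β
  rw [← Finset.sum_filter, one_mul]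
  set F := E.filter (fun e => h e.1 = true ∧ h e.2 = false) with hF
  have hcs := Finset.sum_mul_sq_le_sq_mul_sq F (fun e => α e.1) (fun e => β e.2)
  refine hcs.trans ?_
  apply mul_le_mul
  · rw [← Finset.sum_filter]
    have hinj : Set.InjOn (fun e : P × P => e.1) F := by
      intro a ha b hb hab
      simp only [hF, Finset.coe_filter, Set.mem_ofPred_eq] at ha hb
      exact hM.1 a ha.1 b hb.1 (by rw [ha.2.1, ha.2.2]; simp) (by rw [hb.2.1, hb.2.2]; simp) hab
    have : ∑ i ∈ F, α i.1 ^ 2 = ∑ x ∈ F.image (fun e : P × P => e.1), α x ^ 2 := by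
      rw [Finset.sum_image hinj]
    rw [this]
    apply Finset.sum_le_sum_of_subset_of_nonneg
    · intro x hx
      simp only [Finset.mem_image, hF, Finset.mem_filter] at hx
      obtain ⟨e, ⟨he, h1, _⟩, rfl⟩ := hx
      simp only [Finset.mem_filter]
      exact ⟨(hE e he).1, h1⟩
    · intro x _ _; positivity
  · rw [← Finset.sum_filter]
    have hinj : Set.InjOn (fun e : P × P => e.2) F := by
      intro a ha b hb hab
      simp only [hF, Finset.coe_filter, Set.mem_ofPred_eq] at ha hb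
      exact hM.2 a ha.1 b hb.1 (by rw [ha.2.1, ha.2.2]; simp) (by rw [hb.2.1, hb.2.2]; simp) hab
    have : ∑ i ∈ F, β i.2 ^ 2 = ∑ x ∈ F.image (fun e : P × P => e.2), β x ^ 2 := by
      rw [Finset.sum_image hinj]
    rw [this]
    apply Finset.sum_le_sum_of_subset_of_nonneg
    · intro x hx
      simp only [Finset.mem_image, hF, Finset.mem_filter] at hx
      obtain ⟨e, ⟨he, _, h1⟩, rfl⟩ := hx
      simp only [Finset.mem_filter]
      exact ⟨(hE e he).2, h1⟩
    · intro x _ _; positivity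
  · apply Finset.sum_nonneg; intro x _; positivity
  · apply Finset.sum_nonneg; intro x _; split_ifs <;> positivity

theorem matching_swap {E : Finset (P × P)} {h : P → Bool} (hM : Matching E h) :
    Matching (E.image Prod.swap) h := by
  constructor
  · intro e he e' he' h1 h2 h3
    simp only [Finset.mem_image] at he he'
    obtain ⟨a, ha, rfl⟩ := he
    obtain ⟨b, hb, rfl⟩ := he'
    simp only [Prod.fst_swap, Prod.snd_swap] at h1 h2 h3
    rw [hM.2 a ha b hb (Ne.symm h1) (Ne.symm h2) h3]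
  · intro e he e' he' h1 h2 h3
    simp only [Finset.mem_image] at he he'
    obtain ⟨a, ha, rfl⟩ := he
    obtain ⟨b, hb, rfl⟩ := he'
    simp only [Prod.fst_swap, Prod.snd_swap] at h1 h2 h3
    rw [hM.1 a ha b hb (Ne.symm h1) (Ne.symm h2) h3]

theorem SB_of_matching {X : Finset P} {E : Finset (P × P)} {h : P → Bool}
    (hE : ∀ e ∈ E, e.1 ∈ X ∧ e.2 ∈ X) (hM : Matching E h) : SB X E h 1 := by
  refine ⟨SB1_of_matching hE hM, SB1_of_matching ?_ (matching_swap hM)⟩
  intro e he
  simp only [Finset.mem_image] at he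
  obtain ⟨a, ha, rfl⟩ := he
  exact ⟨(hE a ha).2, (hE a ha).1⟩

/-- The pairs of `E` that are sensitive for `h`. -/
def sens (E : Finset (P × P)) (h : P → Bool) : Finset (P × P) :=
  E.filter (fun e => h e.1 ≠ h e.2)

/-- Left degree. -/
def dL (E : Finset (P × P)) (h : P → Bool) (x : P) : ℕ :=
  ((sens E h).filter (fun e => e.1 = x)).card

/-- Right degree. -/
def dR (E : Finset (P × P)) (h : P → Bool) (x : P) : ℕ :=
  ((sens E h).filter (fun e => e.2 = x)).card

theorem sum_dL_ones {X : Finset P} {E : Finset (P × P)} {h : P → Bool} {c : ℝ}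
    (hE : ∀ e ∈ E, e.1 ∈ X ∧ e.2 ∈ X) (hc : 0 ≤ c) (H : SB1 X E h c) :
    (∑ x ∈ X, if h x = true then ((dL E h x : ℕ) : ℝ) ^ 2 else 0) ≤
      c * ((X.filter (fun y => h y = false)).card : ℝ) := by
  have e1 := H (fun x => (dL E h x : ℝ)) (fun _ => 1)
  set Q : ℝ := ∑ x ∈ X, if h x = true then ((dL E h x : ℕ) : ℝ) ^ 2 else 0 with hQ
  have hQ0 : 0 ≤ Q := by
    apply Finset.sum_nonneg; intro x _; split_ifs <;> positivity
  have hB : (∑ y ∈ X, if h y = false then (1 : ℝ) ^ 2 else 0) =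
      ((X.filter (fun y => h y = false)).card : ℝ) := by
    rw [← Finset.sum_filter]
    simp
  have hT : (∑ e ∈ E, (if h e.1 = true ∧ h e.2 = false then (dL E h e.1 : ℝ) * 1 else 0)) = Q := by
    have : ∀ e ∈ E, e.1 ∈ X := fun e he => (hE e he).1
    rw [← Finset.sum_fiberwise_of_maps_to this]
    rw [hQ]
    apply Finset.sum_congr rfl
    intro x _
    by_cases hx : h x = true
    · rw [if_pos hx]
      have h1 : ∀ e ∈ E.filter (fun e => e.1 = x),
          (if h e.1 = true ∧ h e.2 = false then (dL E h e.1 : ℝ) * 1 else 0) =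
          (if h e.1 ≠ h e.2 then (dL E h x : ℝ) else 0) := by
        intro e he
        simp only [Finset.mem_filter] at he
        rw [he.2, hx, mul_one]
        cases h e.2 <;> simp
      rw [Finset.sum_congr rfl h1, ← Finset.sum_filter, Finset.sum_const, nsmul_eq_mul, sq]
      congr 2
      unfold dL sens
      rw [Finset.filter_comm]
    · rw [if_neg hx]
      apply Finset.sum_eq_zero
      intro e he
      simp only [Finset.mem_filter] at he
      rw [if_neg]
      rw [he.2]
      tauto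
  rw [hT, hB] at e1
  have hcard : (0 : ℝ) ≤ ((X.filter (fun y => h y = false)).card : ℝ) := by positivity
  by_contra hcon
  push Not at hcon
  rcases hQ0.lt_or_eq with hpos | hzero
  · have : Q * Q ≤ Q * (c * ((X.filter (fun y => h y = false)).card : ℝ)) := by
      nlinarith
    have := le_of_mul_le_mul_left this hpos
    linarith
  · have : 0 ≤ c * ((X.filter (fun y => h y = false)).card : ℝ) := mul_nonneg hc hcard
    linarith

theorem sum_dL_zeros {X : Finset P} {E : Finset (P × P)} {h : P → Bool} {c : ℝ}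
    (hE : ∀ e ∈ E, e.1 ∈ X ∧ e.2 ∈ X) (hc : 0 ≤ c) (H : SB X E h c) :
    (∑ x ∈ X, if h x = false then ((dL E h x : ℕ) : ℝ) ^ 2 else 0) ≤
      c * ((X.filter (fun y => h y = true)).card : ℝ) := by
  have := sum_dL_ones hE hc (SB_not H).1
  have h1 : (∑ x ∈ X, if h x = false then ((dL E h x : ℕ) : ℝ) ^ 2 else 0) =
      (∑ x ∈ X, if (!(h x)) = true then ((dL E (fun x => !(h x)) x : ℕ) : ℝ) ^ 2 else 0) := by
    apply Finset.sum_congr rfl
    intro x _
    have : dL E (fun x => !(h x)) x = dL E h x := by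
      unfold dL sens
      congr 2
      apply Finset.filter_congr
      intro e _
      simp
    rw [this]
    cases h x <;> simp
  have h2 : X.filter (fun y => h y = true) = X.filter (fun y => (!(h y)) = false) := by
    apply Finset.filter_congr
    intro e _
    simp
  rw [h1, h2]
  exact this

/-- Second moment of the left degrees. -/
theorem sum_dL_sq {X : Finset P} {E : Finset (P × P)} {h : P → Bool} {c : ℝ}
    (hE : ∀ e ∈ E, e.1 ∈ X ∧ e.2 ∈ X) (hc : 0 ≤ c) (H : SB X E h c) :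
    ∑ x ∈ X, ((dL E h x : ℕ) : ℝ) ^ 2 ≤ c * (X.card : ℝ) := by
  have h1 := sum_dL_ones hE hc H.1
  have h2 := sum_dL_zeros hE hc H
  have h3 : ∑ x ∈ X, ((dL E h x : ℕ) : ℝ) ^ 2 =
      (∑ x ∈ X, if h x = true then ((dL E h x : ℕ) : ℝ) ^ 2 else 0) +
      (∑ x ∈ X, if h x = false then ((dL E h x : ℕ) : ℝ) ^ 2 else 0) := by
    rw [← Finset.sum_add_distrib]
    apply Finset.sum_congr rfl
    intro x _
    cases h x <;> simp
  have h4 : (X.card : ℝ) = ((X.filter (fun y => h y = false)).card : ℝ) +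
      ((X.filter (fun y => h y = true)).card : ℝ) := by
    rw [← Nat.cast_add]
    congr 1
    rw [← Finset.card_filter_add_card_filter_not (s := X) (fun y => h y = false)]
    congr 2
    apply Finset.filter_congr
    intro e _
    simp
  rw [h3, h4]
  linarith

theorem dR_eq (E : Finset (P × P)) (h : P → Bool) (x : P) :
    dR E h x = dL (E.image Prod.swap) h x := by
  unfold dR dL sens
  rw [Finset.filter_filter, Finset.filter_filter]
  rw [← Finset.card_image_of_injective _ Prod.swap_injective]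
  congr 1
  ext e
  simp only [Finset.mem_image, Finset.mem_filter]
  constructor
  · rintro ⟨a, ⟨ha, h1, h2⟩, rfl⟩
    exact ⟨⟨a, ha, rfl⟩, by simpa using Ne.symm h1, by simpa using h2⟩
  · rintro ⟨⟨a, ha, rfl⟩, h1, h2⟩
    exact ⟨a, ⟨ha, by simpa using Ne.symm h1, by simpa using h2⟩, rfl⟩

/-- Second moment of the right degrees. -/
theorem sum_dR_sq {X : Finset P} {E : Finset (P × P)} {h : P → Bool} {c : ℝ}
    (hE : ∀ e ∈ E, e.1 ∈ X ∧ e.2 ∈ X) (hc : 0 ≤ c) (H : SB X E h c) :
    ∑ x ∈ X, ((dR E h x : ℕ) : ℝ) ^ 2 ≤ c * (X.card : ℝ) := by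
  have hE' : ∀ e ∈ E.image Prod.swap, e.1 ∈ X ∧ e.2 ∈ X := by
    intro e he
    simp only [Finset.mem_image] at he
    obtain ⟨a, ha, rfl⟩ := he
    exact ⟨(hE a ha).2, (hE a ha).1⟩
  have H' : SB X (E.image Prod.swap) h c := by
    refine ⟨H.2, ?_⟩
    rw [swap_swap]
    exact H.1
  have := sum_dL_sq hE' hc H'
  simpa [dR_eq] using this

theorem card_sens {X : Finset P} {E : Finset (P × P)} {h : P → Bool}
    (hE : ∀ e ∈ E, e.1 ∈ X ∧ e.2 ∈ X) : (sens E h).card = ∑ x ∈ X, dL E h x := by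
  unfold dL
  rw [Finset.card_eq_sum_card_fiberwise (f := fun e : P × P => e.1) (t := X)]
  intro e he
  simp only [sens, Finset.coe_filter, Set.mem_ofPred_eq] at he
  exact (hE e he.1).1

/-- The number of sensitive pairs. -/
theorem card_sens_sq {X : Finset P} {E : Finset (P × P)} {h : P → Bool} {c : ℝ}
    (hE : ∀ e ∈ E, e.1 ∈ X ∧ e.2 ∈ X) (hc : 0 ≤ c) (H : SB X E h c) :
    ((sens E h).card : ℝ) ^ 2 ≤ c * (X.card : ℝ) ^ 2 := by
  rw [card_sens hE, Nat.cast_sum]
  have h1 := sq_sum_le_card_mul_sum_sq (s := X) (f := fun x => (dL E h x : ℝ))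
  have h2 := sum_dL_sq hE hc H
  nlinarith [Nat.cast_nonneg (α := ℝ) X.card]

theorem SB1_of_degree {X : Finset P} {E : Finset (P × P)} {h : P → Bool} (Q : ℕ)
    (hE : ∀ e ∈ E, e.1 ∈ X ∧ e.2 ∈ X) (hL : ∀ x, dL E h x ≤ Q) (hR : ∀ y, dR E h y ≤ Q) :
    SB1 X E h ((Q : ℝ) ^ 2) := by
  intro α β
  rw [← Finset.sum_filter]
  set F := E.filter (fun e => h e.1 = true ∧ h e.2 = false) with hF
  have hcs := Finset.sum_mul_sq_le_sq_mul_sq F (fun e => α e.1) (fun e => β e.2)
  refine hcs.trans ?_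
  have hFs : F ⊆ sens E h := by
    intro e he
    obtain ⟨h1, h2, h3⟩ := Finset.mem_filter.mp he
    exact Finset.mem_filter.mpr ⟨h1, by rw [h2, h3]; simp⟩
  have h1 : ∑ e ∈ F, α e.1 ^ 2 ≤ Q * ∑ x ∈ X, if h x = true then α x ^ 2 else 0 := by
    have hmap : ∀ e ∈ F, e.1 ∈ X := fun e he => (hE e (Finset.mem_filter.mp he).1).1
    rw [← Finset.sum_fiberwise_of_maps_to hmap, Finset.mul_sum]
    apply Finset.sum_le_sum
    intro x _
    by_cases hx : h x = true
    · rw [if_pos hx]
      have : ∀ e ∈ F.filter (fun e => e.1 = x), α e.1 ^ 2 = α x ^ 2 := by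
        intro e he
        rw [(Finset.mem_filter.mp he).2]
      rw [Finset.sum_congr rfl this, Finset.sum_const, nsmul_eq_mul]
      apply mul_le_mul_of_nonneg_right _ (by positivity)
      have h2 : (F.filter (fun e => e.1 = x)).card ≤ dL E h x :=
        Finset.card_le_card (Finset.filter_subset_filter _ hFs)
      exact_mod_cast h2.trans (hL x)
    · rw [if_neg hx, mul_zero]
      apply le_of_eq
      apply Finset.sum_eq_zero
      intro e he
      exfalso
      obtain ⟨h2, h3⟩ := Finset.mem_filter.mp he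
      rw [← h3] at hx
      exact hx (Finset.mem_filter.mp h2).2.1
  have h2 : ∑ e ∈ F, β e.2 ^ 2 ≤ Q * ∑ y ∈ X, if h y = false then β y ^ 2 else 0 := by
    have hmap : ∀ e ∈ F, e.2 ∈ X := fun e he => (hE e (Finset.mem_filter.mp he).1).2
    rw [← Finset.sum_fiberwise_of_maps_to hmap, Finset.mul_sum]
    apply Finset.sum_le_sum
    intro x _
    by_cases hx : h x = false
    · rw [if_pos hx]
      have : ∀ e ∈ F.filter (fun e => e.2 = x), β e.2 ^ 2 = β x ^ 2 := by
        intro e he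
        rw [(Finset.mem_filter.mp he).2]
      rw [Finset.sum_congr rfl this, Finset.sum_const, nsmul_eq_mul]
      apply mul_le_mul_of_nonneg_right _ (by positivity)
      have h2 : (F.filter (fun e => e.2 = x)).card ≤ dR E h x :=
        Finset.card_le_card (Finset.filter_subset_filter _ hFs)
      exact_mod_cast h2.trans (hR x)
    · rw [if_neg hx, mul_zero]
      apply le_of_eq
      apply Finset.sum_eq_zero
      intro e he
      exfalso
      obtain ⟨h2, h3⟩ := Finset.mem_filter.mp he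
      rw [← h3] at hx
      exact hx (Finset.mem_filter.mp h2).2.2
  have h3 : (0 : ℝ) ≤ ∑ e ∈ F, β e.2 ^ 2 := Finset.sum_nonneg (fun _ _ => by positivity)
  have h4 : (0 : ℝ) ≤ ∑ x ∈ X, if h x = true then α x ^ 2 else 0 :=
    Finset.sum_nonneg (fun _ _ => by split_ifs <;> positivity)
  calc (∑ e ∈ F, α e.1 ^ 2) * ∑ e ∈ F, β e.2 ^ 2
      ≤ (Q * ∑ x ∈ X, if h x = true then α x ^ 2 else 0) *
        (Q * ∑ y ∈ X, if h y = false then β y ^ 2 else 0) :=
        mul_le_mul h1 h2 h3 (by positivity)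
    _ = _ := by ring

theorem SB_of_degree {X : Finset P} {E : Finset (P × P)} {h : P → Bool} (Q : ℕ)
    (hE : ∀ e ∈ E, e.1 ∈ X ∧ e.2 ∈ X) (hL : ∀ x, dL E h x ≤ Q) (hR : ∀ y, dR E h y ≤ Q) :
    SB X E h ((Q : ℝ) ^ 2) := by
  refine ⟨SB1_of_degree Q hE hL hR, SB1_of_degree Q ?_ ?_ ?_⟩
  · intro e he
    simp only [Finset.mem_image] at he
    obtain ⟨a, ha, rfl⟩ := he
    exact ⟨(hE a ha).2, (hE a ha).1⟩
  · intro x
    rw [← dR_eq]
    exact hR x
  · intro y
    rw [dR_eq, swap_swap]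
    exact hL y

end Pool.Agent.Lib_MP_22d2c8_lc
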