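import Pool.Agent.Lib_MP_22d2c8_lc.Counting

/-!
# A Kraft inequality for the restricted functions of a circuit
-/

namespace Pool.Agent.Lib_MP_22d2c8_lc

open Finset

section kraft

variable {n s : ℕ} {Y ρ : Type} (C : Circuit n s) (rank : Fin n ⊕ Fin s → ℕ)
  (cut A Q : Finset (Fin s)) (reach : Fin n ⊕ Fin s → Prop) (F : ρ → Fin n ⊕ Fin s → Y → Bool)

open Classical in
/-- 1 if the function at gate `g` is constant and 0 otherwise. -/
noncomputable def cst (r : ρ) (g : Fin s) : ℕ := if IsConst (opFun C F r g) then 1 else 0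

theorem fiber_sum [Nonempty Y]
    (hrank : ∀ g, ∀ u ∈ (C.op g).preds, rank u < rank (Sum.inr g))
    (hAcut : A ⊆ cut)
    (hunreach : ∀ r v, ¬ reach v → IsConst (F r v))
    (hgate : ∀ r, ∀ g ∉ A, F r (Sum.inr g) = opFun C F r g)
    (κ w : ρ → Fin n ⊕ Fin s → ℕ)
    (hw : ∀ r u, ¬ IsConst (F r u) → w r u = 1)
    (hκ : ∀ r g, κ r (Sum.inr g) =
      ∑ u ∈ (C.op g).preds, if leafV cut u = true then w r u else κ r u)
    (T : Finset ρ) (g : Fin s)
    (hagree : ∀ u, leafV cut u = true → rank u < rank (Sum.inr g) → reach u →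
      ∀ r ∈ T, ∀ r' ∈ T, F r u = F r' u)
    (hinj : Set.InjOn (fun r => opFun C F r g) T) :
    ∑ r ∈ T, (1 / 2 : ℝ) ^ (κ r (Sum.inr g) + cst C F r g) ≤ 1 := by
  classical
  rcases T.eq_empty_or_nonempty with rfl | hne
  · simp
  obtain ⟨r0, hr0, hmin⟩ := Finset.exists_min_image T (fun r => κ r (Sum.inr g)) hne
  set m0 := κ r0 (Sum.inr g) with hm0
  have htree := tree_count C rank cut A reach F hrank hAcut hunreach hgate T r0 (κ r0) (w r0)
    (hw r0) (hκ r0) (rank (Sum.inr g)) g rfl
    (fun u hu hlt hr r hrT => hagree u hu hlt hr r hrT r0 hr0)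
  have hnc : (T.filter (fun r => ¬ IsConst (opFun C F r g))).card + 1 ≤ 2 ^ m0 := by
    refine le_trans ?_ htree
    apply Nat.add_le_add_right
    apply Finset.card_le_card_of_injOn (fun r => opFun C F r g)
    · intro r hr
      have hr' := Finset.mem_filter.mp (Finset.mem_coe.mp hr)
      exact Finset.mem_coe.mpr (Finset.mem_filter.mpr
        ⟨Finset.mem_image_of_mem _ hr'.1, hr'.2⟩)
    · intro a ha b hb hab
      exact hinj (Finset.mem_coe.mpr (Finset.mem_filter.mp (Finset.mem_coe.mp ha)).1)
        (Finset.mem_coe.mpr (Finset.mem_filter.mp (Finset.mem_coe.mp hb)).1) hab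
  have hc : (T.filter (fun r => IsConst (opFun C F r g))).card ≤ 2 := by
    have : (T.filter (fun r => IsConst (opFun C F r g))).card ≤
        (Finset.univ.image (fun b : Bool => (fun _ : Y => b))).card := by
      apply Finset.card_le_card_of_injOn (fun r => opFun C F r g)
      · intro r hr
        have hr' := Finset.mem_filter.mp (Finset.mem_coe.mp hr)
        obtain ⟨b, hb⟩ := hr'.2
        rw [Finset.mem_coe, Finset.mem_image]
        exact ⟨b, Finset.mem_univ _, by funext y; exact (hb y).symm⟩
      · intro a ha b hb hab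
        exact hinj (Finset.mem_coe.mpr (Finset.mem_filter.mp (Finset.mem_coe.mp ha)).1)
          (Finset.mem_coe.mpr (Finset.mem_filter.mp (Finset.mem_coe.mp hb)).1) hab
    refine this.trans (Finset.card_image_le.trans ?_)
    simp
  rw [← Finset.sum_filter_add_sum_filter_not T (fun r => IsConst (opFun C F r g))]
  have hhalf : (0 : ℝ) ≤ 1 / 2 := by norm_num
  have h1 : ∑ r ∈ T.filter (fun r => IsConst (opFun C F r g)),
      (1 / 2 : ℝ) ^ (κ r (Sum.inr g) + cst C F r g) ≤ 2 * (1 / 2 : ℝ) ^ (m0 + 1) := by
    have : ∀ r ∈ T.filter (fun r => IsConst (opFun C F r g)),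
        (1 / 2 : ℝ) ^ (κ r (Sum.inr g) + cst C F r g) ≤ (1 / 2 : ℝ) ^ (m0 + 1) := by
      intro r hr
      obtain ⟨h1, h2⟩ := Finset.mem_filter.mp hr
      have h3 := hmin r h1
      unfold cst
      rw [if_pos h2]
      exact pow_le_pow_of_le_one hhalf (by norm_num) (by omega)
    refine (Finset.sum_le_card_nsmul _ _ _ this).trans ?_
    rw [nsmul_eq_mul]
    apply mul_le_mul_of_nonneg_right _ (by positivity)
    exact_mod_cast hc
  have h2 : ∑ r ∈ T.filter (fun r => ¬ IsConst (opFun C F r g)),
      (1 / 2 : ℝ) ^ (κ r (Sum.inr g) + cst C F r g) ≤ (2 ^ m0 - 1) * (1 / 2 : ℝ) ^ m0 := by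
    have : ∀ r ∈ T.filter (fun r => ¬ IsConst (opFun C F r g)),
        (1 / 2 : ℝ) ^ (κ r (Sum.inr g) + cst C F r g) ≤ (1 / 2 : ℝ) ^ m0 := by
      intro r hr
      obtain ⟨h1, h2⟩ := Finset.mem_filter.mp hr
      have h3 := hmin r h1
      exact pow_le_pow_of_le_one hhalf (by norm_num) (by omega)
    refine (Finset.sum_le_card_nsmul _ _ _ this).trans ?_
    rw [nsmul_eq_mul]
    apply mul_le_mul_of_nonneg_right _ (by positivity)
    have : ((T.filter (fun r => ¬ IsConst (opFun C F r g))).card : ℝ) + 1 ≤ 2 ^ m0 := by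
      exact_mod_cast hnc
    linarith
  have h3 : (2 : ℝ) * (1 / 2 : ℝ) ^ (m0 + 1) = (1 / 2 : ℝ) ^ m0 := by
    rw [pow_succ]; ring
  have h4 : ((2 : ℝ) ^ m0 - 1) * (1 / 2 : ℝ) ^ m0 = 1 - (1 / 2 : ℝ) ^ m0 := by
    rw [sub_mul, ← mul_pow]; norm_num
  linarith

open Classical in
/-- The recorded functions at the recorded gates of rank below `j`. -/
noncomputable def rec_ (j : ℕ) (r : ρ) : Fin s → Option (Y → Bool) :=
  fun g => if g ∈ Q ∧ rank (Sum.inr g) < j then some (opFun C F r g) else none

/-- The weight. -/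
noncomputable def wt (κ : ρ → Fin n ⊕ Fin s → ℕ) (j : ℕ) (r : ρ) : ℝ :=
  ∏ g ∈ Q.filter (fun g => rank (Sum.inr g) < j), (1 / 2 : ℝ) ^ (κ r (Sum.inr g) + cst C F r g)

theorem kraft [Nonempty Y]
    (hrank : ∀ g, ∀ u ∈ (C.op g).preds, rank u < rank (Sum.inr g))
    (hrankinj : ∀ g g' : Fin s, rank (Sum.inr g) = rank (Sum.inr g') → g = g')
    (hAcut : A ⊆ cut)
    (hQ : ∀ h ∈ cut, h ∉ A → reach (Sum.inr h) → h ∈ Q)
    (hunreach : ∀ r v, ¬ reach v → IsConst (F r v))
    (hinl : ∀ i, reach (Sum.inl i) → ∀ r r', F r (Sum.inl i) = F r' (Sum.inl i))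
    (hA : ∀ g ∈ A, ∀ r r', F r (Sum.inr g) = F r' (Sum.inr g))
    (hgate : ∀ r, ∀ g ∉ A, F r (Sum.inr g) = opFun C F r g)
    (κ w : ρ → Fin n ⊕ Fin s → ℕ)
    (hw : ∀ r u, ¬ IsConst (F r u) → w r u = 1)
    (hκ : ∀ r g, κ r (Sum.inr g) =
      ∑ u ∈ (C.op g).preds, if leafV cut u = true then w r u else κ r u) :
    ∀ (j : ℕ) (T : Finset ρ), Set.InjOn (rec_ C rank Q F j) T →
      ∑ r ∈ T, wt C rank Q F κ j r ≤ 1 := by
  classical
  intro j
  induction j with
  | zero =>
    intro T hT
    have h1 : T.card ≤ 1 := by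
      rw [Finset.card_le_one]
      intro a ha b hb
      apply hT (Finset.mem_coe.mpr ha) (Finset.mem_coe.mpr hb)
      funext g
      simp [rec_]
    have h2 : ∀ r ∈ T, wt C rank Q F κ 0 r = 1 := by
      intro r _
      simp [wt]
    rw [Finset.sum_congr rfl h2]
    simpa using h1
  | succ j ih =>
    intro T hT
    rcases T.eq_empty_or_nonempty with rfl | ⟨rr, _⟩
    · simp
    have : Nonempty ρ := ⟨rr⟩
    by_cases hex : ∃ g ∈ Q, rank (Sum.inr g) = j
    · obtain ⟨g, hgQ, hgj⟩ := hex
      have hfilter : Q.filter (fun g => rank (Sum.inr g) < j + 1) =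
          insert g (Q.filter (fun g => rank (Sum.inr g) < j)) := by
        ext h
        simp only [Finset.mem_filter, Finset.mem_insert]
        constructor
        · rintro ⟨h1, h2⟩
          rcases (Nat.lt_succ_iff.mp h2).lt_or_eq with h3 | h3
          · exact Or.inr ⟨h1, h3⟩
          · left
            exact hrankinj h g (by omega)
        · rintro (rfl | ⟨h1, h2⟩)
          · exact ⟨hgQ, by omega⟩
          · exact ⟨h1, by omega⟩
      have hgnot : g ∉ Q.filter (fun g => rank (Sum.inr g) < j) := by
        simp only [Finset.mem_filter, not_and]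
        intro _
        omega
      have hwt : ∀ r, wt C rank Q F κ (j + 1) r =
          (1 / 2 : ℝ) ^ (κ r (Sum.inr g) + cst C F r g) * wt C rank Q F κ j r := by
        intro r
        unfold wt
        rw [hfilter, Finset.prod_insert hgnot]
      -- choose representatives with maximal weight
      have hrep : ∀ φ ∈ T.image (rec_ C rank Q F j), ∃ r ∈ T, rec_ C rank Q F j r = φ ∧
          ∀ r' ∈ T, rec_ C rank Q F j r' = φ → wt C rank Q F κ j r' ≤ wt C rank Q F κ j r := by
        intro φ hφ
        obtain ⟨r1, hr1, hr1φ⟩ := Finset.mem_image.mp hφ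
        obtain ⟨r, hr, hmax⟩ := Finset.exists_max_image
          (T.filter (fun r => rec_ C rank Q F j r = φ)) (fun r => wt C rank Q F κ j r)
          ⟨r1, Finset.mem_filter.mpr ⟨hr1, hr1φ⟩⟩
        refine ⟨r, (Finset.mem_filter.mp hr).1, (Finset.mem_filter.mp hr).2, ?_⟩
        intro r' hr' hr'φ
        exact hmax r' (Finset.mem_filter.mpr ⟨hr', hr'φ⟩)
      choose! rep hrepT hrepφ hrepmax using hrep
      have hinjrep : Set.InjOn rep
          ((T.image (rec_ C rank Q F j) : Finset (Fin s → Option (Y → Bool))) :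
            Set (Fin s → Option (Y → Bool))) := by
        intro a ha b hb hab
        rw [← hrepφ a (Finset.mem_coe.mp ha), ← hrepφ b (Finset.mem_coe.mp hb), hab]
      have hIH := ih ((T.image (rec_ C rank Q F j)).image rep) (by
        intro a ha b hb hab
        obtain ⟨φ, hφ, rfl⟩ := Finset.mem_image.mp (Finset.mem_coe.mp ha)
        obtain ⟨ψ, hψ, rfl⟩ := Finset.mem_image.mp (Finset.mem_coe.mp hb)
        rw [hrepφ φ hφ, hrepφ ψ hψ] at hab
        rw [hab])
      rw [Finset.sum_image hinjrep] at hIH
      refine le_trans ?_ hIH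
      rw [← Finset.sum_fiberwise_of_maps_to
        (fun r hr => Finset.mem_image_of_mem (rec_ C rank Q F j) hr)]
      apply Finset.sum_le_sum
      intro φ hφ
      have hfib := fiber_sum C rank cut A reach F hrank hAcut hunreach hgate κ w hw hκ
        (T.filter (fun r => rec_ C rank Q F j r = φ)) g
        (by
          intro u hu hlt hr r hrT r' hrT'
          obtain ⟨_, h1⟩ := Finset.mem_filter.mp hrT
          obtain ⟨_, h2⟩ := Finset.mem_filter.mp hrT'
          rcases u with i | h
          · exact hinl i hr r r'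
          · by_cases hhA : h ∈ A
            · exact hA h hhA r r'
            · have hhcut : h ∈ cut := by simpa [leafV] using hu
              have hhQ := hQ h hhcut hhA hr
              have h3 : rec_ C rank Q F j r h = rec_ C rank Q F j r' h := by rw [h1, h2]
              unfold rec_ at h3
              rw [if_pos ⟨hhQ, by omega⟩, if_pos ⟨hhQ, by omega⟩] at h3
              rw [hgate r h hhA, hgate r' h hhA]
              exact Option.some_injective _ h3)
        (by
          intro r hr r' hr' hrr'
          obtain ⟨h0, h1⟩ := Finset.mem_filter.mp (Finset.mem_coe.mp hr)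
          obtain ⟨h0', h2⟩ := Finset.mem_filter.mp (Finset.mem_coe.mp hr')
          apply hT (Finset.mem_coe.mpr h0) (Finset.mem_coe.mpr h0')
          funext h
          by_cases hh : h = g
          · subst hh
            unfold rec_
            rw [if_pos ⟨hgQ, by omega⟩, if_pos ⟨hgQ, by omega⟩]
            simp only at hrr'
            rw [hrr']
          · have h3 : rec_ C rank Q F j r h = rec_ C rank Q F j r' h := by rw [h1, h2]
            unfold rec_ at h3 ⊢
            by_cases hc : h ∈ Q ∧ rank (Sum.inr h) < j + 1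
            · have hc' : h ∈ Q ∧ rank (Sum.inr h) < j := by
                refine ⟨hc.1, ?_⟩
                rcases (Nat.lt_succ_iff.mp hc.2).lt_or_eq with h4 | h4
                · exact h4
                · exact absurd (hrankinj h g (by omega)) hh
              rw [if_pos hc', if_pos hc'] at h3
              rw [if_pos hc, if_pos hc]
              exact h3
            · rw [if_neg hc, if_neg hc])
      calc ∑ r ∈ T.filter (fun r => rec_ C rank Q F j r = φ), wt C rank Q F κ (j + 1) r
          ≤ ∑ r ∈ T.filter (fun r => rec_ C rank Q F j r = φ),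
            (1 / 2 : ℝ) ^ (κ r (Sum.inr g) + cst C F r g) * wt C rank Q F κ j (rep φ) := by
            apply Finset.sum_le_sum
            intro r hr
            rw [hwt r]
            apply mul_le_mul_of_nonneg_left _ (by positivity)
            exact hrepmax φ hφ r (Finset.mem_filter.mp hr).1 (Finset.mem_filter.mp hr).2
        _ = (∑ r ∈ T.filter (fun r => rec_ C rank Q F j r = φ),
            (1 / 2 : ℝ) ^ (κ r (Sum.inr g) + cst C F r g)) * wt C rank Q F κ j (rep φ) := by
            rw [Finset.sum_mul]
        _ ≤ 1 * wt C rank Q F κ j (rep φ) := by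
            apply mul_le_mul_of_nonneg_right hfib
            unfold wt
            apply Finset.prod_nonneg
            intro g _
            positivity
        _ = wt C rank Q F κ j (rep φ) := one_mul _
    · push Not at hex
      have hiff : ∀ h ∈ Q, (rank (Sum.inr h) < j + 1 ↔ rank (Sum.inr h) < j) := by
        intro h hh
        have := hex h hh
        omega
      have h1 : rec_ C rank Q F (j + 1) = rec_ C rank Q F j := by
        funext r h
        unfold rec_
        by_cases hh : h ∈ Q
        · simp [hh, hiff h hh]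
        · simp [hh]
      have h2 : ∀ r, wt C rank Q F κ (j + 1) r = wt C rank Q F κ j r := by
        intro r
        unfold wt
        congr 1
        exact Finset.filter_congr hiff
      rw [h1] at hT
      rw [Finset.sum_congr rfl (fun r _ => h2 r)]
      exact ih T hT

end kraft

end Pool.Agent.Lib_MP_22d2c8_lc
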