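import Mathlib

/-!
# Khrapchenko's bound for circuits with few large shared gates

A Boolean circuit over `∧, ∨, ¬` (here `∧`, `∨` of arbitrary fan-in) that computes the parity of
`n ≥ 2` bits satisfies, for every `q ≥ 1`, the inequality `n² ≤ q² (r + 1) W`, where `W` is the
number of wires and `r` is the number of gates of out-degree at least two whose value depends on
more than `q` inputs.
-/

namespace Pool.Agent.Results.MP_22d2c8_lc.ParityFewShared

open Finset

/-- The three kinds of gates. -/
inductive Kind
  | and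
  | or
  | not

/-- A Boolean circuit with `n` inputs: a finite directed acyclic graph whose vertices are the
inputs `Sum.inl i` and the gates `Sum.inr g`; `pred g` is the set of predecessors of the gate `g`,
the gates are numbered in a topological order, and a negation gate has one predecessor. -/
structure Circuit (n : ℕ) where
  /-- number of gates -/
  size : ℕ
  /-- kind of each gate -/
  kind : Fin size → Kind
  /-- predecessors of each gate -/
  pred : Fin size → Finset (Fin n ⊕ Fin size)
  /-- acyclicity -/
  topo : ∀ g h, Sum.inr h ∈ pred g → h < g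
  /-- negation gates have one predecessor -/
  neg : ∀ g, kind g = Kind.not → (pred g).card = 1
  /-- output vertex -/
  out : Fin n ⊕ Fin size

variable {n : ℕ}

/-- The truth value of the gate `g` on the input word `x`. -/
def Circuit.gateVal (C : Circuit n) (x : Fin n → Bool) (g : Fin C.size) : Prop :=
  match C.kind g with
  | Kind.and => ∀ v, ∀ hv : v ∈ C.pred g,
      match v, hv with
      | Sum.inl i, _ => x i = true
      | Sum.inr h, hv => 
        have : h < g := C.topo g h hv
        C.gateVal x h
  | Kind.or => ∃ v, ∃ hv : v ∈ C.pred g,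
      match v, hv with
      | Sum.inl i, _ => x i = true
      | Sum.inr h, hv => 
        have : h < g := C.topo g h hv
        C.gateVal x h
  | Kind.not => ∀ v, ∀ hv : v ∈ C.pred g,
      ¬ (match v, hv with
      | Sum.inl i, _ => x i = true
      | Sum.inr h, hv => 
        have : h < g := C.topo g h hv
        C.gateVal x h)
termination_by g.val

/-- The truth value of the vertex `v` on the input word `x`. -/
def Circuit.val (C : Circuit n) (x : Fin n → Bool) : Fin n ⊕ Fin C.size → Prop
  | Sum.inl i => x i = true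
  | Sum.inr g => C.gateVal x g

theorem Circuit.gateVal_and (C : Circuit n) (x : Fin n → Bool) (g : Fin C.size)
    (hk : C.kind g = Kind.and) : C.gateVal x g ↔ ∀ v ∈ C.pred g, C.val x v := by
  rw [Circuit.gateVal, hk]
  constructor
  · intro h v hv
    have := h v hv
    rcases v with i | g
    · exact this
    · exact this
  · intro h v hv
    have := h v hv
    rcases v with i | g
    · exact this
    · exact this

theorem Circuit.gateVal_or (C : Circuit n) (x : Fin n → Bool) (g : Fin C.size)
    (hk : C.kind g = Kind.or) : C.gateVal x g ↔ ∃ v ∈ C.pred g, C.val x v := by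
  rw [Circuit.gateVal, hk]
  constructor
  · rintro ⟨v, hv, h⟩
    refine ⟨v, hv, ?_⟩
    rcases v with i | g
    · exact h
    · exact h
  · rintro ⟨v, hv, h⟩
    refine ⟨v, hv, ?_⟩
    rcases v with i | g
    · exact h
    · exact h

theorem Circuit.gateVal_not (C : Circuit n) (x : Fin n → Bool) (g : Fin C.size)
    (hk : C.kind g = Kind.not) : C.gateVal x g ↔ ∀ v ∈ C.pred g, ¬ C.val x v := by
  rw [Circuit.gateVal, hk]
  constructor
  · intro h v hv
    have := h v hv
    rcases v with i | g
    · exact this
    · exact this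
  · intro h v hv
    have := h v hv
    rcases v with i | g
    · exact this
    · exact this

/-- Out-degree of a vertex. -/
def Circuit.outDeg (C : Circuit n) (v : Fin n ⊕ Fin C.size) : ℕ :=
  (univ.filter fun g : Fin C.size => v ∈ C.pred g).card

/-- The value of the vertex `v` depends on at most `q` inputs. -/
def Circuit.DependsOnAtMost (C : Circuit n) (q : ℕ) (v : Fin n ⊕ Fin C.size) : Prop :=
  ∃ S : Finset (Fin n), S.card ≤ q ∧
    ∀ x y : Fin n → Bool, (∀ i ∈ S, x i = y i) → (C.val x v ↔ C.val y v)

open Classical in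
/-- The number of gates of out-degree at least two whose value depends on more than `q` inputs. -/
noncomputable def Circuit.bigShared (C : Circuit n) (q : ℕ) : ℕ :=
  (univ.filter fun g : Fin C.size =>
    2 ≤ C.outDeg (Sum.inr g) ∧ ¬ C.DependsOnAtMost q (Sum.inr g)).card

/-- The number of wires of the circuit. -/
def Circuit.wires (C : Circuit n) : ℕ := ∑ g : Fin C.size, (C.pred g).card

/-- The circuit computes the parity of its `n` inputs. -/
def Circuit.ComputesParity (C : Circuit n) : Prop :=
  ∀ x : Fin n → Bool, C.val x C.out ↔ Odd (univ.filter fun i => x i = true).card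


/-! ### The proof -/

/-- flip a coordinate -/
def flip (x : Fin n → Bool) (i : Fin n) : Fin n → Bool := Function.update x i (!x i)

theorem flip_same (x : Fin n → Bool) (i : Fin n) : flip x i i = !x i := by simp [flip]

theorem flip_ne (x : Fin n → Bool) {i j : Fin n} (h : j ≠ i) : flip x i j = x j := by
  simp [flip, h]

theorem flip_flip (x : Fin n → Bool) (i : Fin n) : flip (flip x i) i = x := by
  funext j
  by_cases h : j = i
  · subst h; simp [flip]
  · simp [flip, h]

/-- number of cube edges between two sets -/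
def edges (A B : Finset (Fin n → Bool)) : ℕ :=
  ((A ×ˢ (univ : Finset (Fin n))).filter fun p => flip p.1 p.2 ∈ B).card

theorem edges_comm (A B : Finset (Fin n → Bool)) : edges A B = edges B A := by
  unfold edges
  refine Finset.card_nbij' (fun p => (flip p.1 p.2, p.2)) (fun p => (flip p.1 p.2, p.2)) ?_ ?_ ?_ ?_
  · intro p hp
    simp only [coe_filter, mem_product, mem_univ, and_true, Set.mem_ofPred_eq] at hp ⊢
    exact ⟨hp.2, by rw [flip_flip]; exact hp.1⟩
  · intro p hp
    simp only [coe_filter, mem_product, mem_univ, and_true, Set.mem_ofPred_eq] at hp ⊢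
    exact ⟨hp.2, by rw [flip_flip]; exact hp.1⟩
  · intro p _
    simp [flip_flip]
  · intro p _
    simp [flip_flip]

theorem edges_le_left (A B : Finset (Fin n → Bool)) (q : ℕ)
    (h : ∀ a ∈ A, (univ.filter fun i => flip a i ∈ B).card ≤ q) : edges A B ≤ q * A.card := by
  unfold edges
  have : (A ×ˢ (univ : Finset (Fin n))).filter (fun p => flip p.1 p.2 ∈ B)
      = A.biUnion fun a => (univ.filter fun i => flip a i ∈ B).image fun i => (a, i) := by
    ext ⟨a, i⟩
    simp only [mem_filter, mem_product, mem_univ, and_true, mem_biUnion, mem_image, true_and,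
      Prod.mk.injEq]
    constructor
    · rintro ⟨ha, hi⟩
      exact ⟨a, ha, i, hi, rfl, rfl⟩
    · rintro ⟨a', ha, i', hi, rfl, rfl⟩
      exact ⟨ha, hi⟩
  rw [this]
  calc _ ≤ ∑ a ∈ A, ((univ.filter fun i => flip a i ∈ B).image fun i => (a, i)).card :=
        card_biUnion_le
    _ ≤ ∑ _a ∈ A, q := by
        refine sum_le_sum fun a ha => ?_
        exact card_image_le.trans (h a ha)
    _ = q * A.card := by rw [sum_const, smul_eq_mul, mul_comm]

/-- Two sets separated by a vertex of small dependence. -/
theorem edges_small (C : Circuit n) (q : ℕ) (v : Fin n ⊕ Fin C.size)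
    (hv : C.DependsOnAtMost q v) (A B : Finset (Fin n → Bool))
    (hsep : ∀ a ∈ A, ∀ b ∈ B, ¬ (C.val a v ↔ C.val b v)) :
    edges A B ^ 2 ≤ q ^ 2 * A.card * B.card := by
  obtain ⟨S, hS, hdep⟩ := hv
  have key : ∀ (A B : Finset (Fin n → Bool)),
      (∀ a ∈ A, ∀ b ∈ B, ¬ (C.val a v ↔ C.val b v)) → edges A B ≤ q * A.card := by
    intro A B hsep
    refine edges_le_left A B q fun a ha => ?_
    refine le_trans (card_le_card ?_) hS
    intro i hi
    simp only [mem_filter, mem_univ, true_and] at hi
    by_contra hiS
    refine hsep a ha _ hi (hdep _ _ fun j hj => ?_)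
    rw [flip_ne]
    rintro rfl
    exact hiS hj
  have h1 := key A B hsep
  have h2 : edges A B ≤ q * B.card := by
    rw [edges_comm]
    exact key B A fun b hb a ha h => hsep a ha b hb h.symm
  calc edges A B ^ 2 = edges A B * edges A B := by ring
    _ ≤ (q * A.card) * (q * B.card) := Nat.mul_le_mul h1 h2
    _ = q ^ 2 * A.card * B.card := by ring

theorem edges_empty_right (A : Finset (Fin n → Bool)) : edges A ∅ = 0 := by
  simp [edges]

theorem edges_empty_left (B : Finset (Fin n → Bool)) : edges ∅ B = 0 := by
  simp [edges]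

/-- Cauchy-Schwarz over a partition of the right set. -/
theorem edges_split_right {ι : Type*} (s : Finset ι) (K : ℕ) (lam : ι → ℕ)
    (A B : Finset (Fin n → Bool)) (R : ι → (Fin n → Bool) → Prop)
    (hR : ∀ b ∈ B, ∃ p ∈ s, R p b)
    (h : ∀ p ∈ s, ∀ B' : Finset (Fin n → Bool), B' ⊆ B → (∀ b ∈ B', R p b) →
      edges A B' ^ 2 ≤ K * lam p * A.card * B'.card) :
    edges A B ^ 2 ≤ K * (∑ p ∈ s, lam p) * A.card * B.card := by
  classical
  rcases B.eq_empty_or_nonempty with hB | ⟨b0, hb0⟩
  · subst hB
    simp [edges_empty_right]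
  obtain ⟨p0, -, -⟩ := hR b0 hb0
  have : Nonempty ι := ⟨p0⟩
  choose! c hc hcR using hR
  -- the parts
  have hsum : edges A B ≤ ∑ p ∈ s, edges A (B.filter fun b => c b = p) := by
    unfold edges
    refine le_trans (card_le_card ?_) card_biUnion_le
    intro x hx
    simp only [mem_filter, mem_product, mem_univ, and_true, mem_biUnion] at hx ⊢
    exact ⟨c (flip x.1 x.2), hc _ hx.2, hx.1, hx.2, rfl⟩
  have hcard : ∑ p ∈ s, (B.filter fun b => c b = p).card = B.card :=
    (card_eq_sum_card_fiberwise fun b hb => hc b hb).symm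
  calc edges A B ^ 2 ≤ (∑ p ∈ s, edges A (B.filter fun b => c b = p)) ^ 2 :=
        Nat.pow_le_pow_left hsum 2
    _ ≤ (∑ p ∈ s, K * lam p * A.card) * ∑ p ∈ s, (B.filter fun b => c b = p).card := by
        refine sum_sq_le_sum_mul_sum_of_sq_le_mul s (fun _ _ => Nat.zero_le _)
          (fun _ _ => Nat.zero_le _) fun p hp => ?_
        refine h p hp _ (filter_subset _ _) fun b hb => ?_
        simp only [mem_filter] at hb
        have := hcR b hb.1
        rwa [hb.2] at this
    _ = K * (∑ p ∈ s, lam p) * A.card * B.card := by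
        rw [hcard, ← sum_mul, ← mul_sum]

/-- Cauchy-Schwarz over a partition of the left set. -/
theorem edges_split_left {ι : Type*} (s : Finset ι) (K : ℕ) (lam : ι → ℕ)
    (A B : Finset (Fin n → Bool)) (R : ι → (Fin n → Bool) → Prop)
    (hR : ∀ a ∈ A, ∃ p ∈ s, R p a)
    (h : ∀ p ∈ s, ∀ A' : Finset (Fin n → Bool), A' ⊆ A → (∀ a ∈ A', R p a) →
      edges A' B ^ 2 ≤ K * lam p * A'.card * B.card) :
    edges A B ^ 2 ≤ K * (∑ p ∈ s, lam p) * A.card * B.card := by
  rw [edges_comm, mul_right_comm]
  refine edges_split_right s K lam B A R hR fun p hp A' hA' hRA' => ?_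
  rw [edges_comm, mul_right_comm]
  exact h p hp A' hA' hRA'

/-- Number of leaves of the tree hanging at the gate `g` when the circuit is cut at the gates in
`T` and at the remaining gates of out-degree at least two; the latter count as leaves, the former
do not. -/
def Circuit.leaves (C : Circuit n) (T : Finset (Fin C.size)) (g : Fin C.size) : ℕ :=
  ∑ v ∈ (C.pred g).attach,
    match v with
    | ⟨Sum.inl _, _⟩ => 1
    | ⟨Sum.inr h, hv⟩ =>
      have : h < g := C.topo g h hv
      if h ∈ T then 0 else if 2 ≤ C.outDeg (Sum.inr h) then 1 else C.leaves T h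
termination_by g.val

/-- Weight of a vertex as a child. -/
def Circuit.lam (C : Circuit n) (T : Finset (Fin C.size)) : Fin n ⊕ Fin C.size → ℕ
  | Sum.inl _ => 1
  | Sum.inr h => if h ∈ T then 0 else if 2 ≤ C.outDeg (Sum.inr h) then 1 else C.leaves T h

theorem Circuit.leaves_eq (C : Circuit n) (T : Finset (Fin C.size)) (g : Fin C.size) :
    C.leaves T g = ∑ v ∈ C.pred g, C.lam T v := by
  rw [Circuit.leaves, ← sum_attach (C.pred g)]
  refine sum_congr rfl fun v _ => ?_
  rcases v with ⟨i | h, hv⟩ <;> rfl

/-- Double counting of wires. -/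
theorem Circuit.sum_pred (C : Circuit n) (f : Fin n ⊕ Fin C.size → ℕ) :
    ∑ g, ∑ v ∈ C.pred g, f v = ∑ v, C.outDeg v * f v := by
  classical
  have h1 : ∀ g, ∑ v ∈ C.pred g, f v = ∑ v, if v ∈ C.pred g then f v else 0 := by
    intro g
    rw [← sum_filter]
    congr 1
    ext v
    simp
  simp_rw [h1]
  rw [sum_comm]
  refine sum_congr rfl fun v _ => ?_
  rw [← sum_filter, sum_const, smul_eq_mul]
  rfl

/-- The trees cut at `T` have altogether at most as many leaves as there are wires. -/
theorem Circuit.sum_leaves_le (C : Circuit n) (T : Finset (Fin C.size)) :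
    ∑ g ∈ T, C.leaves T g ≤ C.wires := by
  classical
  have h1 : ∑ g, C.leaves T g = ∑ v, C.outDeg v * C.lam T v := by
    simp_rw [C.leaves_eq T]
    exact C.sum_pred _
  have h2 : C.wires = ∑ v, C.outDeg v := by
    have := C.sum_pred fun _ => 1
    simp only [sum_const, smul_eq_mul, mul_one] at this
    exact this
  have h3 : ∑ v, C.outDeg v * C.lam T v ≤ ∑ v, C.outDeg v + ∑ g ∈ univ \ T, C.leaves T g := by
    rw [Fintype.sum_sum_type, Fintype.sum_sum_type]
    have hinl : ∑ i, C.outDeg (Sum.inl i) * C.lam T (Sum.inl i) = ∑ i, C.outDeg (Sum.inl i) := by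
      refine sum_congr rfl fun i _ => ?_
      simp [Circuit.lam]
    have hinr : ∑ h, C.outDeg (Sum.inr h) * C.lam T (Sum.inr h)
        ≤ ∑ h, C.outDeg (Sum.inr h) + ∑ g ∈ univ \ T, C.leaves T g := by
      have : ∑ g ∈ univ \ T, C.leaves T g = ∑ g, if g ∈ T then 0 else C.leaves T g := by
        rw [← sum_subset (subset_univ (univ \ T))]
        · refine sum_congr rfl fun g hg => ?_
          simp only [mem_sdiff, mem_univ, true_and] at hg
          simp [hg]
        · intro g _ hg
          simp only [mem_sdiff, mem_univ, true_and, not_not] at hg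
          simp [hg]
      rw [this, ← sum_add_distrib]
      refine sum_le_sum fun h _ => ?_
      simp only [Circuit.lam]
      by_cases hT : h ∈ T
      · simp [hT]
      · by_cases h2 : 2 ≤ C.outDeg (Sum.inr h)
        · simp [hT, h2]
        · simp only [hT, h2, if_false]
          have : C.outDeg (Sum.inr h) ≤ 1 := by omega
          calc _ ≤ 1 * C.leaves T h := Nat.mul_le_mul_right _ this
            _ ≤ _ := by omega
    omega
  have h4 : ∑ g, C.leaves T g = ∑ g ∈ T, C.leaves T g + ∑ g ∈ univ \ T, C.leaves T g := by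
    rw [add_comm]
    exact (sum_sdiff (subset_univ T)).symm
  omega


/-- Khrapchenko's induction inside one tree. -/
theorem Circuit.local_bound (C : Circuit n) {q : ℕ} (hq : 1 ≤ q) (T : Finset (Fin C.size))
    (hT : ∀ h, h ∉ T → 2 ≤ C.outDeg (Sum.inr h) → C.DependsOnAtMost q (Sum.inr h))
    (g0 : Fin C.size) (m : ℕ) :
    ∀ u : Fin C.size, u.val = m → u ≤ g0 → ∀ A B : Finset (Fin n → Bool),
      (∀ a ∈ A, ∀ b ∈ B, ∀ t ∈ T, t < g0 → (C.gateVal a t ↔ C.gateVal b t)) →
      (∀ a ∈ A, ∀ b ∈ B, ¬ (C.gateVal a u ↔ C.gateVal b u)) →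
      edges A B ^ 2 ≤ q ^ 2 * C.leaves T u * A.card * B.card := by
  induction m using Nat.strong_induction_on with
  | _ m ih =>
    intro u hum hu A B hagree hsep
    -- bound for the predecessors of `u`
    have node : ∀ v ∈ C.pred u, ∀ A' B' : Finset (Fin n → Bool), A' ⊆ A → B' ⊆ B →
        (∀ a ∈ A', ∀ b ∈ B', ¬ (C.val a v ↔ C.val b v)) →
        edges A' B' ^ 2 ≤ q ^ 2 * C.lam T v * A'.card * B'.card := by
      intro v hv A' B' hA' hB' hs
      rcases v with i | h
      · have := edges_small C q (Sum.inl i) ⟨{i}, by simpa using hq, fun x y hxy => by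
          simp only [Circuit.val]
          rw [hxy i (by simp)]⟩ A' B' hs
        simpa [Circuit.lam] using this
      · have hlt : h < u := C.topo u h hv
        by_cases hhT : h ∈ T
        · -- constant on both sets
          rcases A'.eq_empty_or_nonempty with hA0 | ⟨a0, ha0⟩
          · subst hA0; simp [edges_empty_left]
          · rcases B'.eq_empty_or_nonempty with hB0 | ⟨b0, hb0⟩
            · subst hB0; simp [edges_empty_right]
            · exact (hs a0 ha0 b0 hb0 (hagree a0 (hA' ha0) b0 (hB' hb0) h hhT
                (lt_of_lt_of_le hlt hu))).elim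
        · by_cases h2 : 2 ≤ C.outDeg (Sum.inr h)
          · have := edges_small C q (Sum.inr h) (hT h hhT h2) A' B' hs
            simpa [Circuit.lam, hhT, h2] using this
          · have := ih h.val (by rw [← hum]; exact hlt) h rfl (hlt.le.trans hu) A' B'
              (fun a ha b hb t ht htg => hagree a (hA' ha) b (hB' hb) t ht htg) hs
            simpa [Circuit.lam, hhT, h2] using this
    rw [C.leaves_eq T u]
    -- the two helper statements
    have right : ∀ S : Fin n ⊕ Fin C.size → (Fin n → Bool) → Prop,
        (∀ v a b, S v a → ¬ S v b → ¬ (C.val a v ↔ C.val b v)) →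
        (∀ a ∈ A, ∀ v ∈ C.pred u, S v a) → (∀ b ∈ B, ∃ v ∈ C.pred u, ¬ S v b) →
        edges A B ^ 2 ≤ q ^ 2 * (∑ v ∈ C.pred u, C.lam T v) * A.card * B.card := by
      intro S hS hA hB
      refine edges_split_right (C.pred u) (q ^ 2) (C.lam T) A B (fun v b => ¬ S v b) hB ?_
      intro v hv B' hB' hR
      exact node v hv A B' (Subset.refl _) hB' fun a ha b hb => hS v a b (hA a ha v hv) (hR b hb)
    have left : ∀ S : Fin n ⊕ Fin C.size → (Fin n → Bool) → Prop,
        (∀ v a b, S v a → ¬ S v b → ¬ (C.val a v ↔ C.val b v)) →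
        (∀ b ∈ B, ∀ v ∈ C.pred u, S v b) → (∀ a ∈ A, ∃ v ∈ C.pred u, ¬ S v a) →
        edges A B ^ 2 ≤ q ^ 2 * (∑ v ∈ C.pred u, C.lam T v) * A.card * B.card := by
      intro S hS hB hA
      refine edges_split_left (C.pred u) (q ^ 2) (C.lam T) A B (fun v a => ¬ S v a) hA ?_
      intro v hv A' hA' hR
      exact node v hv A' B hA' (Subset.refl _) fun a ha b hb h =>
        hS v b a (hB b hb v hv) (hR a ha) h.symm
    rcases A.eq_empty_or_nonempty with hA0 | ⟨a0, ha0⟩
    · subst hA0; simp [edges_empty_left]
    rcases B.eq_empty_or_nonempty with hB0 | ⟨b0, hb0⟩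
    · subst hB0; simp [edges_empty_right]
    have hpos : ∀ v a b, C.val a v → ¬ C.val b v → ¬ (C.val a v ↔ C.val b v) :=
      fun v a b h1 h2 h => h2 (h.1 h1)
    have hneg : ∀ v a b, ¬ C.val a v → ¬ ¬ C.val b v → ¬ (C.val a v ↔ C.val b v) :=
      fun v a b h1 h2 h => h2 fun h3 => h1 (h.2 h3)
    by_cases hval : C.gateVal a0 u
    · -- true on `A`, false on `B`
      have hB : ∀ b ∈ B, ¬ C.gateVal b u := fun b hb h =>
        hsep a0 ha0 b hb ⟨fun _ => h, fun _ => hval⟩
      have hA : ∀ a ∈ A, C.gateVal a u := fun a ha => by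
        by_contra h
        exact hsep a ha b0 hb0 ⟨fun h' => (h h').elim, fun h' => (hB b0 hb0 h').elim⟩
      rcases hk : C.kind u with _ | _ | _
      · refine right (fun v a => C.val a v) hpos (fun a ha => (C.gateVal_and a u hk).1 (hA a ha))
          fun b hb => ?_
        have := hB b hb
        rw [C.gateVal_and b u hk] at this
        push Not at this
        exact this
      · refine left (fun v a => ¬ C.val a v) hneg (fun b hb => ?_) fun a ha => ?_
        · have := hB b hb
          rw [C.gateVal_or b u hk] at this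
          push Not at this
          exact this
        · obtain ⟨v, hv, h⟩ := (C.gateVal_or a u hk).1 (hA a ha)
          exact ⟨v, hv, fun h' => h' h⟩
      · refine right (fun v a => ¬ C.val a v) hneg
          (fun a ha => (C.gateVal_not a u hk).1 (hA a ha)) fun b hb => ?_
        have := hB b hb
        rw [C.gateVal_not b u hk] at this
        push Not at this
        obtain ⟨v, hv, h⟩ := this
        exact ⟨v, hv, fun h' => h' h⟩
    · -- false on `A`, true on `B`
      have hB : ∀ b ∈ B, C.gateVal b u := fun b hb => by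
        by_contra h
        exact hsep a0 ha0 b hb ⟨fun h' => (hval h').elim, fun h' => (h h').elim⟩
      have hA : ∀ a ∈ A, ¬ C.gateVal a u := fun a ha h =>
        hsep a ha b0 hb0 ⟨fun _ => hB b0 hb0, fun _ => h⟩
      rcases hk : C.kind u with _ | _ | _
      · refine left (fun v a => C.val a v) hpos (fun b hb => (C.gateVal_and b u hk).1 (hB b hb))
          fun a ha => ?_
        have := hA a ha
        rw [C.gateVal_and a u hk] at this
        push Not at this
        exact this
      · refine right (fun v a => ¬ C.val a v) hneg (fun a ha => ?_) fun b hb => ?_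
        · have := hA a ha
          rw [C.gateVal_or a u hk] at this
          push Not at this
          exact this
        · obtain ⟨v, hv, h⟩ := (C.gateVal_or b u hk).1 (hB b hb)
          exact ⟨v, hv, fun h' => h' h⟩
      · refine left (fun v a => ¬ C.val a v) hneg
          (fun b hb => (C.gateVal_not b u hk).1 (hB b hb)) fun a ha => ?_
        have := hA a ha
        rw [C.gateVal_not a u hk] at this
        push Not at this
        obtain ⟨v, hv, h⟩ := this
        exact ⟨v, hv, fun h' => h' h⟩

/-- The cube edges whose first changing gate of `T` is `t`. -/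
theorem Circuit.charged (C : Circuit n) {q : ℕ} (hq : 1 ≤ q) (T : Finset (Fin C.size))
    (hT : ∀ h, h ∉ T → 2 ≤ C.outDeg (Sum.inr h) → C.DependsOnAtMost q (Sum.inr h))
    (t : Fin C.size) (A B : Finset (Fin n → Bool))
    (E : Finset ((Fin n → Bool) × Fin n))
    (hE : ∀ p ∈ E, p.1 ∈ A ∧ flip p.1 p.2 ∈ B ∧
      (∀ t' ∈ T, t' < t → (C.gateVal p.1 t' ↔ C.gateVal (flip p.1 p.2) t')) ∧
      ¬ (C.gateVal p.1 t ↔ C.gateVal (flip p.1 p.2) t)) :
    E.card ^ 2 ≤ q ^ 2 * C.leaves T t * A.card * B.card := by
  classical
  let cls : (Fin n → Bool) → Finset (Fin C.size) := fun x =>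
    T.filter fun t' => t' < t ∧ C.gateVal x t'
  let bit : (Fin n → Bool) → Bool := fun x => decide (C.gateVal x t)
  let keyA : (Fin n → Bool) → Finset (Fin C.size) × Bool := fun x => (cls x, bit x)
  let keyB : (Fin n → Bool) → Finset (Fin C.size) × Bool := fun x => (cls x, !(bit x))
  have hsum : E.card ≤ ∑ κ : Finset (Fin C.size) × Bool,
      edges (A.filter fun a => keyA a = κ) (B.filter fun b => keyB b = κ) := by
    unfold edges
    refine le_trans (card_le_card ?_) card_biUnion_le
    intro p hp
    obtain ⟨h1, h2, h3, h4⟩ := hE p hp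
    simp only [mem_biUnion, mem_univ, true_and, mem_filter, mem_product, and_true]
    refine ⟨keyA p.1, ⟨h1, rfl⟩, h2, ?_⟩
    have hc : cls (flip p.1 p.2) = cls p.1 := by
      refine filter_congr fun t' ht' => ?_
      constructor
      · rintro ⟨hlt, hv⟩
        exact ⟨hlt, (h3 t' ht' hlt).2 hv⟩
      · rintro ⟨hlt, hv⟩
        exact ⟨hlt, (h3 t' ht' hlt).1 hv⟩
    have hb : (!(bit (flip p.1 p.2))) = bit p.1 := by
      simp only [bit]
      by_cases hh : C.gateVal p.1 t
      · have : ¬ C.gateVal (flip p.1 p.2) t := fun h => h4 ⟨fun _ => h, fun _ => hh⟩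
        simp [hh, this]
      · have : C.gateVal (flip p.1 p.2) t := by
          by_contra h
          exact h4 ⟨fun h' => (hh h').elim, fun h' => (h h').elim⟩
        simp [hh, this]
    change (cls (flip p.1 p.2), !(bit (flip p.1 p.2))) = (cls p.1, bit p.1)
    rw [hc, hb]
  have hcA : ∑ κ : Finset (Fin C.size) × Bool, (A.filter fun a => keyA a = κ).card = A.card :=
    (card_eq_sum_card_fiberwise fun a _ => mem_univ (keyA a)).symm
  have hcB : ∑ κ : Finset (Fin C.size) × Bool, (B.filter fun b => keyB b = κ).card = B.card :=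
    (card_eq_sum_card_fiberwise fun b _ => mem_univ (keyB b)).symm
  calc E.card ^ 2 ≤ (∑ κ : Finset (Fin C.size) × Bool,
      edges (A.filter fun a => keyA a = κ) (B.filter fun b => keyB b = κ)) ^ 2 :=
        Nat.pow_le_pow_left hsum 2
    _ ≤ (∑ κ : Finset (Fin C.size) × Bool,
          q ^ 2 * C.leaves T t * (A.filter fun a => keyA a = κ).card) *
        ∑ κ : Finset (Fin C.size) × Bool, (B.filter fun b => keyB b = κ).card := by
        refine sum_sq_le_sum_mul_sum_of_sq_le_mul _ (fun _ _ => Nat.zero_le _)
          (fun _ _ => Nat.zero_le _) fun κ _ => ?_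
        refine C.local_bound hq T hT t t.val t rfl le_rfl _ _ ?_ ?_
        · intro a ha b hb t' ht' hlt
          simp only [mem_filter] at ha hb
          have h1 : cls a = cls b := by
            have e1 : cls a = κ.1 := congrArg Prod.fst ha.2
            have e2 : cls b = κ.1 := congrArg Prod.fst hb.2
            rw [e1, e2]
          have h2 : t' ∈ cls a ↔ t' ∈ cls b := by rw [h1]
          simp only [cls, mem_filter, ht', hlt, true_and] at h2
          exact h2
        · intro a ha b hb h
          simp only [mem_filter] at ha hb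
          have e1 : bit a = κ.2 := congrArg Prod.snd ha.2
          have e2 : (!(bit b)) = κ.2 := congrArg Prod.snd hb.2
          have e3 : bit a = bit b := by simp only [bit, h]
          rw [e3] at e1
          rw [← e1] at e2
          revert e2
          cases bit b <;> simp
    _ = q ^ 2 * C.leaves T t * A.card * B.card := by
        rw [hcB, ← mul_sum, hcA]

/-- Khrapchenko's inequality for circuits with sharing. -/
theorem Circuit.khrapchenko_sharing (C : Circuit n) {q : ℕ} (hq : 1 ≤ q) (o : Fin C.size)
    (A B : Finset (Fin n → Bool))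
    (hsep : ∀ a ∈ A, ∀ b ∈ B, ¬ (C.gateVal a o ↔ C.gateVal b o)) :
    edges A B ^ 2 ≤ q ^ 2 * (C.bigShared q + 1) * C.wires * A.card * B.card := by
  classical
  let T : Finset (Fin C.size) := insert o (univ.filter fun g : Fin C.size =>
    2 ≤ C.outDeg (Sum.inr g) ∧ ¬ C.DependsOnAtMost q (Sum.inr g))
  have hT : ∀ h, h ∉ T → 2 ≤ C.outDeg (Sum.inr h) → C.DependsOnAtMost q (Sum.inr h) := by
    intro h hh h2
    by_contra hc
    exact hh (mem_insert_of_mem (by simp [h2, hc]))
  have hcard : T.card ≤ C.bigShared q + 1 := by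
    refine (card_insert_le _ _).trans ?_
    unfold Circuit.bigShared
    exact le_of_eq (by congr)
  let E : Fin C.size → Finset ((Fin n → Bool) × Fin n) := fun t =>
    (A ×ˢ (univ : Finset (Fin n))).filter fun p => flip p.1 p.2 ∈ B ∧
      (∀ t' ∈ T, t' < t → (C.gateVal p.1 t' ↔ C.gateVal (flip p.1 p.2) t')) ∧
      ¬ (C.gateVal p.1 t ↔ C.gateVal (flip p.1 p.2) t)
  have hE : ∀ t, (E t).card ^ 2 ≤ q ^ 2 * C.leaves T t * A.card * B.card := by
    intro t
    refine C.charged hq T hT t A B (E t) fun p hp => ?_
    simp only [E, mem_filter, mem_product, mem_univ, and_true] at hp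
    exact ⟨hp.1, hp.2.1, hp.2.2.1, hp.2.2.2⟩
  have hsum : edges A B ≤ ∑ t ∈ T, (E t).card := by
    unfold edges
    refine le_trans (card_le_card ?_) card_biUnion_le
    intro p hp
    simp only [mem_filter, mem_product, mem_univ, and_true] at hp
    -- the first changing gate
    have hne : (T.filter fun t => ¬ (C.gateVal p.1 t ↔ C.gateVal (flip p.1 p.2) t)).Nonempty := by
      refine ⟨o, ?_⟩
      simp only [mem_filter]
      exact ⟨mem_insert_self _ _, hsep _ hp.1 _ hp.2⟩
    obtain ⟨t, ht, hmin⟩ := (T.filter fun t =>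
      ¬ (C.gateVal p.1 t ↔ C.gateVal (flip p.1 p.2) t)).exists_minimal hne
    simp only [mem_filter] at ht
    refine mem_biUnion.2 ⟨t, ht.1, ?_⟩
    simp only [E, mem_filter, mem_product, mem_univ, and_true]
    refine ⟨hp.1, hp.2, ?_, ht.2⟩
    intro t' ht' hlt
    by_contra hc
    have := hmin (mem_filter.2 ⟨ht', hc⟩) hlt.le
    exact absurd hlt (not_lt.2 this)
  calc edges A B ^ 2 ≤ (∑ t ∈ T, (E t).card) ^ 2 := Nat.pow_le_pow_left hsum 2
    _ ≤ T.card * ∑ t ∈ T, (E t).card ^ 2 := sq_sum_le_card_mul_sum_sq
    _ ≤ T.card * ∑ t ∈ T, q ^ 2 * C.leaves T t * A.card * B.card :=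
        Nat.mul_le_mul_left _ (sum_le_sum fun t _ => hE t)
    _ = T.card * (q ^ 2 * (∑ t ∈ T, C.leaves T t) * A.card * B.card) := by
        rw [← sum_mul, ← sum_mul, ← mul_sum]
    _ ≤ (C.bigShared q + 1) * (q ^ 2 * C.wires * A.card * B.card) := by
        refine Nat.mul_le_mul hcard ?_
        refine Nat.mul_le_mul_right _ (Nat.mul_le_mul_right _ ?_)
        exact Nat.mul_le_mul_left _ (C.sum_leaves_le T)
    _ = q ^ 2 * (C.bigShared q + 1) * C.wires * A.card * B.card := by ring

/-- number of ones -/
def ones (x : Fin n → Bool) : ℕ := (univ.filter fun i => x i = true).card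

theorem odd_ones_flip (x : Fin n → Bool) (i : Fin n) : Odd (ones (flip x i)) ↔ ¬ Odd (ones x) := by
  have key : ∀ y : Fin n → Bool, y i = false → ones (flip y i) = ones y + 1 := by
    intro y hy
    unfold ones
    have : (univ.filter fun j => flip y i j = true) = insert i (univ.filter fun j => y j = true) := by
      ext j
      simp only [mem_filter, mem_univ, true_and, mem_insert]
      by_cases hj : j = i
      · subst hj
        simp [flip_same, hy]
      · simp [flip_ne y hj, hj]
    rw [this, card_insert_of_notMem]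
    simp [hy]
  cases hx : x i with
  | false =>
    rw [key x hx, Nat.odd_add_one]
  | true =>
    have h1 : flip x i i = false := by rw [flip_same, hx]; rfl
    have h2 := key (flip x i) h1
    rw [flip_flip] at h2
    rw [h2, Nat.odd_add_one, not_not]

/-- Main theorem: a circuit over `∧, ∨, ¬` with `W` wires computing the parity of `n ≥ 2` bits
satisfies `n² ≤ q² (r + 1) W` for every `q ≥ 1`, where `r` is the number of gates of out-degree at
least two whose value depends on more than `q` inputs. -/
theorem result (n : ℕ) (hn : 2 ≤ n) (q : ℕ) (hq : 1 ≤ q) (C : Circuit n)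
    (hC : C.ComputesParity) :
    n ^ 2 ≤ q ^ 2 * (C.bigShared q + 1) * C.wires := by
  classical
  let i0 : Fin n := ⟨0, by omega⟩
  let i1 : Fin n := ⟨1, by omega⟩
  have hC' : ∀ x, C.val x C.out ↔ Odd (ones x) := hC
  -- the output is a gate
  obtain ⟨o, ho⟩ : ∃ o, C.out = Sum.inr o := by
    rcases h : C.out with i | o
    · exfalso
      obtain ⟨j, hj⟩ : ∃ j : Fin n, i ≠ j := by
        by_cases hi : i = i0
        · exact ⟨i1, by rw [hi]; simp [i0, i1]⟩
        · exact ⟨i0, hi⟩
      have h1 := hC' (fun _ => false)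
      have h2 := hC' (flip (fun _ => false) j)
      rw [odd_ones_flip, ← h1] at h2
      rw [h] at h2
      simp only [Circuit.val] at h2
      rw [flip_ne _ hj] at h2
      simp at h2
    · exact ⟨o, rfl⟩
  have hgo : ∀ x, C.gateVal x o ↔ Odd (ones x) := by
    intro x
    have := hC' x
    rw [ho] at this
    exact this
  let A : Finset (Fin n → Bool) := univ.filter fun x => Odd (ones x)
  let B : Finset (Fin n → Bool) := univ.filter fun x => ¬ Odd (ones x)
  have hkey := C.khrapchenko_sharing hq o A B (by
    intro a ha b hb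
    simp only [A, B, mem_filter, mem_univ, true_and] at ha hb
    rw [hgo, hgo]
    tauto)
  have hAB : A.card = B.card := by
    refine Finset.card_nbij' (fun x => flip x i0) (fun x => flip x i0) ?_ ?_ ?_ ?_
    · intro x hx
      simp only [A, B, coe_filter, mem_univ, true_and, Set.mem_ofPred_eq] at hx ⊢
      rw [odd_ones_flip]
      simpa using hx
    · intro x hx
      simp only [A, B, coe_filter, mem_univ, true_and, Set.mem_ofPred_eq] at hx ⊢
      rw [odd_ones_flip]
      simpa using hx
    · intro x _; simp [flip_flip]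
    · intro x _; simp [flip_flip]
  have hedges : edges A B = A.card * n := by
    unfold edges
    rw [filter_true_of_mem, card_product, card_univ, Fintype.card_fin]
    intro p hp
    simp only [mem_product, mem_univ, and_true] at hp
    simp only [A, B, mem_filter, mem_univ, true_and] at hp ⊢
    rw [odd_ones_flip]
    simpa using hp
  have hpos : 0 < A.card := by
    refine card_pos.2 ⟨flip (fun _ => false) i0, ?_⟩
    simp only [A, mem_filter, mem_univ, true_and]
    rw [odd_ones_flip]
    simp [ones]
  rw [hedges, ← hAB] at hkey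
  have h2 : n ^ 2 * (A.card ^ 2) ≤ (q ^ 2 * (C.bigShared q + 1) * C.wires) * (A.card ^ 2) := by
    calc n ^ 2 * (A.card ^ 2) = (A.card * n) ^ 2 := by ring
      _ ≤ q ^ 2 * (C.bigShared q + 1) * C.wires * A.card * A.card := hkey
      _ = _ := by ring
  exact Nat.le_of_mul_le_mul_right h2 (by positivity)

end Pool.Agent.Results.MP_22d2c8_lc.ParityFewShared
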