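import Pool.Agent.Lib_MP_22d2c8_lc.Kraft

/-!
# Bounding the number of restricted functions, and circuits with plugged gates
-/

namespace Pool.Agent.Lib_MP_22d2c8_lc

open Finset

section count

variable {n s : ℕ} {Y ρ : Type} (C : Circuit n s) (rank : Fin n ⊕ Fin s → ℕ)
  (A : Finset (Fin s)) (reach : Fin n ⊕ Fin s → Prop) (F : ρ → Fin n ⊕ Fin s → Y → Bool)

open Classical in
/-- The gates whose functions are recorded. -/
noncomputable def recQ : Finset (Fin s) :=
  (cutG C A).filter (fun h => h ∈ A ∨ C.out = Sum.inr h ∨ reach (Sum.inr h))

open Classical in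
/-- The recorded functions. -/
noncomputable def record (r : ρ) : Fin s → Option (Y → Bool) :=
  fun g => if g ∈ recQ C A reach then some (opFun C F r g) else none

open Classical in
/-- The number of wires leaving reachable inputs. -/
noncomputable def ellR : ℕ :=
  ∑ i ∈ Finset.univ.filter (fun i : Fin n => reach (Sum.inl i)), C.outdeg (Sum.inl i)

open Classical in
/-- The number of wires leaving reachable reused gates outside `A`. -/
noncomputable def sharR : ℕ :=
  ∑ h ∈ (C.reused \ A).filter (fun h => reach (Sum.inr h)), C.outdeg (Sum.inr h)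

theorem count_record [Nonempty Y]
    (hrank : ∀ g, ∀ u ∈ (C.op g).preds, rank u < rank (Sum.inr g))
    (hrankinj : ∀ g g' : Fin s, rank (Sum.inr g) = rank (Sum.inr g') → g = g')
    (hunreach : ∀ r v, ¬ reach v → IsConst (F r v))
    (hinl : ∀ i, reach (Sum.inl i) → ∀ r r', F r (Sum.inl i) = F r' (Sum.inl i))
    (hA : ∀ g ∈ A, ∀ r r', F r (Sum.inr g) = F r' (Sum.inr g))
    (hAc : ∀ g ∈ A, ∀ r, IsConst (F r (Sum.inr g)))
    (hgate : ∀ r, ∀ g ∉ A, F r (Sum.inr g) = opFun C F r g)
    (R : Finset ρ) [DecidableEq (Fin s → Option (Y → Bool))] :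
    (R.image (record C A reach F)).card ≤
      2 ^ (ellR C reach + sharR C A reach + A.card + 2) := by
  classical
  set cut := cutG C A with hcut
  set Q := recQ C A reach with hQdef
  let w : ρ → Fin n ⊕ Fin s → ℕ := fun r u => if IsConst (F r u) then 0 else 1
  have hex : ∀ r, ∃ c : Fin n ⊕ Fin s → ℕ, ∀ g, c (Sum.inr g) =
      ∑ u ∈ (C.op g).preds, if leafV cut u = true then w r u else c u :=
    fun r => exists_wcost C.op rank hrank cut (w r)
  choose κ hκ using hex
  have hw : ∀ r u, ¬ IsConst (F r u) → w r u = 1 := by
    intro r u h
    simp only [w]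
    rw [if_neg h]
  have hAcut : A ⊆ cut := by
    intro g hg
    simp only [hcut, cutG, Finset.mem_filter, Finset.mem_univ, true_and]
    exact Or.inr (Or.inl hg)
  have hQ : ∀ h ∈ cut, h ∉ A → reach (Sum.inr h) → h ∈ Q := by
    intro h hh _ hr
    exact Finset.mem_filter.mpr ⟨hh, Or.inr (Or.inr hr)⟩
  have hcut1 : ∀ g, g ∉ cut → C.outdeg (Sum.inr g) ≤ 1 := by
    intro g hg
    by_contra hcon
    apply hg
    simp only [hcut, cutG, Finset.mem_filter, Finset.mem_univ, true_and]
    left
    simp only [Circuit.reused, Finset.mem_filter, Finset.mem_univ, true_and]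
    omega
  -- the exponent
  have hE : ∀ r, ∑ g ∈ Q, (κ r (Sum.inr g) + cst C F r g) ≤
      ellR C reach + sharR C A reach + A.card + 2 := by
    intro r
    have h1 := sum_wcost_le C cut hcut1 (w r) (κ r) (hκ r)
    rw [Fintype.sum_sum_type] at h1
    have h2 : ∑ g ∈ Q, κ r (Sum.inr g) ≤ ∑ g ∈ cut, κ r (Sum.inr g) :=
      Finset.sum_le_sum_of_subset (Finset.filter_subset _ _)
    have h3 : ∑ i : Fin n, C.outdeg (Sum.inl i) *
        (if leafV (n := n) cut (Sum.inl i) = true then w r (Sum.inl i) else 0) ≤
          ellR C reach := by
      unfold ellR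
      rw [Finset.sum_filter]
      apply Finset.sum_le_sum
      intro i _
      simp only [leafV, if_true]
      by_cases hi : reach (Sum.inl i)
      · rw [if_pos hi]
        simp only [w]
        split_ifs <;> simp
      · rw [if_neg hi]
        simp only [w]
        rw [if_pos (hunreach r _ hi)]
        simp
    have h4 : ∑ h : Fin s, C.outdeg (Sum.inr h) *
        (if leafV (n := n) cut (Sum.inr h) = true then w r (Sum.inr h) else 0) +
        ∑ g ∈ Q, cst C F r g ≤ sharR C A reach + A.card + 2 := by
      have h5 : ∑ g ∈ Q, cst C F r g = ∑ g : Fin s, if g ∈ Q then cst C F r g else 0 := by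
        rw [← Finset.sum_filter]
        congr 1
        ext g; simp
      have h6 : sharR C A reach = ∑ h : Fin s,
          if h ∈ C.reused \ A ∧ reach (Sum.inr h) then C.outdeg (Sum.inr h) else 0 := by
        unfold sharR
        rw [← Finset.sum_filter]
        congr 1
        ext g; simp
      have h7 : A.card = ∑ h : Fin s, if h ∈ A then 1 else 0 := by
        rw [← Finset.sum_filter]
        simp
      have h8 : ∑ h : Fin s, (if C.out = Sum.inr h then 2 else 0) ≤ 2 := by
        rcases hout : C.out with i | g
        · simp
        · simp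
      rw [h5, h6, h7]
      have h9 : ∀ h ∈ (Finset.univ : Finset (Fin s)), C.outdeg (Sum.inr h) *
          (if leafV (n := n) cut (Sum.inr h) = true then w r (Sum.inr h) else 0) +
          (if h ∈ Q then cst C F r h else 0) ≤
          ((if h ∈ C.reused \ A ∧ reach (Sum.inr h) then C.outdeg (Sum.inr h) else 0) +
          (if h ∈ A then 1 else 0)) + (if C.out = Sum.inr h then 2 else 0) := by
        intro h _
        have hcst : cst C F r h ≤ 1 := by
          unfold cst; split_ifs <;> omega
        have hwle : w r (Sum.inr h) ≤ 1 := by
          simp only [w]; split_ifs <;> omega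
        have hX1 : (if leafV (n := n) cut (Sum.inr h) = true then w r (Sum.inr h) else 0) ≤
            w r (Sum.inr h) := by split_ifs <;> omega
        have hX2 : (if h ∈ Q then cst C F r h else 0) ≤ cst C F r h := by split_ifs <;> omega
        have hX10 : h ∉ cut →
            (if leafV (n := n) cut (Sum.inr h) = true then w r (Sum.inr h) else 0) = 0 := by
          intro hh
          simp [leafV, hh]
        have hX20 : h ∉ Q → (if h ∈ Q then cst C F r h else 0) = 0 := fun hh => if_neg hh
        have hY1 : h ∈ C.reused \ A ∧ reach (Sum.inr h) →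
            (if h ∈ C.reused \ A ∧ reach (Sum.inr h) then C.outdeg (Sum.inr h) else 0) =
              C.outdeg (Sum.inr h) := fun hh => if_pos hh
        have hY2 : h ∈ A → (if h ∈ A then 1 else 0) = 1 := fun hh => if_pos hh
        have hY3 : C.out = Sum.inr h → (if C.out = Sum.inr h then 2 else 0) = 2 :=
          fun hh => if_pos hh
        have hwA : h ∈ A → w r (Sum.inr h) = 0 := by
          intro hh
          simp only [w]; rw [if_pos (hAc h hh r)]
        have hwR : ¬ reach (Sum.inr h) → w r (Sum.inr h) = 0 := by
          intro hh
          simp only [w]; rw [if_pos (hunreach r _ hh)]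
        have hwc : h ∉ A → w r (Sum.inr h) + cst C F r h = 1 := by
          intro hh
          simp only [w, cst]
          rw [hgate r h hh]
          split_ifs <;> omega
        have hod : h ∈ C.reused ↔ 2 ≤ C.outdeg (Sum.inr h) := by
          simp [Circuit.reused]
        have hcutm : h ∈ cut ↔ (h ∈ C.reused ∨ h ∈ A ∨ C.out = Sum.inr h) := by
          simp only [hcut, cutG, Finset.mem_filter, Finset.mem_univ, true_and]
        have hQm : h ∈ Q ↔ (h ∈ cut ∧ (h ∈ A ∨ C.out = Sum.inr h ∨ reach (Sum.inr h))) := by
          rw [hQdef]; unfold recQ; rw [Finset.mem_filter]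
        generalize (if leafV (n := n) cut (Sum.inr h) = true then w r (Sum.inr h) else 0) = X1 at *
        generalize (if h ∈ Q then cst C F r h else 0) = X2 at *
        generalize (if h ∈ C.reused \ A ∧ reach (Sum.inr h) then C.outdeg (Sum.inr h) else 0) = Y1
          at *
        generalize (if h ∈ A then 1 else 0) = Y2 at *
        generalize (if C.out = Sum.inr h then 2 else 0) = Y3 at *
        rw [Finset.mem_sdiff] at hY1
        generalize w r (Sum.inr h) = W at *
        generalize cst C F r h = K at *
        generalize C.outdeg (Sum.inr h) = O at *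
        by_cases hhA : h ∈ A
        · have h1 := hwA hhA
          have h2 := hY2 hhA
          have h3 : X1 = 0 := by omega
          rw [h3]
          omega
        · have h1 := hwc hhA
          by_cases hreu : h ∈ C.reused
          · have h2 := hod.mp hreu
            by_cases hr : reach (Sum.inr h)
            · have h3 := hY1 ⟨⟨hreu, hhA⟩, hr⟩
              have h4 : W = 0 ∨ W = 1 := by omega
              rcases h4 with h4 | h4
              · have h5 : X1 = 0 := by omega
                rw [h5]
                omega
              · have h5 : O * X1 ≤ O * 1 := Nat.mul_le_mul_left _ (by omega)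
                omega
            · have h3 := hwR hr
              have h4 : X1 = 0 := by omega
              rw [h4]
              by_cases hout : C.out = Sum.inr h
              · have h5 := hY3 hout
                omega
              · have h5 : h ∉ Q := by
                  rw [hQm]
                  rintro ⟨_, h6 | h6 | h6⟩
                  · exact hhA h6
                  · exact hout h6
                  · exact hr h6
                have h6 := hX20 h5
                omega
          · have h2 : O ≤ 1 := by
              by_contra hcon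
              exact hreu (hod.mpr (by omega))
            by_cases hout : C.out = Sum.inr h
            · have h3 := hY3 hout
              have h4 : O * X1 ≤ 1 * 1 := Nat.mul_le_mul h2 (by omega)
              omega
            · have hncut : h ∉ cut := by
                rw [hcutm]
                rintro (h6 | h6 | h6)
                · exact hreu h6
                · exact hhA h6
                · exact hout h6
              have hnQ : h ∉ Q := fun hq => hncut (hQm.mp hq).1
              have h3 := hX10 hncut
              have h4 := hX20 hnQ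
              rw [h3, h4]
              omega
      have h10 := Finset.sum_le_sum h9
      simp only [Finset.sum_add_distrib] at h10
      omega
    rw [Finset.sum_add_distrib]
    omega
  -- choose representatives
  obtain ⟨J, hJ⟩ : ∃ J, ∀ g : Fin s, rank (Sum.inr g) < J := by
    refine ⟨(Finset.univ.sup (fun g : Fin s => rank (Sum.inr g))) + 1, fun g => ?_⟩
    exact Nat.lt_succ_of_le (Finset.le_sup (f := fun g : Fin s => rank (Sum.inr g))
      (Finset.mem_univ g))
  have hrec : rec_ C rank Q F J = record C A reach F := by
    funext r g
    unfold rec_ record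
    by_cases hg : g ∈ Q
    · rw [if_pos ⟨hg, hJ g⟩, if_pos hg]
    · rw [if_neg (fun h => hg h.1), if_neg hg]
  have hrep : ∀ φ ∈ R.image (record C A reach F), ∃ r ∈ R, record C A reach F r = φ := by
    intro φ hφ
    exact Finset.mem_image.mp hφ
  rcases R.eq_empty_or_nonempty with rfl | ⟨r1, _⟩
  · simp
  have : Nonempty ρ := ⟨r1⟩
  choose! rep hrepR hrepφ using hrep
  set T := (R.image (record C A reach F)).image rep with hT
  have hTcard : T.card = (R.image (record C A reach F)).card := by
    apply Finset.card_image_of_injOn
    intro a ha b hb hab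
    rw [← hrepφ a (Finset.mem_coe.mp ha), ← hrepφ b (Finset.mem_coe.mp hb), hab]
  have hTinj : Set.InjOn (rec_ C rank Q F J) T := by
    intro a ha b hb hab
    obtain ⟨φ, hφ, rfl⟩ := Finset.mem_image.mp (Finset.mem_coe.mp ha)
    obtain ⟨ψ, hψ, rfl⟩ := Finset.mem_image.mp (Finset.mem_coe.mp hb)
    rw [hrec, hrepφ φ hφ, hrepφ ψ hψ] at hab
    rw [hab]
  have hk := kraft C rank cut A Q reach F hrank hrankinj hAcut hQ hunreach hinl hA hgate κ w hw hκ
    J T hTinj
  have hwt : ∀ r ∈ T, (1 / 2 : ℝ) ^ (ellR C reach + sharR C A reach + A.card + 2) ≤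
      wt C rank Q F κ J r := by
    intro r _
    unfold wt
    have : Q.filter (fun g => rank (Sum.inr g) < J) = Q := by
      apply Finset.filter_true_of_mem
      intro g _
      exact hJ g
    rw [this, Finset.prod_pow_eq_pow_sum]
    exact pow_le_pow_of_le_one (by norm_num) (by norm_num) (hE r)
  have h1 := Finset.card_nsmul_le_sum T _ _ hwt
  rw [nsmul_eq_mul] at h1
  have h2 : (T.card : ℝ) * (1 / 2 : ℝ) ^ (ellR C reach + sharR C A reach + A.card + 2) ≤ 1 :=
    h1.trans hk
  rw [← hTcard]
  have h3 : (T.card : ℝ) ≤ 2 ^ (ellR C reach + sharR C A reach + A.card + 2) := by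
    rw [one_div, inv_pow] at h2
    have hpos : (0 : ℝ) < 2 ^ (ellR C reach + sharR C A reach + A.card + 2) := by positivity
    rwa [← div_eq_mul_inv, div_le_one hpos] at h2
  exact_mod_cast h3

end count

section plug

variable {n s : ℕ} (C : Circuit n s) (A : Finset (Fin s))

/-- Values of all vertices when the gates of `A` are replaced by given values. -/
theorem exists_plug (x : Fin n → Bool) (α : Fin s → Bool) :
    ∃ a : Fin n ⊕ Fin s → Bool, (∀ j, a (Sum.inl j) = x j) ∧ (∀ g ∈ A, a (Sum.inr g) = α g) ∧
      (∀ g ∉ A, a (Sum.inr g) = (C.op g).eval a) := by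
  classical
  obtain ⟨rank, hrank⟩ := C.acyclic
  let G : (v : Fin n ⊕ Fin s) → ((u : Fin n ⊕ Fin s) → rank u < rank v → Bool) → Bool :=
    fun v ih => match v, ih with
      | Sum.inl j, _ => x j
      | Sum.inr g, ih => if g ∈ A then α g else
          (C.op g).eval (fun u => if h : rank u < rank (Sum.inr g) then ih u h else false)
  let a := WellFounded.fix (measure rank).wf G
  have ha : ∀ v, a v = G v (fun u _ => a u) := by
    intro v
    exact WellFounded.fix_eq _ _ _
  have heval : ∀ (o : Op (Fin n ⊕ Fin s)) (b b' : Fin n ⊕ Fin s → Bool),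
      (∀ u ∈ o.preds, b u = b' u) → o.eval b = o.eval b' := by
    intro o b b' hb
    cases o with
    | and u v => simp only [Op.eval]; rw [hb u (by simp [Op.preds]), hb v (by simp [Op.preds])]
    | or u v => simp only [Op.eval]; rw [hb u (by simp [Op.preds]), hb v (by simp [Op.preds])]
    | not u => simp only [Op.eval]; rw [hb u (by simp [Op.preds])]
  refine ⟨a, ?_, ?_, ?_⟩
  · intro j
    rw [ha]
  · intro g hg
    rw [ha]
    simp only [G]
    rw [if_pos hg]
  · intro g hg
    rw [ha]
    simp only [G]
    rw [if_neg hg]
    apply heval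
    intro u hu
    rw [dif_pos (hrank g u hu)]

/-- Two assignments that agree on inputs and satisfy the same equations below a vertex agree. -/
theorem eval_unique (x : Fin n → Bool) (a b : Fin n ⊕ Fin s → Bool)
    (ha1 : ∀ j, a (Sum.inl j) = x j) (hb1 : ∀ j, b (Sum.inl j) = x j)
    (h : ∀ g, (a (Sum.inr g) = (C.op g).eval a ∧ b (Sum.inr g) = (C.op g).eval b) ∨
      a (Sum.inr g) = b (Sum.inr g)) : a = b := by
  classical
  obtain ⟨rank, hrank⟩ := C.acyclic
  have key : ∀ (m : ℕ) (v : Fin n ⊕ Fin s), rank v = m → a v = b v := by
    intro m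
    induction m using Nat.strong_induction_on with
    | _ m ih =>
      intro v hv
      rcases v with j | g
      · rw [ha1, hb1]
      · rcases h g with ⟨h1, h2⟩ | h1
        · rw [h1, h2]
          have hp : ∀ u ∈ (C.op g).preds, a u = b u := by
            intro u hu
            exact ih (rank u) (by have := hrank g u hu; omega) u rfl
          cases hop : C.op g with
          | and u v =>
            rw [hop] at hp
            simp only [Op.eval]
            rw [hp u (by simp [Op.preds]), hp v (by simp [Op.preds])]
          | or u v =>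
            rw [hop] at hp
            simp only [Op.eval]
            rw [hp u (by simp [Op.preds]), hp v (by simp [Op.preds])]
          | not u =>
            rw [hop] at hp
            simp only [Op.eval]
            rw [hp u (by simp [Op.preds])]
        · exact h1
  funext v
  exact key (rank v) v rfl

/-- There is an injective topological numbering. -/
theorem exists_inj_rank : ∃ rank : Fin n ⊕ Fin s → ℕ,
    (∀ g, ∀ u ∈ (C.op g).preds, rank u < rank (Sum.inr g)) ∧
    (∀ g g' : Fin s, rank (Sum.inr g) = rank (Sum.inr g') → g = g') := by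
  obtain ⟨rank, hrank⟩ := C.acyclic
  let idx : Fin n ⊕ Fin s → ℕ := fun v => match v with
    | Sum.inl _ => 0
    | Sum.inr g => g.val
  have hidx : ∀ v, idx v ≤ s := by
    intro v
    rcases v with j | g
    · exact Nat.zero_le _
    · exact g.isLt.le
  refine ⟨fun v => rank v * (s + 1) + idx v, ?_, ?_⟩
  · intro g u hu
    have h1 := hrank g u hu
    have h2 := hidx u
    simp only
    have h3 : (rank u + 1) * (s + 1) ≤ rank (Sum.inr g) * (s + 1) :=
      Nat.mul_le_mul_right _ h1
    have h4 : (rank u + 1) * (s + 1) = rank u * (s + 1) + (s + 1) := by ring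
    omega
  · intro g g' h
    simp only at h
    have h2 : g.val < s + 1 := by have := g.isLt; omega
    have h3 : g'.val < s + 1 := by have := g'.isLt; omega
    have h4 : (rank (Sum.inr g) * (s + 1) + g.val) % (s + 1) = g.val := by
      rw [Nat.mul_comm, Nat.mul_add_mod, Nat.mod_eq_of_lt h2]
    have h5 : (rank (Sum.inr g') * (s + 1) + g'.val) % (s + 1) = g'.val := by
      rw [Nat.mul_comm, Nat.mul_add_mod, Nat.mod_eq_of_lt h3]
    apply Fin.ext
    rw [← h4, ← h5]
    exact congrArg (· % (s + 1)) h

end plug

end Pool.Agent.Lib_MP_22d2c8_lc
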