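import Pool.Agent.Lib_MP_22d2c8_lc.SharingDefs

/-!
# Evaluating the explicit function on structured inputs
-/

namespace Pool.Agent.Lib_MP_22d2c8_lc

open Finset

/-- The structured input. -/
def xin (n L e p W0 t u v : ℕ) (r : ℕ → Bool) : Fin n → Bool := fun i =>
  if i.val < L then e.testBit i.val
  else if i.val < 2 * L then t.testBit (i.val - L)
  else if i.val < 2 * L + e then p.testBit (i.val - 2 * L)
  else if 2 * L + e + 2 * e * t ≤ i.val ∧ i.val < 2 * L + e + 2 * e * t + e then
    u.testBit (i.val - (2 * L + e + 2 * e * t))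
  else if 2 * L + e + 2 * e * t + e ≤ i.val ∧ i.val < 2 * L + e + 2 * e * t + 2 * e then
    v.testBit (i.val - (2 * L + e + 2 * e * t + e))
  else if W0 ≤ i.val then r (i.val - W0) else false

theorem sum_testBit (a l : ℕ) :
    (∑ j ∈ Finset.range l, if a.testBit j = true then 2 ^ j else 0) = a % 2 ^ l := by
  induction l with
  | zero => simp [Nat.mod_one]
  | succ l ih =>
    rw [Finset.sum_range_succ, ih]
    have h1 : a % 2 ^ (l + 1) = a % 2 ^ l + 2 ^ l * (a / 2 ^ l % 2) := by
      rw [pow_succ, Nat.mod_mul]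
    rw [h1]
    congr 1
    rw [Nat.testBit_eq_decide_div_mod_eq]
    by_cases h : a / 2 ^ l % 2 = 1
    · simp [h]
    · have : a / 2 ^ l % 2 = 0 := by omega
      simp [this]

theorem num_eq {n : ℕ} (x : Fin n → Bool) (a l c : ℕ) (hc : c < 2 ^ l)
    (h : ∀ j < l, bitAt x (a + j) = c.testBit j) : num x a l = c := by
  unfold num
  rw [← Nat.mod_eq_of_lt hc, ← sum_testBit c l]
  apply Finset.sum_congr rfl
  intro j hj
  rw [h j (Finset.mem_range.mp hj)]

/-- The polynomial of the table. -/
def tabPoly (W0 n : ℕ) (r : ℕ → Bool) (u : ℕ) : ℕ :=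
  ∑ i ∈ Finset.Ico W0 n, if r (i - W0) = true then u ^ i else 0

theorem selPoly_xin {n L e p W0 t m u v : ℕ} {r : ℕ → Bool} (hL : L = Nat.log 2 n + 1)
    (hW0 : W0 = 2 * L + e + 2 * e * m) (hW0n : W0 ≤ n) (htm : t < m) (he : e < 2 ^ L)
    (ht : t < 2 ^ L) (hp : p < 2 ^ e) (hu : u < 2 ^ e) (hv : v < 2 ^ e) :
    selPoly (xin n L e p W0 t u v r) = decide (v % p = tabPoly W0 n r u % p) := by
  set x := xin n L e p W0 t u v r with hx
  have hmt : 2 * e * t + 2 * e ≤ 2 * e * m := by
    calc 2 * e * t + 2 * e = 2 * e * (t + 1) := by ring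
      _ ≤ 2 * e * m := Nat.mul_le_mul_left _ htm
  have hLn : 2 * L + e + 2 * e * t + 2 * e ≤ n := by omega
  have hbit : ∀ i, (hi : i < n) → bitAt x i = x ⟨i, hi⟩ := by
    intro i hi
    unfold bitAt
    rw [dif_pos hi]
  have h1 : num x 0 L = e := by
    apply num_eq x 0 L e he
    intro j hj
    rw [zero_add, hbit j (by omega)]
    simp only [hx, xin]
    rw [if_pos hj]
  have h2 : num x L L = t := by
    apply num_eq x L L t ht
    intro j hj
    rw [hbit (L + j) (by omega)]
    simp only [hx, xin]
    rw [if_neg (by omega), if_pos (by omega)]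
    congr 1
    omega
  have h3 : num x (2 * L) e = p := by
    apply num_eq x (2 * L) e p hp
    intro j hj
    rw [hbit (2 * L + j) (by omega)]
    simp only [hx, xin]
    rw [if_neg (by omega), if_neg (by omega), if_pos (by omega)]
    congr 1
    omega
  have h4 : num x (2 * L + e + 2 * e * t) e = u := by
    apply num_eq x _ e u hu
    intro j hj
    rw [hbit (2 * L + e + 2 * e * t + j) (by omega)]
    simp only [hx, xin]
    rw [if_neg (by omega), if_neg (by omega), if_neg (by omega), if_pos (by omega)]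
    congr 1
    omega
  have h5 : num x (2 * L + e + 2 * e * t + e) e = v := by
    apply num_eq x _ e v hv
    intro j hj
    rw [hbit (2 * L + e + 2 * e * t + e + j) (by omega)]
    simp only [hx, xin]
    rw [if_neg (by omega), if_neg (by omega), if_neg (by omega), if_neg (by omega),
      if_pos (by omega)]
    congr 1
    omega
  have h6 : (∑ i ∈ Finset.Ico (2 * L + e + 2 * e * t + 2 * e) n,
      if bitAt x i = true then u ^ i else 0) = tabPoly W0 n r u := by
    unfold tabPoly
    have hsub : Finset.Ico W0 n ⊆ Finset.Ico (2 * L + e + 2 * e * t + 2 * e) n := by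
      apply Finset.Ico_subset_Ico_left
      omega
    rw [← Finset.sum_subset hsub]
    · apply Finset.sum_congr rfl
      intro i hi
      obtain ⟨hi1, hi2⟩ := Finset.mem_Ico.mp hi
      have hxi : x ⟨i, hi2⟩ = r (i - W0) := by
        simp only [hx, xin]
        rw [if_neg (by omega), if_neg (by omega), if_neg (by omega), if_neg (by omega),
          if_neg (by omega), if_pos (by omega)]
      rw [hbit i hi2, hxi]
    · intro i hi hni
      obtain ⟨hi1, hi2⟩ := Finset.mem_Ico.mp hi
      have hi3 : ¬ W0 ≤ i := by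
        intro h
        exact hni (Finset.mem_Ico.mpr ⟨h, hi2⟩)
      have hxi : x ⟨i, hi2⟩ = false := by
        simp only [hx, xin]
        rw [if_neg (by omega), if_neg (by omega), if_neg (by omega), if_neg (by omega),
          if_neg (by omega), if_neg hi3]
      rw [hbit i hi2, hxi]
      simp
  unfold selPoly
  simp only [← hL, h1, h2, h3, h4, h5, h6]

open Polynomial in
/-- Two different tables give polynomials that agree at fewer than `n` points. -/
theorem tab_unique {n W0 p : ℕ} (hp : p.Prime) {r r' : ℕ → Bool} (U : Finset ℕ)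
    (hU : ∀ u ∈ U, u < p) (hUn : n ≤ U.card)
    (h : ∀ u ∈ U, tabPoly W0 n r u % p = tabPoly W0 n r' u % p) :
    ∀ j, W0 + j < n → r j = r' j := by
  have : Fact p.Prime := ⟨hp⟩
  let f : (ℕ → Bool) → (ZMod p)[X] := fun r =>
    ∑ i ∈ Finset.Ico W0 n, if r (i - W0) = true then X ^ i else 0
  have hcoeff : ∀ (r : ℕ → Bool) (i : ℕ), W0 ≤ i → i < n →
      (f r).coeff i = if r (i - W0) = true then 1 else 0 := by
    intro r i hi1 hi2
    simp only [f, Polynomial.finsetSum_coeff]
    rw [Finset.sum_eq_single i]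
    · split_ifs <;> simp
    · intro j _ hj
      split_ifs
      · rw [Polynomial.coeff_X_pow, if_neg (Ne.symm hj)]
      · simp
    · intro hi
      exact absurd (Finset.mem_Ico.mpr ⟨hi1, hi2⟩) hi
  have hdeg : ∀ r, (f r).degree < n := by
    intro r
    rcases Nat.eq_zero_or_pos n with hn | hn
    · subst hn
      simp [f]
    · refine lt_of_le_of_lt (Polynomial.degree_sum_le _ _) ?_
      rw [Finset.sup_lt_iff (by exact WithBot.bot_lt_coe n)]
      intro i hi
      obtain ⟨_, hi2⟩ := Finset.mem_Ico.mp hi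
      split_ifs
      · rw [Polynomial.degree_X_pow]
        exact_mod_cast hi2
      · rw [Polynomial.degree_zero]
        exact WithBot.bot_lt_coe n
  have heval : ∀ (r : ℕ → Bool) (u : ℕ), (f r).eval (u : ZMod p) = ((tabPoly W0 n r u : ℕ) : ZMod p) := by
    intro r u
    simp only [f, tabPoly, Polynomial.eval_finsetSum]
    rw [Nat.cast_sum]
    apply Finset.sum_congr rfl
    intro i _
    split_ifs <;> simp
  have hinj : Set.InjOn (fun u : ℕ => (u : ZMod p)) U := by
    intro a ha b hb hab
    simp only at hab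
    rw [ZMod.natCast_eq_natCast_iff, Nat.ModEq, Nat.mod_eq_of_lt (hU a ha),
      Nat.mod_eq_of_lt (hU b hb)] at hab
    exact hab
  have hcard : (U.image (fun u : ℕ => (u : ZMod p))).card = U.card :=
    Finset.card_image_of_injOn hinj
  have heq : f r = f r' := by
    apply eq_of_degree_sub_lt_of_eval_finset_eq (U.image (fun u : ℕ => (u : ZMod p)))
    · rw [hcard]
      refine lt_of_lt_of_le ?_ (show ((n : ℕ) : WithBot ℕ) ≤ (U.card : ℕ) by exact_mod_cast hUn)
      refine lt_of_le_of_lt (Polynomial.degree_sub_le _ _) ?_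
      exact max_lt (hdeg r) (hdeg r')
    · intro x hx
      obtain ⟨u, hu, rfl⟩ := Finset.mem_image.mp hx
      rw [heval, heval, ZMod.natCast_eq_natCast_iff]
      exact h u hu
  intro j hj
  have h1 := hcoeff r (W0 + j) (by omega) hj
  have h2 := hcoeff r' (W0 + j) (by omega) hj
  rw [heq, h2] at h1
  have h3 : W0 + j - W0 = j := by omega
  rw [h3] at h1
  cases hr : r j <;> cases hr' : r' j <;> simp [hr, hr'] at h1 ⊢

end Pool.Agent.Lib_MP_22d2c8_lc
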