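import Pool.Agent.Lib_MP_22d2c8_lc.Plug
import Pool.Agent.Lib_MP_22d2c8_lc.SelPoly

/-!
# The sharing budget theorem
-/

namespace Pool.Agent.Lib_MP_22d2c8_lc

open Finset

section block

variable {n s : ℕ} (C : Circuit n s) (A : Finset (Fin s))

/-- Reachable from an input whose index lies in `[a, b)`. -/
def reachI (a b : ℕ) (v : Fin n ⊕ Fin s) : Prop :=
  ∃ i : Fin n, (a ≤ i.val ∧ i.val < b) ∧ Relation.ReflTransGen C.Wire (Sum.inl i) v

theorem reachI_inl {a b : ℕ} {i : Fin n} (h : reachI C a b (Sum.inl i)) :
    a ≤ i.val ∧ i.val < b := by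
  obtain ⟨j, hj, hr⟩ := h
  rcases (Relation.ReflTransGen.cases_tail_iff _ _ _).mp hr with h1 | ⟨_, _, g, hg, _⟩
  · cases h1
    exact hj
  · cases hg

theorem reachI_pred {a b : ℕ} {g : Fin s} {u : Fin n ⊕ Fin s} (hu : u ∈ (C.op g).preds)
    (h : reachI C a b u) : reachI C a b (Sum.inr g) := by
  obtain ⟨j, hj, hr⟩ := h
  exact ⟨j, hj, hr.tail ⟨g, rfl, hu⟩⟩

theorem block_count (hC : C.Computes selPoly) {L e p W0 t m : ℕ} (hL : L = Nat.log 2 n + 1)
    (hW0 : W0 = 2 * L + e + 2 * e * m) (hW0n : W0 ≤ n) (htm : t < m) (he : e < 2 ^ L)
    (ht : t < 2 ^ L) (hpe : p < 2 ^ e) (hp : p.Prime) (hpn : n * 2 ^ A.card ≤ p) :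
    n - W0 ≤ ellR C (reachI C (2 * L + e + 2 * e * t) (2 * L + e + 2 * e * t + 2 * e)) +
      sharR C A (reachI C (2 * L + e + 2 * e * t) (2 * L + e + 2 * e * t + 2 * e)) +
      2 * A.card + 2 := by
  classical
  set base := 2 * L + e + 2 * e * t with hbase
  set reach := reachI C base (base + 2 * e) with hreach
  -- the tables
  let tb : (Fin (n - W0) → Bool) → ℕ → Bool := fun r j => if h : j < n - W0 then r ⟨j, h⟩ else false
  let xx : (Fin (n - W0) → Bool) → ℕ × ℕ → Fin n → Bool :=
    fun r y => xin n L e p W0 t y.1 y.2 (tb r)
  have hn0 : 0 < n := by omega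
  have hp0 : 0 < p := hp.pos
  choose val hval using hC
  choose plug hplug using (fun (x : Fin n → Bool) (α : Fin s → Bool) => exists_plug C A x α)
  let F : (Fin s → Bool) → (Fin (n - W0) → Bool) → Fin n ⊕ Fin s → ℕ × ℕ → Bool :=
    fun α r v y => plug (xx r y) α v
  obtain ⟨rank, hrank, hrankinj⟩ := exists_inj_rank C
  -- facts about F
  have hxx_out : ∀ r y y' (i : Fin n), ¬ (base ≤ i.val ∧ i.val < base + 2 * e) →
      xx r y i = xx r y' i := by
    intro r y y' i hi
    simp only [xx, xin]
    split_ifs with h1 h2 h3 h4 h5 h6
    · rfl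
    · rfl
    · rfl
    · exact absurd ⟨h4.1, by omega⟩ hi
    · exact absurd ⟨by omega, h5.2⟩ hi
    · rfl
    · rfl
  have hmt : 2 * e * t + 2 * e ≤ 2 * e * m := by
    calc 2 * e * t + 2 * e = 2 * e * (t + 1) := by ring
      _ ≤ 2 * e * m := Nat.mul_le_mul_left _ htm
  have hxx_in : ∀ r r' y (i : Fin n), (base ≤ i.val ∧ i.val < base + 2 * e) →
      xx r y i = xx r' y i := by
    intro r r' y i hi
    simp only [xx, xin]
    rw [if_neg (show ¬ i.val < L by omega), if_neg (show ¬ i.val < 2 * L by omega),
      if_neg (show ¬ i.val < 2 * L + e by omega), if_neg (show ¬ i.val < L by omega),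
      if_neg (show ¬ i.val < 2 * L by omega), if_neg (show ¬ i.val < 2 * L + e by omega)]
    by_cases h1 : i.val < base + e
    · rw [if_pos ⟨hi.1, h1⟩, if_pos ⟨hi.1, h1⟩]
    · have h2 : ¬ (2 * L + e + 2 * e * t ≤ i.val ∧ i.val < 2 * L + e + 2 * e * t + e) := by
        rw [← hbase]; omega
      have h3 : 2 * L + e + 2 * e * t + e ≤ i.val ∧ i.val < 2 * L + e + 2 * e * t + 2 * e := by
        rw [← hbase]; omega
      rw [if_neg h2, if_neg h2, if_pos h3, if_pos h3]
  have hFin : ∀ α r i y, F α r (Sum.inl i) y = xx r y i := fun α r i y => (hplug _ α).1 i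
  have hFA : ∀ α r, ∀ g ∈ A, ∀ y, F α r (Sum.inr g) y = α g :=
    fun α r g hg y => (hplug _ α).2.1 g hg
  have hFg : ∀ α r, ∀ g ∉ A, F α r (Sum.inr g) = opFun C (F α) r g := by
    intro α r g hg
    funext y
    exact (hplug (xx r y) α).2.2 g hg
  have hunreach : ∀ α r v, ¬ reach v → IsConst (F α r v) := by
    intro α r
    have key : ∀ (k : ℕ) (v : Fin n ⊕ Fin s), rank v = k → ¬ reach v →
        ∀ y y', F α r v y = F α r v y' := by
      intro k
      induction k using Nat.strong_induction_on with
      | _ k ih =>
        intro v hv hnr y y'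
        rcases v with i | g
        · rw [hFin, hFin]
          apply hxx_out
          intro hi
          exact hnr ⟨i, hi, Relation.ReflTransGen.refl⟩
        · by_cases hg : g ∈ A
          · rw [hFA α r g hg, hFA α r g hg]
          · rw [hFg α r g hg]
            have hpr : ∀ u ∈ (C.op g).preds, F α r u y = F α r u y' := by
              intro u hu
              have := hrank g u hu
              exact ih (rank u) (by omega) u rfl (fun h => hnr (reachI_pred C hu h)) y y'
            simp only [opFun]
            cases hop : C.op g with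
            | and u v =>
              rw [hop] at hpr
              simp only [Op.eval]
              rw [hpr u (by simp [Op.preds]), hpr v (by simp [Op.preds])]
            | or u v =>
              rw [hop] at hpr
              simp only [Op.eval]
              rw [hpr u (by simp [Op.preds]), hpr v (by simp [Op.preds])]
            | not u =>
              rw [hop] at hpr
              simp only [Op.eval]
              rw [hpr u (by simp [Op.preds])]
    intro v hv
    exact ⟨F α r v (0, 0), fun y => key (rank v) v rfl hv y (0, 0)⟩
  have hcount : ∀ α, ((Finset.univ : Finset (Fin (n - W0) → Bool)).image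
      (record C A reach (F α))).card ≤ 2 ^ (ellR C reach + sharR C A reach + A.card + 2) := by
    intro α
    apply count_record C rank A reach (F α) hrank hrankinj (hunreach α)
    · intro i hi r r'
      funext y
      rw [hFin, hFin]
      exact hxx_in r r' y i (reachI_inl C hi)
    · intro g hg r r'
      funext y
      rw [hFA α r g hg, hFA α r' g hg]
    · intro g hg r
      exact ⟨α g, fun y => hFA α r g hg y⟩
    · intro r g hg
      exact hFg α r g hg
  -- evaluation of the function
  have hfun : ∀ r (u v : ℕ), u < p → v < p → (selPoly (xx r (u, v)) = true ↔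
      v % p = tabPoly W0 n (tb r) u % p) := by
    intro r u v hu hv
    have := selPoly_xin (r := tb r) hL hW0 hW0n htm he ht hpe (hu.trans hpe) (hv.trans hpe)
    simp only [xx]
    rw [this, decide_eq_true_eq]
  -- the good points of a table
  let yy : (Fin (n - W0) → Bool) → ℕ → ℕ × ℕ := fun r u => (u, tabPoly W0 n (tb r) u % p)
  let β : (Fin (n - W0) → Bool) → ℕ → Fin s → Bool :=
    fun r u g => if g ∈ A then val (xx r (yy r u)) (Sum.inr g) else false
  let 𝒜 : Finset (Fin s → Bool) := A.powerset.image (fun B => fun g => decide (g ∈ B))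
  have h𝒜 : 𝒜.card ≤ 2 ^ A.card := by
    refine Finset.card_image_le.trans ?_
    rw [Finset.card_powerset]
  have hβ : ∀ r, ∀ u ∈ Finset.range p, β r u ∈ 𝒜 := by
    intro r u _
    rw [Finset.mem_image]
    refine ⟨A.filter (fun g => val (xx r (yy r u)) (Sum.inr g) = true),
      Finset.mem_powerset.mpr (Finset.filter_subset _ _), ?_⟩
    funext g
    simp only [β, Finset.mem_filter]
    by_cases hg : g ∈ A
    · simp [hg]
    · simp [hg]
  have hpig : ∀ r, ∃ α ∈ 𝒜, n ≤ ((Finset.range p).filter (fun u => β r u = α)).card := by
    intro r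
    apply Finset.exists_le_card_fiber_of_mul_le_card_of_maps_to (hβ r)
    · exact ⟨_, hβ r 0 (Finset.mem_range.mpr hp0)⟩
    · rw [Finset.card_range]
      calc 𝒜.card * n ≤ 2 ^ A.card * n := Nat.mul_le_mul_right _ h𝒜
        _ = n * 2 ^ A.card := Nat.mul_comm _ _
        _ ≤ p := hpn
  choose αr hαr𝒜 hαrn using hpig
  -- the plugged values agree with the true values at good points
  have hagree : ∀ r u, plug (xx r (yy r u)) (β r u) = val (xx r (yy r u)) := by
    intro r u
    apply eval_unique C (xx r (yy r u)) _ _ (hplug _ _).1 (hval _).1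
    intro g
    by_cases hg : g ∈ A
    · right
      rw [(hplug _ _).2.1 g hg]
      simp only [β]
      rw [if_pos hg]
    · left
      exact ⟨(hplug _ _).2.2 g hg, (hval _).2.1 g⟩
  -- injectivity
  have hinj : Function.Injective (fun r => (αr r, record C A reach (F (αr r)) r)) := by
    intro r r' hrr'
    obtain ⟨hα, hrec⟩ := Prod.ext_iff.mp hrr'
    simp only at hα hrec
    rw [← hα] at hrec
    set α := αr r with hαdef
    have hrecg : ∀ g ∈ recQ C A reach, opFun C (F α) r g = opFun C (F α) r' g := by
      intro g hg
      have h1 := congrFun hrec g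
      unfold record at h1
      rw [if_pos hg, if_pos hg] at h1
      exact Option.some_injective _ h1
    have hAQ : ∀ g ∈ A, g ∈ recQ C A reach := by
      intro g hg
      unfold recQ
      rw [Finset.mem_filter]
      refine ⟨?_, Or.inl hg⟩
      simp only [cutG, Finset.mem_filter, Finset.mem_univ, true_and]
      exact Or.inr (Or.inl hg)
    -- key: for good `u` the two polynomials agree
    have key : ∀ u ∈ (Finset.range p).filter (fun u => β r u = α),
        tabPoly W0 n (tb r) u % p = tabPoly W0 n (tb r') u % p := by
      intro u hu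
      obtain ⟨hup, hβu⟩ := Finset.mem_filter.mp hu
      rw [Finset.mem_range] at hup
      set y := yy r u with hy
      have hy2 : y.2 < p := Nat.mod_lt _ hp0
      have hag : plug (xx r y) α = val (xx r y) := by
        rw [← hβu]; exact hagree r u
      have htrue : selPoly (xx r y) = true := by
        have := (hfun r u (tabPoly W0 n (tb r) u % p) hup (Nat.mod_lt _ hp0)).mpr
          (Nat.mod_mod _ _)
        exact this
      have hout : F α r C.out y = true := by
        show plug (xx r y) α C.out = true
        rw [hag, (hval _).2.2, htrue]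
      have hgA : ∀ g ∈ A, opFun C (F α) r g y = α g := by
        intro g hg
        show (C.op g).eval (plug (xx r y) α) = α g
        rw [hag, ← (hval (xx r y)).2.1 g, ← hag]
        exact (hplug _ _).2.1 g hg
      have hgA' : ∀ g ∈ A, opFun C (F α) r' g y = α g := by
        intro g hg
        rw [← hrecg g (hAQ g hg)]
        exact hgA g hg
      have hag' : plug (xx r' y) α = val (xx r' y) := by
        apply eval_unique C (xx r' y) _ _ (hplug _ _).1 (hval _).1
        intro g
        left
        refine ⟨?_, (hval _).2.1 g⟩
        by_cases hg : g ∈ A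
        · rw [(hplug _ _).2.1 g hg]
          exact (hgA' g hg).symm
        · exact (hplug _ _).2.2 g hg
      have hout' : F α r' C.out y = true := by
        rcases hco : C.out with i | g
        · rw [hco] at hout
          rw [hFin] at hout ⊢
          by_cases hi : base ≤ i.val ∧ i.val < base + 2 * e
          · rw [← hout]
            exact hxx_in r' r y i hi
          · -- the function does not depend on the block: contradiction
            exfalso
            have h1 : ∀ v, v < p → selPoly (xx r (u, v)) = true := by
              intro v _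
              rw [← (hval (xx r (u, v))).2.2, hco, (hval (xx r (u, v))).1,
                hxx_out r (u, v) y i hi]
              exact hout
            have hp2 := hp.two_le
            have h2 := (hfun r u 0 hup hp0).mp (h1 0 hp0)
            have h3 := (hfun r u 1 hup (by omega)).mp (h1 1 (by omega))
            rw [← h2, Nat.zero_mod, Nat.mod_eq_of_lt (by omega)] at h3
            omega
        · have hgQ : g ∈ recQ C A reach := by
            unfold recQ
            rw [Finset.mem_filter]
            refine ⟨?_, Or.inr (Or.inl hco)⟩
            simp only [cutG, Finset.mem_filter, Finset.mem_univ, true_and]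
            exact Or.inr (Or.inr hco)
          rw [hco] at hout
          by_cases hg : g ∈ A
          · rw [hFA α r' g hg]
            rw [hFA α r g hg] at hout
            exact hout
          · rw [hFg α r' g hg, ← hrecg g hgQ, ← hFg α r g hg]
            exact hout
      have htrue' : selPoly (xx r' y) = true := by
        rw [← (hval (xx r' y)).2.2, ← hag']
        exact hout'
      have h1 := (hfun r' u (tabPoly W0 n (tb r) u % p) hup (Nat.mod_lt _ hp0)).mp htrue'
      rw [Nat.mod_mod] at h1
      exact h1
    have htab := tab_unique hp ((Finset.range p).filter (fun u => β r u = α))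
      (fun u hu => Finset.mem_range.mp (Finset.mem_filter.mp hu).1) (hαrn r) key
    funext j
    have h1 := htab j.val (by have := j.isLt; omega)
    simp only [tb] at h1
    rw [dif_pos j.isLt, dif_pos j.isLt] at h1
    exact h1
  -- counting
  have hle : 2 ^ (n - W0) ≤ 2 ^ A.card * 2 ^ (ellR C reach + sharR C A reach + A.card + 2) := by
    have h1 : (Finset.univ : Finset (Fin (n - W0) → Bool)).card ≤
        (𝒜.biUnion (fun α => ((Finset.univ : Finset (Fin (n - W0) → Bool)).image
          (record C A reach (F α))).image (fun φ => (α, φ)))).card := by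
      apply Finset.card_le_card_of_injOn (fun r => (αr r, record C A reach (F (αr r)) r))
      · intro r _
        rw [Finset.mem_coe, Finset.mem_biUnion]
        exact ⟨αr r, hαr𝒜 r, Finset.mem_image_of_mem _
          (Finset.mem_image_of_mem _ (Finset.mem_univ r))⟩
      · exact hinj.injOn
    have h2 : (𝒜.biUnion (fun α => ((Finset.univ : Finset (Fin (n - W0) → Bool)).image
          (record C A reach (F α))).image (fun φ => (α, φ)))).card ≤
        𝒜.card * 2 ^ (ellR C reach + sharR C A reach + A.card + 2) := by
      apply Finset.card_biUnion_le_card_mul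
      intro α _
      exact Finset.card_image_le.trans (hcount α)
    have h3 : (Finset.univ : Finset (Fin (n - W0) → Bool)).card = 2 ^ (n - W0) := by
      rw [Finset.card_univ, Fintype.card_fun, Fintype.card_bool, Fintype.card_fin]
    rw [← h3]
    exact h1.trans (h2.trans (Nat.mul_le_mul_right _ h𝒜))
  rw [← pow_add] at hle
  have := (Nat.pow_le_pow_iff_right (by norm_num : 1 < 2)).mp hle
  omega

end block

end Pool.Agent.Lib_MP_22d2c8_lc
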