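import Pool.Agent.Lib_MP_22d2c8_lc.Circuit

/-!
# The sharing budget of a circuit, and an explicit function
-/

namespace Pool.Agent.Lib_MP_22d2c8_lc

namespace Circuit

variable {n s : ℕ}

/-- There is a wire from `u` to `v`. -/
def Wire (C : Circuit n s) (u v : Fin n ⊕ Fin s) : Prop :=
  ∃ g, v = Sum.inr g ∧ u ∈ (C.op g).preds

open Classical in
/-- The inputs from which there is a path to the gate `g`. -/
noncomputable def inputsBelow (C : Circuit n s) (g : Fin s) : Finset (Fin n) :=
  Finset.univ.filter (fun i => Relation.ReflTransGen C.Wire (Sum.inl i) (Sum.inr g))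

open Classical in
/-- The number of wires leaving reused gates that are not in `A` and depend on more than `q`
inputs. -/
noncomputable def sharing (C : Circuit n s) (A : Finset (Fin s)) (q : ℕ) : ℕ :=
  ∑ g ∈ (C.reused \ A).filter (fun g => q < (C.inputsBelow g).card), C.outdeg (Sum.inr g)

end Circuit

/-- The `i`-th bit of `x` (false if `i` is out of range). -/
def bitAt {n : ℕ} (x : Fin n → Bool) (i : ℕ) : Bool := if h : i < n then x ⟨i, h⟩ else false

/-- The number whose binary digits (least significant first) are the `l` bits of `x` that start at
position `a`. -/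
def num {n : ℕ} (x : Fin n → Bool) (a l : ℕ) : ℕ :=
  ∑ j ∈ Finset.range l, if bitAt x (a + j) = true then 2 ^ j else 0

/-- The explicit function. Put `L = ⌊log₂ n⌋ + 1`. The input `x` starts with numbers `e` and `t` of
`L` bits each and a number `p` of `e` bits; then come blocks of `2 e` bits. The block number `t`
consists of two numbers `u`, `v` of `e` bits. The value is 1 if `v` is congruent modulo `p` to the
value at `u` of the polynomial whose coefficients are the bits of `x` after this block. -/
def selPoly {n : ℕ} (x : Fin n → Bool) : Bool :=
  let L := Nat.log 2 n + 1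
  let e := num x 0 L
  let t := num x L L
  let p := num x (2 * L) e
  let base := 2 * L + e + 2 * e * t
  let u := num x base e
  let v := num x (base + e) e
  decide (v % p = (∑ i ∈ Finset.Ico (base + 2 * e) n, if bitAt x i = true then u ^ i else 0) % p)

end Pool.Agent.Lib_MP_22d2c8_lc
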