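import Pool.Agent.Lib_MP_22d2c8_lc.Sharing

/-!
# The sharing budget theorem: summing over the blocks
-/

namespace Pool.Agent.Lib_MP_22d2c8_lc

open Finset

section sum

variable {n s : ℕ} (C : Circuit n s) (A : Finset (Fin s))

theorem sum_outdeg_le : ∑ i : Fin n, C.outdeg (Sum.inl i) + ∑ h : Fin s, C.outdeg (Sum.inr h) ≤
    2 * s := by
  classical
  have h1 : ∑ u : Fin n ⊕ Fin s, C.outdeg u = ∑ g : Fin s, (C.op g).preds.card := by
    unfold Circuit.outdeg
    have h2 : ∀ u : Fin n ⊕ Fin s, (Finset.univ.filter (fun g : Fin s => u ∈ (C.op g).preds)).card =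
        ∑ g : Fin s, if u ∈ (C.op g).preds then 1 else 0 := by
      intro u
      rw [Finset.card_filter]
    rw [Finset.sum_congr rfl (fun u _ => h2 u), Finset.sum_comm]
    apply Finset.sum_congr rfl
    intro g _
    rw [← Finset.card_filter]
    congr 1
    ext u
    simp
  rw [← Fintype.sum_sum_type (fun u => C.outdeg u), h1]
  calc ∑ g : Fin s, (C.op g).preds.card ≤ ∑ _g : Fin s, 2 :=
        Finset.sum_le_sum (fun g _ => card_preds_le (C.op g))
    _ = 2 * s := by simp [mul_comm]

theorem sum_blocks (q : ℕ) (hq : 1 ≤ q) (a e m : ℕ) :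
    ∑ t ∈ Finset.range m, (ellR C (reachI C (a + 2 * e * t) (a + 2 * e * t + 2 * e)) +
      sharR C A (reachI C (a + 2 * e * t) (a + 2 * e * t + 2 * e))) ≤
      m * C.sharing A q + q * (2 * s) := by
  classical
  have hdisj : ∀ (i t t' : ℕ), (a + 2 * e * t ≤ i ∧ i < a + 2 * e * t + 2 * e) →
      (a + 2 * e * t' ≤ i ∧ i < a + 2 * e * t' + 2 * e) → t = t' := by
    intro i t t' h h'
    by_contra hne
    rcases Nat.lt_or_gt_of_ne hne with hlt | hlt
    · have : 2 * e * (t + 1) ≤ 2 * e * t' := Nat.mul_le_mul_left _ hlt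
      have h2 : 2 * e * (t + 1) = 2 * e * t + 2 * e := by ring
      omega
    · have : 2 * e * (t' + 1) ≤ 2 * e * t := Nat.mul_le_mul_left _ hlt
      have h2 : 2 * e * (t' + 1) = 2 * e * t' + 2 * e := by ring
      omega
  have h1 : ∑ t ∈ Finset.range m, ellR C (reachI C (a + 2 * e * t) (a + 2 * e * t + 2 * e)) ≤
      ∑ i : Fin n, C.outdeg (Sum.inl i) := by
    unfold ellR
    have h2 : ∀ t ∈ Finset.range m, (∑ i ∈ Finset.univ.filter (fun i : Fin n =>
        reachI C (a + 2 * e * t) (a + 2 * e * t + 2 * e) (Sum.inl i)), C.outdeg (Sum.inl i)) =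
        ∑ i : Fin n, if reachI C (a + 2 * e * t) (a + 2 * e * t + 2 * e) (Sum.inl i) then
          C.outdeg (Sum.inl i) else 0 := by
      intro t _
      rw [Finset.sum_filter]
    rw [Finset.sum_congr rfl h2, Finset.sum_comm]
    apply Finset.sum_le_sum
    intro i _
    rw [← Finset.sum_filter, Finset.sum_const, smul_eq_mul]
    have h3 : ((Finset.range m).filter (fun t =>
        reachI C (a + 2 * e * t) (a + 2 * e * t + 2 * e) (Sum.inl i))).card ≤ 1 := by
      rw [Finset.card_le_one]
      intro t ht t' ht'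
      exact hdisj i.val t t' (reachI_inl C (Finset.mem_filter.mp ht).2)
        (reachI_inl C (Finset.mem_filter.mp ht').2)
    calc _ ≤ 1 * C.outdeg (Sum.inl i) := Nat.mul_le_mul_right _ h3
      _ = C.outdeg (Sum.inl i) := one_mul _
  have h4 : ∑ t ∈ Finset.range m, sharR C A (reachI C (a + 2 * e * t) (a + 2 * e * t + 2 * e)) ≤
      m * C.sharing A q + q * ∑ h : Fin s, C.outdeg (Sum.inr h) := by
    unfold sharR
    have h5 : ∀ t ∈ Finset.range m, (∑ h ∈ (C.reused \ A).filter (fun h =>
        reachI C (a + 2 * e * t) (a + 2 * e * t + 2 * e) (Sum.inr h)), C.outdeg (Sum.inr h)) =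
        ∑ h ∈ C.reused \ A, if reachI C (a + 2 * e * t) (a + 2 * e * t + 2 * e) (Sum.inr h) then
          C.outdeg (Sum.inr h) else 0 := by
      intro t _
      rw [Finset.sum_filter]
    rw [Finset.sum_congr rfl h5, Finset.sum_comm]
    have h6 : ∀ h : Fin s, ((Finset.range m).filter (fun t =>
        reachI C (a + 2 * e * t) (a + 2 * e * t + 2 * e) (Sum.inr h))).card ≤
        (C.inputsBelow h).card := by
      intro h
      have hex : ∀ t ∈ (Finset.range m).filter (fun t =>
          reachI C (a + 2 * e * t) (a + 2 * e * t + 2 * e) (Sum.inr h)),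
          ∃ i : Fin n, (a + 2 * e * t ≤ i.val ∧ i.val < a + 2 * e * t + 2 * e) ∧
            i ∈ C.inputsBelow h := by
        intro t ht
        obtain ⟨i, hi, hr⟩ := (Finset.mem_filter.mp ht).2
        exact ⟨i, hi, by unfold Circuit.inputsBelow; simp [hr]⟩
      rcases Nat.eq_zero_or_pos n with hn | hn
      · have : (Finset.range m).filter (fun t =>
            reachI C (a + 2 * e * t) (a + 2 * e * t + 2 * e) (Sum.inr h)) = ∅ := by
          rw [Finset.eq_empty_iff_forall_notMem]
          intro t ht
          obtain ⟨i, _⟩ := hex t ht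
          exact absurd i.isLt (by omega)
        rw [this]
        simp
      · have : Nonempty (Fin n) := ⟨⟨0, hn⟩⟩
        choose! f hf1 hf2 using hex
        apply Finset.card_le_card_of_injOn f
        · intro t ht
          exact Finset.mem_coe.mpr (hf2 t (Finset.mem_coe.mp ht))
        · intro t ht t' ht' hff
          have h7 := hf1 t (Finset.mem_coe.mp ht)
          have h8 := hf1 t' (Finset.mem_coe.mp ht')
          rw [← hff] at h8
          exact hdisj _ t t' h7 h8
    have h7 : ∀ h ∈ C.reused \ A, (∑ t ∈ Finset.range m,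
        if reachI C (a + 2 * e * t) (a + 2 * e * t + 2 * e) (Sum.inr h) then
          C.outdeg (Sum.inr h) else 0) ≤
        m * (if q < (C.inputsBelow h).card then C.outdeg (Sum.inr h) else 0) +
          q * C.outdeg (Sum.inr h) := by
      intro h _
      rw [← Finset.sum_filter, Finset.sum_const, smul_eq_mul]
      by_cases hqb : q < (C.inputsBelow h).card
      · rw [if_pos hqb]
        have : ((Finset.range m).filter (fun t =>
          reachI C (a + 2 * e * t) (a + 2 * e * t + 2 * e) (Sum.inr h))).card ≤ m := by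
          refine (Finset.card_filter_le _ _).trans ?_
          rw [Finset.card_range]
        exact (Nat.mul_le_mul_right _ this).trans (Nat.le_add_right _ _)
      · rw [if_neg hqb]
        have := (h6 h).trans (Nat.le_of_not_lt hqb)
        rw [mul_zero, zero_add]
        exact Nat.mul_le_mul_right _ this
    refine (Finset.sum_le_sum h7).trans ?_
    rw [Finset.sum_add_distrib]
    apply Nat.add_le_add
    · rw [← Finset.mul_sum]
      apply Nat.mul_le_mul_left
      unfold Circuit.sharing
      rw [Finset.sum_filter]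
    · rw [← Finset.mul_sum]
      apply Nat.mul_le_mul_left
      exact Finset.sum_le_sum_of_subset (Finset.subset_univ _)
  have h8 := sum_outdeg_le C
  rw [Finset.sum_add_distrib]
  have h9 : ∑ i : Fin n, C.outdeg (Sum.inl i) ≤ q * ∑ i : Fin n, C.outdeg (Sum.inl i) :=
    Nat.le_mul_of_pos_left _ hq
  calc _ ≤ ∑ i : Fin n, C.outdeg (Sum.inl i) +
        (m * C.sharing A q + q * ∑ h : Fin s, C.outdeg (Sum.inr h)) := Nat.add_le_add h1 h4
    _ ≤ m * C.sharing A q + q * (∑ i : Fin n, C.outdeg (Sum.inl i) +
        ∑ h : Fin s, C.outdeg (Sum.inr h)) := by rw [Nat.mul_add]; omega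
    _ ≤ m * C.sharing A q + q * (2 * s) := by
        apply Nat.add_le_add_left
        exact Nat.mul_le_mul_left _ h8

end sum

/-- The sharing budget theorem. -/
theorem sharing_budget {n s : ℕ} (C : Circuit n s) (hC : C.Computes selPoly)
    (A : Finset (Fin s)) (q : ℕ) (hq : 1 ≤ q) :
    (n - C.sharing A q) ^ 2 ≤ 128 * q * (A.card + Nat.log 2 n + 2) * (n + s) := by
  set D := C.sharing A q with hD
  set x := n - D with hx
  set L := Nat.log 2 n + 1 with hL
  set K := A.card + L + 1 with hK
  have hKeq : A.card + Nat.log 2 n + 2 = K := by omega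
  rw [hKeq]
  have hxn : x ≤ n := Nat.sub_le _ _
  by_cases hcase : x < 64 * K
  · have h1 : x ^ 2 ≤ 64 * K * n := by
      rw [sq]
      exact Nat.mul_le_mul hcase.le hxn
    have h2 : 64 * K * n ≤ 128 * q * K * (n + s) := by
      apply Nat.mul_le_mul _ (Nat.le_add_right _ _)
      apply Nat.mul_le_mul_right
      omega
    exact h1.trans h2
  · push Not at hcase
    set m := x / (16 * K) with hm
    have hK0 : 0 < K := by omega
    have hn0 : 0 < n := by omega
    have hnL : n < 2 ^ L := Nat.lt_pow_succ_log_self (by norm_num) n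
    have hm1 : 16 * K * m ≤ x := Nat.mul_div_le x (16 * K)
    have hm2 : x < 16 * K * (m + 1) := by
      have := Nat.lt_mul_div_succ x (show 0 < 16 * K by omega)
      exact this
    set W0 := 2 * L + K + 2 * K * m with hW0
    have hKm : 16 * K * m = 8 * (2 * K * m) := by ring
    have hKm1 : 16 * K * (m + 1) = 16 * (K * m) + 16 * K := by ring
    have h2Km : 2 * K * m = 2 * (K * m) := by ring
    have hW0le : 64 * W0 ≤ 11 * x := by omega
    have hW0n : W0 ≤ n := by omega
    have hmx : m ≤ x := Nat.div_le_self _ _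
    -- the prime
    obtain ⟨p, hp, hplt, hple⟩ := Nat.exists_prime_lt_and_le_two_mul (2 ^ (A.card + L))
      (by positivity)
    have hpe : p < 2 ^ K := by
      have h1 : p ≤ 2 ^ K := by
        rw [hK, pow_succ, mul_comm]
        exact hple
      rcases h1.lt_or_eq with h2 | h2
      · exact h2
      · exfalso
        rw [h2] at hp
        exact Nat.Prime.not_prime_pow (by omega) hp
    have hpn : n * 2 ^ A.card ≤ p := by
      have h1 : n * 2 ^ A.card ≤ 2 ^ L * 2 ^ A.card := Nat.mul_le_mul_right _ hnL.le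
      rw [← pow_add, add_comm L] at h1
      omega
    have hblock : ∀ t ∈ Finset.range m, n - W0 - (2 * A.card + 2) ≤
        ellR C (reachI C (2 * L + K + 2 * K * t) (2 * L + K + 2 * K * t + 2 * K)) +
        sharR C A (reachI C (2 * L + K + 2 * K * t) (2 * L + K + 2 * K * t + 2 * K)) := by
      intro t ht
      rw [Finset.mem_range] at ht
      have := block_count C A hC (e := K) (p := p) (t := t) (m := m) hL hW0 hW0n ht
        (by omega) (by omega) hpe hp hpn
      omega
    have hsum := (Finset.sum_le_sum hblock).trans (sum_blocks C A q hq (2 * L + K) K m)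
    rw [Finset.sum_const, Finset.card_range, smul_eq_mul, ← hD] at hsum
    -- x / 2 per block
    have h1 : D + (x + 1) / 2 ≤ n - W0 - (2 * A.card + 2) := by omega
    have h2 : m * (D + (x + 1) / 2) ≤ m * D + q * (2 * s) :=
      (Nat.mul_le_mul_left _ h1).trans hsum
    rw [Nat.mul_add] at h2
    have h3 : m * ((x + 1) / 2) ≤ q * (2 * s) := by omega
    have h4 : m * x ≤ 4 * (q * s) := by
      have h5 : x ≤ 2 * ((x + 1) / 2) := by omega
      calc m * x ≤ m * (2 * ((x + 1) / 2)) := Nat.mul_le_mul_left _ h5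
        _ = 2 * (m * ((x + 1) / 2)) := by ring
        _ ≤ 2 * (q * (2 * s)) := Nat.mul_le_mul_left _ h3
        _ = 4 * (q * s) := by ring
    have h6 : 3 * x ≤ 64 * (K * m) := by omega
    have h7 : 3 * x ^ 2 ≤ 256 * (q * K * s) := by
      calc 3 * x ^ 2 = (3 * x) * x := by ring
        _ ≤ (64 * (K * m)) * x := Nat.mul_le_mul_right _ h6
        _ = 64 * K * (m * x) := by ring
        _ ≤ 64 * K * (4 * (q * s)) := Nat.mul_le_mul_left _ h4
        _ = 256 * (q * K * s) := by ring
    have h8 : 128 * q * K * (n + s) = 128 * (q * K * s) + 128 * q * K * n := by ring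
    rw [h8]
    omega

end Pool.Agent.Lib_MP_22d2c8_lc
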